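import Pool.Agent.T3H29.HR.Val

/-! # A law of large numbers for nearly orthogonal bounded functions -/

set_option autoImplicit false

namespace Pool.Agent.T3H29.HR

open MeasureTheory ProbabilityTheory Filter Topology Finset

section
variable {Ω : Type*} [MeasurableSpace Ω] (P : Measure Ω) [IsProbabilityMeasure P]

lemma second_moment (D : ℕ → Ω → ℂ) (hD : ∀ n, Measurable (D n)) (hb : ∀ n ω, ‖D n ω‖ ≤ 2)
    (A ρ : ℝ) (hA : 0 ≤ A) (hρ : 0 ≤ ρ) (hρ1 : ρ < 1)
    (hc : ∀ m n, m < n → ‖∫ ω, D m ω * (starRingEnd ℂ) (D n ω) ∂P‖ ≤ A * ρ ^ (n - m)) (N : ℕ) :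
    ∫ ω, ‖∑ n ∈ range N, D n ω‖ ^ 2 ∂P ≤ (4 + 2 * A / (1 - ρ)) * N := by
  have h1 : 0 < 1 - ρ := by linarith
  have hint : ∀ m n, Integrable (fun ω => D m ω * (starRingEnd ℂ) (D n ω)) P := by
    intro m n
    refine Integrable.of_bound (C := 4) ((hD m).mul ((Complex.continuous_conj.measurable).comp (hD n))).aestronglyMeasurable
      (Eventually.of_forall fun ω => ?_)
    rw [norm_mul, RCLike.norm_conj]
    have h1 := hb m ω; have h2 := hb n ω
    nlinarith [norm_nonneg (D m ω), norm_nonneg (D n ω)]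
  induction N with
  | zero => simp
  | succ N ih =>
    have hS : Measurable fun ω => ∑ n ∈ range N, D n ω := Finset.measurable_fun_sum _ fun n _ => hD n
    have hSb : ∀ ω, ‖∑ n ∈ range N, D n ω‖ ≤ 2 * N := by
      intro ω
      refine (norm_sum_le _ _).trans ((sum_le_sum fun n _ => hb n ω).trans (le_of_eq ?_))
      simp [mul_comm]
    have hexp : ∀ ω, ‖∑ n ∈ range (N + 1), D n ω‖ ^ 2 = ‖∑ n ∈ range N, D n ω‖ ^ 2 +
        2 * (∑ m ∈ range N, D m ω * (starRingEnd ℂ) (D N ω)).re + ‖D N ω‖ ^ 2 := by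
      intro ω
      rw [sum_range_succ, ← sum_mul]
      rw [← Complex.normSq_eq_norm_sq, ← Complex.normSq_eq_norm_sq, ← Complex.normSq_eq_norm_sq,
        Complex.normSq_add]
      ring
    have i1 : Integrable (fun ω => ‖∑ n ∈ range N, D n ω‖ ^ 2) P := by
      refine Integrable.of_bound (C := (2 * N) ^ 2) (hS.norm.pow_const 2).aestronglyMeasurable
        (Eventually.of_forall fun ω => ?_)
      rw [Real.norm_eq_abs, abs_of_nonneg (by positivity)]
      exact pow_le_pow_left₀ (norm_nonneg _) (hSb ω) 2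
    have i2' : Integrable (fun ω => ∑ m ∈ range N, D m ω * (starRingEnd ℂ) (D N ω)) P :=
      integrable_finset_sum _ fun m _ => hint m N
    have i2 : Integrable (fun ω => 2 * (∑ m ∈ range N, D m ω * (starRingEnd ℂ) (D N ω)).re) P :=
      i2'.re.const_mul 2
    have i3 : Integrable (fun ω => ‖D N ω‖ ^ 2) P := by
      refine Integrable.of_bound (C := 4) ((hD N).norm.pow_const 2).aestronglyMeasurable
        (Eventually.of_forall fun ω => ?_)
      rw [Real.norm_eq_abs, abs_of_nonneg (by positivity)]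
      have := hb N ω
      nlinarith [norm_nonneg (D N ω)]
    have e1 : ∫ ω, ‖∑ n ∈ range (N + 1), D n ω‖ ^ 2 ∂P = ∫ ω, ‖∑ n ∈ range N, D n ω‖ ^ 2 ∂P +
        2 * (∫ ω, ∑ m ∈ range N, D m ω * (starRingEnd ℂ) (D N ω) ∂P).re + ∫ ω, ‖D N ω‖ ^ 2 ∂P := by
      simp only [hexp]
      have i12 : Integrable (fun ω => ‖∑ n ∈ range N, D n ω‖ ^ 2 +
        2 * (∑ m ∈ range N, D m ω * (starRingEnd ℂ) (D N ω)).re) P := i1.add i2
      rw [integral_add i12 i3, integral_add i1 i2, integral_const_mul]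
      have := integral_re i2'
      simp only [RCLike.re_to_complex] at this
      rw [this]
    have e2 : (∫ ω, ∑ m ∈ range N, D m ω * (starRingEnd ℂ) (D N ω) ∂P).re ≤ A / (1 - ρ) := by
      refine (Complex.re_le_norm _).trans ?_
      rw [integral_finset_sum _ fun m _ => hint m N]
      refine (norm_sum_le _ _).trans ?_
      calc ∑ m ∈ range N, ‖∫ ω, D m ω * (starRingEnd ℂ) (D N ω) ∂P‖
          ≤ ∑ m ∈ range N, A * ρ ^ (N - m) := sum_le_sum fun m hm => hc m N (mem_range.1 hm)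
        _ ≤ ∑ m ∈ range N, A * ρ ^ (N - 1 - m) := by
            refine sum_le_sum fun m hm => mul_le_mul_of_nonneg_left ?_ hA
            exact pow_le_pow_of_le_one hρ hρ1.le (by omega)
        _ = A * ∑ m ∈ range N, ρ ^ m := by
            rw [mul_sum]
            exact sum_range_reflect (fun m => A * ρ ^ m) N
        _ ≤ A * (1 / (1 - ρ)) := by
            refine mul_le_mul_of_nonneg_left ?_ hA
            rw [le_div_iff₀ h1]
            have := geom_sum_mul_neg ρ N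
            rw [this]
            have := pow_nonneg hρ N
            linarith
        _ = A / (1 - ρ) := by ring
    have e3 : ∫ ω, ‖D N ω‖ ^ 2 ∂P ≤ 4 := by
      refine (integral_mono_of_nonneg (Eventually.of_forall fun ω => by positivity) (integrable_const 4)
        (Eventually.of_forall fun ω => ?_)).trans (le_of_eq (by simp))
      have := hb N ω
      simp only
      nlinarith [norm_nonneg (D N ω)]
    rw [e1]
    push_cast
    have : 2 * A / (1 - ρ) = 2 * (A / (1 - ρ)) := by ring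
    rw [this] at ih ⊢
    nlinarith

lemma as_of_second (D : ℕ → Ω → ℂ) (hD : ∀ n, Measurable (D n)) (hb : ∀ n ω, ‖D n ω‖ ≤ 2)
    (C : ℝ) (hC : 0 ≤ C) (h : ∀ N : ℕ, ∫ ω, ‖∑ n ∈ range N, D n ω‖ ^ 2 ∂P ≤ C * N) :
    ∀ᵐ ω ∂P, ∀ ε : ℝ, 0 < ε → ∀ᶠ N : ℕ in atTop, ‖∑ n ∈ range N, D n ω‖ ≤ ε * N := by
  have hS : ∀ N, Measurable fun ω => ∑ n ∈ range N, D n ω := fun N =>
    Finset.measurable_fun_sum _ fun n _ => hD n
  have hSb : ∀ N ω, ‖∑ n ∈ range N, D n ω‖ ≤ 2 * N := by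
    intro N ω
    refine (norm_sum_le _ _).trans ((sum_le_sum fun n _ => hb n ω).trans (le_of_eq ?_))
    simp [mul_comm]
  have i1 : ∀ N, Integrable (fun ω => ‖∑ n ∈ range N, D n ω‖ ^ 2) P := by
    intro N
    refine Integrable.of_bound (C := (2 * N) ^ 2) ((hS N).norm.pow_const 2).aestronglyMeasurable
      (Eventually.of_forall fun ω => ?_)
    rw [Real.norm_eq_abs, abs_of_nonneg (by positivity)]
    exact pow_le_pow_left₀ (norm_nonneg _) (hSb N ω) 2
  have key : ∀ j : ℕ, ∀ᵐ ω ∂P, ∀ᶠ k : ℕ in atTop,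
      ‖∑ n ∈ range (k ^ 2), D n ω‖ < 1 / ((j : ℝ) + 1) * (k : ℝ) ^ 2 := by
    intro j
    set δ : ℝ := 1 / ((j : ℝ) + 1) with hδ
    have hδ0 : 0 < δ := by positivity
    have hle : ∀ k : ℕ, P {ω | δ * (k : ℝ) ^ 2 ≤ ‖∑ n ∈ range (k ^ 2), D n ω‖ ∧ 1 ≤ k} ≤
        ENNReal.ofReal (C / δ ^ 2 * (1 / (k : ℝ) ^ 2)) := by
      intro k
      rcases Nat.eq_zero_or_pos k with rfl | hk
      · have : {ω : Ω | δ * ((0 : ℕ) : ℝ) ^ 2 ≤ ‖∑ n ∈ range (0 ^ 2), D n ω‖ ∧ 1 ≤ 0} = ∅ := by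
          ext ω; simp
        rw [this]; simp
      · have hk0 : (0 : ℝ) < k := by exact_mod_cast hk
        have hsub : {ω | δ * (k : ℝ) ^ 2 ≤ ‖∑ n ∈ range (k ^ 2), D n ω‖ ∧ 1 ≤ k} ⊆
            {ω | (δ * (k : ℝ) ^ 2) ^ 2 ≤ ‖∑ n ∈ range (k ^ 2), D n ω‖ ^ 2} := by
          rintro ω ⟨hω, _⟩
          exact pow_le_pow_left₀ (by positivity) hω 2
        have hmk := mul_meas_ge_le_integral_of_nonneg
          (Eventually.of_forall fun ω => (by positivity : (0 : ℝ) ≤ ‖∑ n ∈ range (k ^ 2), D n ω‖ ^ 2))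
          (i1 (k ^ 2)) ((δ * (k : ℝ) ^ 2) ^ 2)
        have h2 := hmk.trans (h (k ^ 2))
        have h3 : P.real {ω | (δ * (k : ℝ) ^ 2) ^ 2 ≤ ‖∑ n ∈ range (k ^ 2), D n ω‖ ^ 2} ≤
            C / δ ^ 2 * (1 / (k : ℝ) ^ 2) := by
          have h4 : 0 < (δ * (k : ℝ) ^ 2) ^ 2 := by positivity
          rw [← le_div_iff₀' h4] at h2
          refine h2.trans (le_of_eq ?_)
          push_cast
          field_simp
        calc _ ≤ P {ω | (δ * (k : ℝ) ^ 2) ^ 2 ≤ ‖∑ n ∈ range (k ^ 2), D n ω‖ ^ 2} := measure_mono hsub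
          _ = ENNReal.ofReal (P.real {ω | (δ * (k : ℝ) ^ 2) ^ 2 ≤ ‖∑ n ∈ range (k ^ 2), D n ω‖ ^ 2}) := by
              rw [ofReal_measureReal]
          _ ≤ _ := ENNReal.ofReal_le_ofReal h3
    have hsum : Summable fun k : ℕ => C / δ ^ 2 * (1 / (k : ℝ) ^ 2) :=
      (Real.summable_one_div_nat_pow.2 one_lt_two).mul_left _
    have hfin : ∑' k : ℕ, P {ω | δ * (k : ℝ) ^ 2 ≤ ‖∑ n ∈ range (k ^ 2), D n ω‖ ∧ 1 ≤ k} ≠ ⊤ := by
      refine ne_top_of_le_ne_top ?_ (ENNReal.tsum_le_tsum hle)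
      rw [← ENNReal.ofReal_tsum_of_nonneg (fun k => by positivity) hsum]
      exact ENNReal.ofReal_ne_top
    filter_upwards [ae_eventually_notMem hfin] with ω hω
    filter_upwards [hω, eventually_ge_atTop 1] with k hk hk1
    simp only [Set.mem_setOf_eq, not_and, not_le] at hk
    by_contra hcon
    rw [not_lt] at hcon
    have := hk hcon
    omega
  have hall := ae_all_iff.2 key
  filter_upwards [hall] with ω hω ε hε
  obtain ⟨j, hj⟩ := exists_nat_one_div_lt (half_pos hε)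
  obtain ⟨k0, hk0⟩ := eventually_atTop.1 (hω j)
  obtain ⟨k1, hk1⟩ := exists_nat_gt (12 / ε)
  filter_upwards [eventually_ge_atTop ((max k0 (k1 + 1)) ^ 2)] with N hN
  set k := Nat.sqrt N with hk
  have hkN : k ^ 2 ≤ N := Nat.sqrt_le' N
  have hNk : N < (k + 1) ^ 2 := Nat.lt_succ_sqrt' N
  have hkge : max k0 (k1 + 1) ≤ k := Nat.le_sqrt'.2 hN
  have hk0' : k0 ≤ k := le_trans (le_max_left _ _) hkge
  have hk1' : k1 + 1 ≤ k := le_trans (le_max_right _ _) hkge
  have h1 := hk0 k hk0'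
  have hkr : (12 / ε) < k := hk1.trans (by exact_mod_cast (by omega : k1 < k))
  have hkpos : (0 : ℝ) < k := lt_trans (by positivity) hkr
  have h2 : ∑ n ∈ range N, D n ω = ∑ n ∈ range (k ^ 2), D n ω + ∑ n ∈ Ico (k ^ 2) N, D n ω :=
    (sum_range_add_sum_Ico _ hkN).symm
  have h3 : ‖∑ n ∈ Ico (k ^ 2) N, D n ω‖ ≤ 2 * (2 * k) := by
    refine (norm_sum_le _ _).trans ((sum_le_sum fun n _ => hb n ω).trans ?_)
    rw [sum_const, Nat.card_Ico, nsmul_eq_mul, mul_comm]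
    refine mul_le_mul_of_nonneg_left ?_ two_pos.le
    have : N - k ^ 2 ≤ 2 * k := by
      have : (k + 1) ^ 2 = k ^ 2 + 2 * k + 1 := by ring
      omega
    exact_mod_cast this
  have h4 : (k : ℝ) ^ 2 ≤ N := by exact_mod_cast hkN
  have h5 : (12 : ℝ) < ε * k := by rwa [div_lt_iff₀' hε] at hkr
  have h6 : 1 / ((j : ℝ) + 1) * (k : ℝ) ^ 2 ≤ ε / 2 * (k : ℝ) ^ 2 :=
    mul_le_mul_of_nonneg_right hj.le (by positivity)
  rw [h2]
  refine (norm_add_le _ _).trans ?_
  nlinarith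

end

end Pool.Agent.T3H29.HR
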