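import Pool.Agent.T3H29.HR.Stm

/-! Task WIE of project HR. -/

set_option autoImplicit false

namespace Pool.Agent.T3H29.HR

open MeasureTheory Filter Topology

namespace WieAux

variable {b : ℕ}

lemma val_eq (y : ℕ → Fin b) : val y = Real.ofDigits y := by
  unfold val Real.ofDigits Real.ofDigitsTerm
  simp only [div_eq_mul_inv]

lemma continuous_val : Continuous (val (b := b)) := by
  have : (val (b := b)) = Real.ofDigits := by
    funext y; exact val_eq y
  rw [this]
  exact Real.continuous_ofDigits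

/-- the integer with the first `n` digits -/
def NN (y : ℕ → Fin b) : ℕ → ℕ
  | 0 => 0
  | n + 1 => b * NN y n + (y n : ℕ)

lemma NN_inj (y y' : ℕ → Fin b) (n : ℕ) : NN y n = NN y' n → ∀ i < n, y i = y' i := by
  induction n with
  | zero => intro _ i hi; omega
  | succ n ih =>
    intro h i hi
    simp only [NN] at h
    have hb : 0 < b := Fin.pos (y 0)
    have h1 : ((y n : ℕ)) = (y' n : ℕ) := by
      have := congrArg (· % b) h
      simpa [Nat.mul_add_mod, Nat.mod_eq_of_lt (y n).2, Nat.mod_eq_of_lt (y' n).2] using this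
    have h2 : NN y n = NN y' n := by
      rw [h1] at h
      have h3 := Nat.add_right_cancel h
      exact Nat.eq_of_mul_eq_mul_left hb h3
    rcases Nat.lt_succ_iff_lt_or_eq.1 hi with h3 | h3
    · exact ih h2 i h3
    · subst h3; exact Fin.ext h1

lemma NN_sum (y : ℕ → Fin b) (n : ℕ) :
    (b : ℝ) ^ n * ∑ i ∈ Finset.range n, Real.ofDigitsTerm y i = NN y n := by
  have hb : (b : ℝ) ≠ 0 := by
    have : 0 < b := Fin.pos (y 0)
    positivity
  induction n with
  | zero => simp [NN]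
  | succ n ih =>
    rw [Finset.sum_range_succ, mul_add, pow_succ, mul_comm ((b : ℝ) ^ n) b, mul_assoc, ih]
    simp only [NN, Real.ofDigitsTerm]
    push_cast
    rw [pow_succ]
    field_simp

lemma NN_bounds (y : ℕ → Fin b) (n : ℕ) :
    (NN y n : ℝ) ≤ (b : ℝ) ^ n * val y ∧ (b : ℝ) ^ n * val y ≤ NN y n + 1 := by
  have hb : (b : ℝ) ≠ 0 := by
    have : 0 < b := Fin.pos (y 0)
    positivity
  have h1 : (b : ℝ) ^ n * val y = NN y n + Real.ofDigits (fun i => y (i + n)) := by
    rw [val_eq, Real.ofDigits_eq_sum_add_ofDigits y n, mul_add, NN_sum]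
    congr 1
    rw [← mul_assoc, mul_inv_cancel₀ (pow_ne_zero n hb), one_mul]
  rw [h1]
  exact ⟨by linarith [Real.ofDigits_nonneg (fun i => y (i + n))],
    by linarith [Real.ofDigits_le_one (fun i => y (i + n))]⟩

lemma NN_ne_of_ne {y y' : ℕ → Fin b} (h : y ≠ y') : ∃ n₀, ∀ n, n₀ ≤ n → NN y n ≠ NN y' n := by
  obtain ⟨i, hi⟩ := Function.ne_iff.1 h
  exact ⟨i + 1, fun n hn h2 => hi (NN_inj y y' n h2 i (by omega))⟩

/-- the fibres of `val` have at most two elements -/
lemma fiber_two {y₁ y₂ y₃ : ℕ → Fin b} (h12 : y₁ ≠ y₂) (h13 : y₁ ≠ y₃) (h23 : y₂ ≠ y₃) {c : ℝ}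
    (h1 : val y₁ = c) (h2 : val y₂ = c) (h3 : val y₃ = c) : False := by
  obtain ⟨n₁, hn₁⟩ := NN_ne_of_ne h12
  obtain ⟨n₂, hn₂⟩ := NN_ne_of_ne h13
  obtain ⟨n₃, hn₃⟩ := NN_ne_of_ne h23
  set n := n₁ + n₂ + n₃
  have e1 := hn₁ n (by omega)
  have e2 := hn₂ n (by omega)
  have e3 := hn₃ n (by omega)
  have b1 := NN_bounds y₁ n
  have b2 := NN_bounds y₂ n
  have b3 := NN_bounds y₃ n
  rw [h1] at b1
  rw [h2] at b2
  rw [h3] at b3
  have c12 : (NN y₁ n : ℝ) ≤ NN y₂ n + 1 := by linarith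
  have c21 : (NN y₂ n : ℝ) ≤ NN y₁ n + 1 := by linarith
  have c13 : (NN y₁ n : ℝ) ≤ NN y₃ n + 1 := by linarith
  have c31 : (NN y₃ n : ℝ) ≤ NN y₁ n + 1 := by linarith
  have c23 : (NN y₂ n : ℝ) ≤ NN y₃ n + 1 := by linarith
  have c32 : (NN y₃ n : ℝ) ≤ NN y₂ n + 1 := by linarith
  have d12 : NN y₁ n ≤ NN y₂ n + 1 := by exact_mod_cast c12
  have d21 : NN y₂ n ≤ NN y₁ n + 1 := by exact_mod_cast c21
  have d13 : NN y₁ n ≤ NN y₃ n + 1 := by exact_mod_cast c13
  have d31 : NN y₃ n ≤ NN y₁ n + 1 := by exact_mod_cast c31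
  have d23 : NN y₂ n ≤ NN y₃ n + 1 := by exact_mod_cast c23
  have d32 : NN y₃ n ≤ NN y₂ n + 1 := by exact_mod_cast c32
  omega

lemma fiber_countable (c : ℝ) : {y : ℕ → Fin b | val y = c}.Countable := by
  by_cases hs : {y : ℕ → Fin b | val y = c}.Subsingleton
  · exact hs.countable
  · rw [Set.not_subsingleton_iff] at hs
    obtain ⟨y₁, h1, y₂, h2, h12⟩ := hs
    refine Set.Countable.mono (s₂ := {y₁, y₂}) ?_ (Set.toFinite _).countable
    intro y hy
    by_contra hcon
    simp only [Set.mem_insert_iff, Set.mem_singleton_iff, not_or] at hcon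
    exact fiber_two h12 (Ne.symm hcon.1) (Ne.symm hcon.2) h1 h2 hy

/-- the oscillating integral -/
lemma osc (L : ℝ) (hL : 0 < L) (c : ℝ) (hc : c ≠ 0) :
    ‖∫ u in (0 : ℝ)..1, Complex.exp (((c * Real.exp (L * u) : ℝ) : ℂ) * Complex.I)‖ ≤
      (2 + L) / (|c| * L) := by
  set G : ℝ → ℂ := fun u => Complex.exp (((c * Real.exp (L * u) : ℝ) : ℂ) * Complex.I) with hG
  set P : ℝ → ℂ := fun u => ((Real.exp (-(L * u)) : ℝ) : ℂ) * G u / (Complex.I * c * L) with hP
  have hcC : (c : ℂ) ≠ 0 := by exact_mod_cast hc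
  have hLC : (L : ℂ) ≠ 0 := by exact_mod_cast hL.ne'
  have hcont : Continuous G := by
    rw [hG]; fun_prop
  have hcontP : Continuous P := by
    rw [hP]; fun_prop
  have hder : ∀ u : ℝ, HasDerivAt P (G u - L * P u) u := by
    intro u
    have h1 : HasDerivAt (fun u : ℝ => Real.exp (-(L * u))) (Real.exp (-(L * u)) * (-(L * 1))) u :=
      ((((hasDerivAt_id u).const_mul L)).neg).exp
    have h2 : HasDerivAt (fun u : ℝ => c * Real.exp (L * u)) (c * (Real.exp (L * u) * (L * 1))) u :=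
      (((hasDerivAt_id u).const_mul L).exp).const_mul c
    have h3 := ((h2.ofReal_comp).mul_const Complex.I).cexp
    have h4 := (h1.ofReal_comp.mul h3).div_const (Complex.I * c * L)
    refine h4.congr_deriv ?_
    have hGu : G u = Complex.exp (((c * Real.exp (L * u) : ℝ) : ℂ) * Complex.I) := rfl
    simp only [hP]
    rw [← hGu]
    have hexp : ((Real.exp (-(L * u)) : ℝ) : ℂ) * ((Real.exp (L * u) : ℝ) : ℂ) = 1 := by
      rw [← Complex.ofReal_mul, ← Real.exp_add]; simp
    push_cast at hexp ⊢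
    field_simp
    linear_combination (c * G u * Complex.I) * hexp
  have hint : ∫ u in (0 : ℝ)..1, (G u - L * P u) = P 1 - P 0 :=
    intervalIntegral.integral_eq_sub_of_hasDerivAt (fun u _ => hder u)
      ((hcont.sub (continuous_const.mul hcontP)).intervalIntegrable _ _)
  have hsplit : ∫ u in (0 : ℝ)..1, G u = P 1 - P 0 + L * ∫ u in (0 : ℝ)..1, P u := by
    have h0 : ∫ u in (0 : ℝ)..1, (G u - L * P u) =
        (∫ u in (0 : ℝ)..1, G u) - ∫ u in (0 : ℝ)..1, L * P u :=
      intervalIntegral.integral_sub (f := G) (g := fun u => L * P u)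
        (hcont.intervalIntegrable _ _) ((continuous_const.mul hcontP).intervalIntegrable _ _)
    rw [intervalIntegral.integral_const_mul] at h0
    rw [← hint, h0]
    ring
  have hGn : ∀ u, ‖G u‖ = 1 := fun u => Complex.norm_exp_ofReal_mul_I _
  have hPn : ∀ u, 0 ≤ u → ‖P u‖ ≤ 1 / (|c| * L) := by
    intro u hu
    simp only [hP]
    rw [norm_div, norm_mul, hGn, mul_one, norm_mul, norm_mul, Complex.norm_I, one_mul,
      Complex.norm_real, Complex.norm_real, Complex.norm_real, Real.norm_eq_abs, Real.norm_eq_abs,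
      Real.norm_eq_abs, abs_of_pos hL, abs_of_pos (Real.exp_pos _)]
    gcongr
    rw [Real.exp_le_one_iff]
    have : 0 ≤ L * u := by positivity
    linarith
  have hIP : ‖∫ u in (0 : ℝ)..1, P u‖ ≤ 1 / (|c| * L) := by
    have := intervalIntegral.norm_integral_le_of_norm_le_const (a := (0 : ℝ)) (b := 1) (f := P)
      (C := 1 / (|c| * L)) (fun u hu => hPn u (by
        rw [Set.uIoc_of_le zero_le_one] at hu
        exact hu.1.le))
    simpa using this
  rw [hsplit]
  calc ‖P 1 - P 0 + L * ∫ u in (0 : ℝ)..1, P u‖ ≤ ‖P 1‖ + ‖P 0‖ + L * ‖∫ u in (0 : ℝ)..1, P u‖ := by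
        refine (norm_add_le _ _).trans ?_
        rw [norm_mul, Complex.norm_real, Real.norm_eq_abs, abs_of_pos hL]
        gcongr
        exact norm_sub_le _ _
    _ ≤ 1 / (|c| * L) + 1 / (|c| * L) + L * (1 / (|c| * L)) := by
        gcongr
        · exact hPn 1 zero_le_one
        · exact hPn 0 le_rfl
    _ = (2 + L) / (|c| * L) := by ring

lemma norm_e (x : ℝ) : ‖e x‖ = 1 := Complex.norm_exp_ofReal_mul_I _

lemma continuous_e : Continuous e := by
  unfold e; fun_prop

/-- the kernel -/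
noncomputable def hh (b K : ℕ) (x : ℝ) : ℂ := ∫ u in (0 : ℝ)..1, e ((b : ℝ) ^ ((K : ℝ) + u) * x)

lemma norm_hh_le (b K : ℕ) (x : ℝ) : ‖hh b K x‖ ≤ 1 := by
  have := intervalIntegral.norm_integral_le_of_norm_le_const (a := (0 : ℝ)) (b := 1)
    (f := fun u => e ((b : ℝ) ^ ((K : ℝ) + u) * x)) (C := 1) (fun u _ => (norm_e _).le)
  simpa [hh] using this

lemma hh_eq (b : ℕ) (hb : 2 ≤ b) (K : ℕ) (x : ℝ) : hh b K x = ∫ u in (0 : ℝ)..1,
    Complex.exp (((2 * Real.pi * (b : ℝ) ^ K * x * Real.exp (Real.log b * u) : ℝ) : ℂ) *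
      Complex.I) := by
  unfold hh
  refine intervalIntegral.integral_congr fun u _ => ?_
  simp only [e]
  have hb0 : (0 : ℝ) < b := by positivity
  rw [Real.rpow_add hb0, Real.rpow_natCast, Real.rpow_def_of_pos hb0 u]
  congr 2
  push_cast
  ring

lemma tendsto_hh (b : ℕ) (hb : 2 ≤ b) (x : ℝ) (hx : x ≠ 0) :
    Tendsto (fun K => hh b K x) atTop (𝓝 0) := by
  have hb1 : (1 : ℝ) < b := by exact_mod_cast (by omega : 1 < b)
  have hL : 0 < Real.log b := Real.log_pos hb1
  rw [tendsto_zero_iff_norm_tendsto_zero]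
  have h1 : ∀ K : ℕ, ‖hh b K x‖ ≤
      ((2 + Real.log b) / (2 * Real.pi * |x| * Real.log b)) * ((b : ℝ)⁻¹) ^ K := by
    intro K
    rw [hh_eq b hb]
    have hc : 2 * Real.pi * (b : ℝ) ^ K * x ≠ 0 := by
      have : (b : ℝ) ^ K ≠ 0 := by positivity
      have := Real.pi_pos.ne'
      positivity
    refine (osc (Real.log b) hL _ hc).trans ?_
    rw [abs_mul, abs_mul, abs_mul, abs_of_pos Real.pi_pos, abs_of_pos (by positivity : (0 : ℝ) < (b : ℝ) ^ K),
      abs_of_pos (by norm_num : (0 : ℝ) < 2)]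
    apply le_of_eq
    have hx' : |x| ≠ 0 := abs_ne_zero.2 hx
    have hp : (b : ℝ) ^ K ≠ 0 := by positivity
    have := Real.pi_pos.ne'
    rw [inv_pow]
    field_simp
  refine squeeze_zero (fun _ => norm_nonneg _) h1 ?_
  have h2 : Tendsto (fun K : ℕ => ((b : ℝ)⁻¹) ^ K) atTop (𝓝 0) :=
    tendsto_pow_atTop_nhds_zero_of_lt_one (by positivity) (inv_lt_one_of_one_lt₀ hb1)
  simpa using h2.const_mul ((2 + Real.log b) / (2 * Real.pi * |x| * Real.log b))

end WieAux

open WieAux

/-- task WIE -/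
theorem t_WIE : S_WIE := by
  intro b _ hb ν _ hν
  have hna : NullSingletonClass ν := ⟨hν⟩
  have hb0 : (0 : ℝ) < b := by positivity
  set F : ℕ → ℝ → ℂ := fun K u => ∫ y, e ((b : ℝ) ^ ((K : ℝ) + u) * val y) ∂ν with hF
  have hFc : ∀ K, Continuous (F K) := by
    intro K
    refine continuous_of_dominated (bound := fun _ => 1) ?_ ?_ (integrable_const _) ?_
    · intro u
      exact (continuous_e.comp (continuous_const.mul continuous_val)).aestronglyMeasurable
    · intro u
      exact Eventually.of_forall fun y => (norm_e _).le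
    · refine Eventually.of_forall fun y => ?_
      refine continuous_e.comp (Continuous.mul ?_ continuous_const)
      exact Continuous.rpow (by fun_prop) (by fun_prop) fun u => Or.inl hb0.ne'
  -- the second moment
  have h2 : ∀ K, ((∫ u in (0 : ℝ)..1, ‖F K u‖ ^ 2 : ℝ) : ℂ) =
      ∫ p : (ℕ → Fin b) × (ℕ → Fin b), hh b K (val p.1 - val p.2) ∂(ν.prod ν) := by
    intro K
    rw [← intervalIntegral.integral_ofReal]
    have h3 : ∀ u : ℝ, ((‖F K u‖ ^ 2 : ℝ) : ℂ) = ∫ p : (ℕ → Fin b) × (ℕ → Fin b),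
        e ((b : ℝ) ^ ((K : ℝ) + u) * (val p.1 - val p.2)) ∂(ν.prod ν) := by
      intro u
      have h4 : ((‖F K u‖ ^ 2 : ℝ) : ℂ) = F K u * (starRingEnd ℂ) (F K u) := by
        rw [Complex.mul_conj']; push_cast; rfl
      have h5 : (starRingEnd ℂ) (F K u) =
          ∫ y, (starRingEnd ℂ) (e ((b : ℝ) ^ ((K : ℝ) + u) * val y)) ∂ν := by
        rw [hF]; exact integral_conj.symm
      rw [h4, h5, hF, ← integral_prod_mul]
      refine integral_congr_ae (Eventually.of_forall fun p => ?_)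
      simp only [e]
      rw [← Complex.exp_conj, ← Complex.exp_add, map_mul, Complex.conj_ofReal, Complex.conj_I]
      congr 1
      push_cast
      ring
    simp only [h3]
    simp only [hh, intervalIntegral.integral_of_le (zero_le_one (α := ℝ))]
    refine integral_integral_swap (f := fun (u : ℝ) (p : (ℕ → Fin b) × (ℕ → Fin b)) =>
      e ((b : ℝ) ^ ((K : ℝ) + u) * (val p.1 - val p.2))) ?_
    have hc : Continuous (Function.uncurry fun (u : ℝ) (p : (ℕ → Fin b) × (ℕ → Fin b)) =>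
      e ((b : ℝ) ^ ((K : ℝ) + u) * (val p.1 - val p.2))) := by
      refine continuous_e.comp (Continuous.mul ?_ ?_)
      · exact Continuous.rpow (by fun_prop) (by fun_prop) fun u => Or.inl hb0.ne'
      · exact (continuous_val.comp (by fun_prop)).sub (continuous_val.comp (by fun_prop))
    refine (integrable_const (1 : ℝ)).mono' hc.aestronglyMeasurable ?_
    exact Eventually.of_forall fun q => (norm_e _).le
  -- the diagonal
  have hdiag : ∀ᵐ p : (ℕ → Fin b) × (ℕ → Fin b) ∂(ν.prod ν), val p.1 - val p.2 ≠ 0 := by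
    have hm : MeasurableSet {p : (ℕ → Fin b) × (ℕ → Fin b) | val p.1 - val p.2 = 0} :=
      ((continuous_val.comp continuous_fst).sub (continuous_val.comp continuous_snd)).measurable
        (measurableSet_singleton 0)
    have h0 : (ν.prod ν) {p : (ℕ → Fin b) × (ℕ → Fin b) | val p.1 - val p.2 = 0} = 0 := by
      rw [Measure.measure_prod_null hm]
      refine Eventually.of_forall fun y => ?_
      have hcount : (Prod.mk y ⁻¹' {p : (ℕ → Fin b) × (ℕ → Fin b) | val p.1 - val p.2 = 0}).Countable := by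
        refine (fiber_countable (b := b) (val y)).mono ?_
        intro z hz
        have : val y - val z = 0 := hz
        show val z = val y
        linarith
      exact hcount.measure_zero ν
    rw [ae_iff]
    simpa using h0
  have hlim2 : Tendsto (fun K => ∫ p : (ℕ → Fin b) × (ℕ → Fin b), hh b K (val p.1 - val p.2)
      ∂(ν.prod ν)) atTop (𝓝 0) := by
    have h6 : (0 : ℂ) = ∫ p : (ℕ → Fin b) × (ℕ → Fin b), (0 : ℂ) ∂(ν.prod ν) := by simp
    rw [h6]
    refine tendsto_integral_of_dominated_convergence (fun _ => (1 : ℝ)) ?_ (integrable_const _) ?_ ?_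
    · intro K
      have hcK : Continuous (hh b K) := by
        unfold hh
        refine intervalIntegral.continuous_parametric_intervalIntegral_of_continuous' ?_ 0 1
        refine continuous_e.comp (Continuous.mul ?_ continuous_fst)
        exact Continuous.rpow (by fun_prop) (by fun_prop) fun u => Or.inl hb0.ne'
      exact (hcK.comp ((continuous_val.comp continuous_fst).sub
        (continuous_val.comp continuous_snd))).aestronglyMeasurable
    · intro K
      exact Eventually.of_forall fun p => norm_hh_le _ _ _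
    · filter_upwards [hdiag] with p hp
      exact tendsto_hh b hb _ hp
  have hlim3 : Tendsto (fun K => ∫ u in (0 : ℝ)..1, ‖F K u‖ ^ 2) atTop (𝓝 0) := by
    have h7 : Tendsto (fun K => ((∫ u in (0 : ℝ)..1, ‖F K u‖ ^ 2 : ℝ) : ℂ)) atTop (𝓝 0) := by
      simp only [h2]; exact hlim2
    have h8 := (Complex.continuous_re.tendsto 0).comp h7
    rw [Complex.zero_re] at h8
    exact h8.congr fun K => Complex.ofReal_re _
  -- the first moment
  rw [Metric.tendsto_atTop]
  intro ε hε
  rw [Metric.tendsto_atTop] at hlim3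
  obtain ⟨K₀, hK₀⟩ := hlim3 (ε ^ 2) (by positivity)
  refine ⟨K₀, fun K hK => ?_⟩
  have h9 := hK₀ K hK
  rw [Real.dist_eq, sub_zero] at h9 ⊢
  have h10 := (abs_lt.1 h9).2
  have hnn : 0 ≤ ∫ u in (0 : ℝ)..1, ‖F K u‖ :=
    intervalIntegral.integral_nonneg zero_le_one fun u _ => norm_nonneg _
  rw [abs_of_nonneg hnn]
  have h11 : ∫ u in (0 : ℝ)..1, ‖F K u‖ ≤ ∫ u in (0 : ℝ)..1, (ε / 2 + ‖F K u‖ ^ 2 / (2 * ε)) := by
    refine intervalIntegral.integral_mono_on zero_le_one ((hFc K).norm.intervalIntegrable _ _)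
      ((by fun_prop : Continuous fun u => ε / 2 + ‖F K u‖ ^ 2 / (2 * ε)).intervalIntegrable _ _) ?_
    intro u _
    have : 0 ≤ (ε - ‖F K u‖) ^ 2 := sq_nonneg _
    have h12 : ε / 2 + ‖F K u‖ ^ 2 / (2 * ε) - ‖F K u‖ = (ε - ‖F K u‖) ^ 2 / (2 * ε) := by
      field_simp; ring
    have h13 : 0 ≤ (ε - ‖F K u‖) ^ 2 / (2 * ε) := by positivity
    linarith
  have h14 : ∫ u in (0 : ℝ)..1, (ε / 2 + ‖F K u‖ ^ 2 / (2 * ε)) =
      ε / 2 + (∫ u in (0 : ℝ)..1, ‖F K u‖ ^ 2) / (2 * ε) := by
    rw [intervalIntegral.integral_add (by simp) (((by fun_prop :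
      Continuous fun u => ‖F K u‖ ^ 2 / (2 * ε))).intervalIntegrable _ _),
      intervalIntegral.integral_div]
    simp
  rw [h14] at h11
  have h15 : (∫ u in (0 : ℝ)..1, ‖F K u‖ ^ 2) / (2 * ε) < ε / 2 := by
    rw [div_lt_iff₀ (by positivity)]
    calc (∫ u in (0 : ℝ)..1, ‖F K u‖ ^ 2) < ε ^ 2 := h10
      _ = ε / 2 * (2 * ε) := by ring
  linarith

end Pool.Agent.T3H29.HR
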