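import Pool.Agent.T3H29.HR.Stm

/-! NA: for ergodic processes which are not deterministic the conditional distribution of the future given the
past has no atoms. -/

set_option autoImplicit false
set_option linter.unusedSectionVars false

namespace Pool.Agent.T3H29.HR

open MeasureTheory ProbabilityTheory Filter Topology

namespace NAS

variable {b : ℕ}

theorem meas_past : Measurable (past (b := b)) := by
  unfold past
  exact measurable_pi_lambda _ fun i => measurable_pi_apply _

theorem meas_fut : Measurable (fut (b := b)) := by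
  unfold fut
  exact measurable_pi_lambda _ fun i => measurable_pi_apply _

theorem meas_sh (k : ℤ) : Measurable (sh (b := b) k) := by
  unfold sh
  exact measurable_pi_lambda _ fun i => measurable_pi_apply _

/-- put a digit in front -/
def cons (d : Fin b) (p : ℕ → Fin b) : ℕ → Fin b
  | 0 => d
  | n + 1 => p n

/-- delete the first digit -/
def tl (f : ℕ → Fin b) : ℕ → Fin b := fun i => f (i + 1)

theorem meas_cons (d : Fin b) : Measurable (cons d) := by
  refine measurable_pi_lambda _ fun i => ?_
  cases i with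
  | zero => exact measurable_const
  | succ n => exact measurable_pi_apply n

theorem meas_tl : Measurable (tl (b := b)) :=
  measurable_pi_lambda _ fun _ => measurable_pi_apply _

theorem past_sh (w : ℤ → Fin b) : past (sh 1 w) = cons (w 1) (past w) := by
  funext i
  cases i with
  | zero => simp [past, sh, cons]
  | succ n =>
    simp only [past, sh, cons]
    congr 1
    push_cast
    ring

theorem fut_sh (w : ℤ → Fin b) : fut (sh 1 w) = tl (fut w) := by
  funext i
  simp only [fut, sh, tl]
  congr 1

theorem fut_zero (w : ℤ → Fin b) : fut w 0 = w 1 := by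
  simp [fut]

theorem meas_d (d : Fin b) : MeasurableSet {g : ℕ → Fin b | g 0 = d} :=
  (measurable_pi_apply (X := fun _ : ℕ => Fin b) 0) (measurableSet_singleton d)

section kern

variable [NeZero b] (P : Measure (ℤ → Fin b)) [IsProbabilityMeasure P]

/-- the conditional distribution -/
noncomputable def kap : Kernel (ℕ → Fin b) (ℕ → Fin b) := condDistrib (fut (b := b)) (past (b := b)) P

instance : IsMarkovKernel (kap P) := by
  unfold kap
  infer_instance

theorem joint : (P.map past) ⊗ₘ kap P = P.map fun w => (past w, fut w) :=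
  compProd_map_condDistrib meas_fut.aemeasurable

instance : IsProbabilityMeasure (P.map (past (b := b))) :=
  Measure.isProbabilityMeasure_map meas_past.aemeasurable

/-- the integral over the joint law -/
theorem lint (F : (ℕ → Fin b) → (ℕ → Fin b) → ENNReal) (hF : Measurable (Function.uncurry F)) :
    ∫⁻ w, F (past w) (fut w) ∂P = ∫⁻ p, ∫⁻ f, F p f ∂(kap P p) ∂(P.map past) := by
  have h1 := Measure.lintegral_compProd (μ := P.map past) (κ := kap P) hF
  rw [joint, lintegral_map hF (meas_past.prodMk meas_fut)] at h1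
  exact h1

/-- the chain rule, for one set -/
theorem chain (hP : MeasurePreserving (sh (b := b) 1) P P) (d : Fin b) {B : Set (ℕ → Fin b)}
    (hB : MeasurableSet B) : ∀ᵐ p ∂(P.map past),
      kap P (cons d p) B * kap P p {g | g 0 = d} = kap P p {g | g 0 = d ∧ tl g ∈ B} := by
  classical
  have hd := meas_d d
  have hB' : MeasurableSet {g : ℕ → Fin b | g 0 = d ∧ tl g ∈ B} := hd.inter (meas_tl hB)
  have m1 : Measurable fun p : ℕ → Fin b => kap P (cons d p) B :=
    ((kap P).measurable_coe hB).comp (meas_cons d)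
  refine ae_eq_of_forall_setLIntegral_eq_of_sigmaFinite
    (m1.mul ((kap P).measurable_coe hd)) ((kap P).measurable_coe hB') fun A hA _ => ?_
  -- the left side
  have e1 : ∫⁻ p in A, kap P (cons d p) B * kap P p {g | g 0 = d} ∂(P.map past) =
      ∫⁻ w, (past ⁻¹' A ∩ {w | w 1 = d}).indicator (fun w => kap P (cons d (past w)) B) w ∂P := by
    have h1 := lint P (fun p f => (A ×ˢ {g : ℕ → Fin b | g 0 = d}).indicator
      (fun q => kap P (cons d q.1) B) (p, f)) (by
        have : Measurable fun q : (ℕ → Fin b) × (ℕ → Fin b) => kap P (cons d q.1) B :=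
          m1.comp measurable_fst
        exact this.indicator (hA.prod hd))
    have h2 : ∀ w : ℤ → Fin b, (A ×ˢ {g : ℕ → Fin b | g 0 = d}).indicator
        (fun q => kap P (cons d q.1) B) (past w, fut w) =
        (past ⁻¹' A ∩ {w | w 1 = d}).indicator (fun w => kap P (cons d (past w)) B) w := by
      intro w
      simp only [Set.indicator_apply, Set.mem_prod, Set.mem_ofPred_eq, fut_zero, Set.mem_inter_iff,
        Set.mem_preimage]
    simp only [h2] at h1
    rw [h1, ← lintegral_indicator hA]
    refine lintegral_congr fun p => ?_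
    by_cases hp : p ∈ A
    · rw [Set.indicator_of_mem hp]
      have h3 : ∀ f : ℕ → Fin b, (A ×ˢ {g : ℕ → Fin b | g 0 = d}).indicator
          (fun q => kap P (cons d q.1) B) (p, f) =
          ({g : ℕ → Fin b | g 0 = d}).indicator (fun _ => kap P (cons d p) B) f := by
        intro f
        simp only [Set.indicator_apply, Set.mem_prod, hp, true_and]
      simp only [h3]
      rw [lintegral_indicator_const hd]
    · rw [Set.indicator_of_notMem hp]
      have h3 : ∀ f : ℕ → Fin b, (A ×ˢ {g : ℕ → Fin b | g 0 = d}).indicator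
          (fun q => kap P (cons d q.1) B) (p, f) = 0 := by
        intro f
        simp only [Set.indicator_apply, Set.mem_prod, hp, false_and, if_false]
      simp only [h3, lintegral_zero]
  -- the right side
  have e2 : ∫⁻ p in A, kap P p {g | g 0 = d ∧ tl g ∈ B} ∂(P.map past) =
      P {w | past w ∈ A ∧ w 1 = d ∧ tl (fut w) ∈ B} := by
    rw [← Measure.compProd_apply_prod hA hB', joint,
      Measure.map_apply (meas_past.prodMk meas_fut) (hA.prod hB')]
    rfl
  -- the shifted set
  set A1 : Set (ℕ → Fin b) := {p | p 0 = d ∧ tl p ∈ A} with hA1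
  have hA1m : MeasurableSet A1 := hd.inter (meas_tl hA)
  have hmem : ∀ w : ℤ → Fin b, past (sh 1 w) ∈ A1 ↔ past w ∈ A ∧ w 1 = d := by
    intro w
    rw [past_sh, hA1]
    show (cons (w 1) (past w) 0 = d ∧ tl (cons (w 1) (past w)) ∈ A) ↔ _
    have h1 : tl (cons (w 1) (past w)) = past w := rfl
    have h2 : cons (w 1) (past w) 0 = w 1 := rfl
    rw [h1, h2, and_comm]
  -- the shifted integral
  have e3 : P {w | past w ∈ A ∧ w 1 = d ∧ tl (fut w) ∈ B} = P {w | past w ∈ A1 ∧ fut w ∈ B} := by
    have h1 : MeasurableSet {w : ℤ → Fin b | past w ∈ A1 ∧ fut w ∈ B} :=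
      (meas_past hA1m).inter (meas_fut hB)
    rw [← hP.measure_preimage h1.nullMeasurableSet]
    congr 1
    ext w
    show _ ↔ past (sh 1 w) ∈ A1 ∧ fut (sh 1 w) ∈ B
    rw [hmem, fut_sh]
    show (_ ∧ _ ∧ _) ↔ _
    tauto
  have e4 : P {w | past w ∈ A1 ∧ fut w ∈ B} = ∫⁻ w, (past ⁻¹' A1).indicator
      (fun w => kap P (past w) B) w ∂P := by
    have h1 : P {w | past w ∈ A1 ∧ fut w ∈ B} = (P.map fun w => (past w, fut w)) (A1 ×ˢ B) := by
      rw [Measure.map_apply (meas_past.prodMk meas_fut) (hA1m.prod hB)]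
      rfl
    rw [h1, ← joint, Measure.compProd_apply_prod hA1m hB, ← lintegral_indicator hA1m,
      lintegral_map (((kap P).measurable_coe hB).indicator hA1m) meas_past]
    rfl
  have e5 : ∫⁻ w, (past ⁻¹' A1).indicator (fun w => kap P (past w) B) w ∂P =
      ∫⁻ w, (past ⁻¹' A1).indicator (fun w => kap P (past w) B) (sh 1 w) ∂P := by
    rw [hP.lintegral_comp]
    exact (((kap P).measurable_coe hB).comp meas_past).indicator (meas_past hA1m)
  rw [e1, e2, e3, e4, e5]
  refine lintegral_congr fun w => ?_
  by_cases hw : past w ∈ A ∧ w 1 = d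
  · rw [Set.indicator_of_mem (show w ∈ past ⁻¹' A ∩ {w | w 1 = d} from hw),
      Set.indicator_of_mem (show sh 1 w ∈ past ⁻¹' A1 from (hmem w).2 hw), past_sh, hw.2]
  · rw [Set.indicator_of_notMem (show w ∉ past ⁻¹' A ∩ {w | w 1 = d} from hw),
      Set.indicator_of_notMem (show sh 1 w ∉ past ⁻¹' A1 from fun h => hw ((hmem w).1 h))]

/-- cylinders -/
def cyl (n : ℕ) (w : Fin n → Fin b) : Set (ℕ → Fin b) := {g | ∀ i : Fin n, g i = w i}

theorem meas_cyl (n : ℕ) (w : Fin n → Fin b) : MeasurableSet (cyl n w) := by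
  have : cyl n w = ⋂ i : Fin n, {g | g i = w i} := by
    ext g
    simp [cyl]
  rw [this]
  exact MeasurableSet.iInter fun i =>
    (measurable_pi_apply (X := fun _ : ℕ => Fin b) (i : ℕ)) (measurableSet_singleton (w i))

theorem sing_eq (y : ℕ → Fin b) : {y} = ⋂ n : ℕ, cyl n (fun i : Fin n => y i) := by
  ext g
  simp only [Set.mem_singleton_iff, Set.mem_iInter]
  constructor
  · intro h n i
    rw [h]
  · intro h
    funext i
    exact h (i + 1) ⟨i, Nat.lt_succ_self i⟩

theorem cyl_anti (y : ℕ → Fin b) : Antitone fun n : ℕ => cyl n (fun i : Fin n => y i) := by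
  intro m n hmn g hg i
  exact hg ⟨i, i.2.trans_le hmn⟩

/-- the chain rule -/
theorem chain' (hP : MeasurePreserving (sh (b := b) 1) P P) : ∀ᵐ p ∂(P.map past), ∀ (d : Fin b)
    (y : ℕ → Fin b), kap P (cons d p) {y} * kap P p {g | g 0 = d} = kap P p {cons d y} := by
  have h1 : ∀ᵐ p ∂(P.map past), ∀ (d : Fin b) (n : ℕ) (w : Fin n → Fin b),
      kap P (cons d p) (cyl n w) * kap P p {g | g 0 = d} = kap P p {g | g 0 = d ∧ tl g ∈ cyl n w} := by
    rw [ae_all_iff]
    intro d
    rw [ae_all_iff]
    intro n
    rw [ae_all_iff]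
    intro w
    exact chain P hP d (meas_cyl n w)
  filter_upwards [h1] with p hp d y
  have t1 : Tendsto (fun n : ℕ => kap P (cons d p) (cyl n (fun i : Fin n => y i)) *
      kap P p {g | g 0 = d}) atTop (𝓝 (kap P (cons d p) {y} * kap P p {g | g 0 = d})) := by
    refine ENNReal.Tendsto.mul_const ?_ (Or.inr (measure_ne_top _ _))
    rw [sing_eq y]
    exact tendsto_measure_iInter_atTop (fun n => (meas_cyl n _).nullMeasurableSet) (cyl_anti y)
      ⟨0, measure_ne_top _ _⟩
  have t2 : Tendsto (fun n : ℕ => kap P p {g | g 0 = d ∧ tl g ∈ cyl n (fun i : Fin n => y i)}) atTop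
      (𝓝 (kap P p {cons d y})) := by
    have h2 : ({cons d y} : Set (ℕ → Fin b)) = ⋂ n : ℕ,
        {g | g 0 = d ∧ tl g ∈ cyl n (fun i : Fin n => y i)} := by
      ext g
      simp only [Set.mem_singleton_iff, Set.mem_iInter]
      constructor
      · intro h n
        rw [h]
        exact ⟨rfl, fun i => rfl⟩
      · intro h
        funext i
        cases i with
        | zero => exact (h 0).1
        | succ i => exact (h (i + 1)).2 ⟨i, Nat.lt_succ_self i⟩
    rw [h2]
    refine tendsto_measure_iInter_atTop (fun n => ((meas_d d).inter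
      (meas_tl (meas_cyl n _))).nullMeasurableSet) ?_ ⟨0, measure_ne_top _ _⟩
    intro m n hmn g hg
    exact ⟨hg.1, cyl_anti y hmn hg.2⟩
  have h3 : (fun n : ℕ => kap P (cons d p) (cyl n (fun i : Fin n => y i)) * kap P p {g | g 0 = d}) =
      fun n : ℕ => kap P p {g | g 0 = d ∧ tl g ∈ cyl n (fun i : Fin n => y i)} :=
    funext fun n => hp d n _
  rw [h3] at t1
  exact tendsto_nhds_unique t1 t2

/-- the mass of the future -/
noncomputable def AA (w : ℤ → Fin b) : ENNReal := kap P (past w) {fut w}

theorem meas_kap1 : Measurable fun q : (ℕ → Fin b) × (ℕ → Fin b) => kap P q.1 {q.2} := by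
  have h1 : MeasurableSet {r : ((ℕ → Fin b) × (ℕ → Fin b)) × (ℕ → Fin b) | r.2 = r.1.2} :=
    measurableSet_eq_fun measurable_snd (measurable_snd.comp measurable_fst)
  have h2 := Kernel.measurable_kernel_prodMk_left (κ := (kap P).comap Prod.fst measurable_fst) h1
  exact h2

theorem meas_AA : Measurable (AA P) := (meas_kap1 P).comp (meas_past.prodMk meas_fut)

theorem AA_le (w : ℤ → Fin b) : AA P w ≤ 1 := prob_le_one

/-- the digit which is certain -/
noncomputable def dig (p : ℕ → Fin b) : Fin b := by
  classical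
  exact if h : ∃ d, kap P p {g | g 0 = d} = 1 then h.choose else 0

theorem dig_eq {p : ℕ → Fin b} {d : Fin b} (hd : kap P p {g | g 0 = d} = 1) : dig P p = d := by
  have hex : ∃ d, kap P p {g | g 0 = d} = 1 := ⟨d, hd⟩
  have h1 : dig P p = hex.choose := by
    unfold dig
    rw [dif_pos hex]
  by_contra hne
  have h2 := hex.choose_spec
  rw [← h1] at h2
  have h3 : kap P p ({g | g 0 = dig P p} ∪ {g | g 0 = d}) =
      kap P p {g | g 0 = dig P p} + kap P p {g | g 0 = d} := by
    refine measure_union ?_ (meas_d d)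
    rw [Set.disjoint_left]
    intro g hg hg'
    exact hne (hg.symm.trans hg')
  have h4 : kap P p ({g | g 0 = dig P p} ∪ {g | g 0 = d}) ≤ 1 := prob_le_one
  rw [h3, h2, hd] at h4
  norm_num at h4

theorem meas_dig : Measurable (dig P) := by
  refine measurable_to_countable' fun d => ?_
  have h1 : dig P ⁻¹' {d} = {p | kap P p {g | g 0 = d} = 1} ∪
      {p | d = 0 ∧ ∀ d', kap P p {g | g 0 = d'} ≠ 1} := by
    ext p
    constructor
    · intro hp
      by_cases hex : ∃ d, kap P p {g | g 0 = d} = 1
      · left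
        obtain ⟨d', hd'⟩ := hex
        have h2 := dig_eq P hd'
        have h3 : dig P p = d := hp
        rw [h2] at h3
        rw [← h3]
        exact hd'
      · right
        have h3 : dig P p = d := hp
        have h2 : dig P p = 0 := by
          unfold dig
          rw [dif_neg hex]
        refine ⟨h3.symm.trans h2, fun d' hd' => hex ⟨d', hd'⟩⟩
    · rintro (hp | ⟨h0, hp⟩)
      · exact dig_eq P hp
      · show dig P p = d
        have h2 : dig P p = 0 := by
          unfold dig
          rw [dif_neg fun ⟨d', hd'⟩ => hp d' hd']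
        rw [h2, h0]
  rw [h1]
  have hm : ∀ d : Fin b, MeasurableSet {p | kap P p {g | g 0 = d} = 1} := fun d =>
    ((kap P).measurable_coe (meas_d d)) (measurableSet_singleton 1)
  refine (hm d).union ?_
  by_cases h0 : d = 0
  · have h2 : {p | d = 0 ∧ ∀ d', kap P p {g | g 0 = d'} ≠ 1} =
        ⋂ d', {p | kap P p {g | g 0 = d'} = 1}ᶜ := by
      ext p
      simp [h0]
    rw [h2]
    exact MeasurableSet.iInter fun d' => (hm d').compl
  · have h2 : {p | d = 0 ∧ ∀ d', kap P p {g | g 0 = d'} ≠ 1} = ∅ := by
      ext p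
      simp [h0]
    rw [h2]
    exact MeasurableSet.empty

end kern

end NAS

open NAS in
/-- NA -/
theorem t_NA : S_NA := by
  intro b _ P _ herg hdet
  have hP := herg.toMeasurePreserving
  have hchain := ae_of_ae_map meas_past.aemeasurable (chain' P hP)
  have hc : ∀ᵐ w ∂P, AA P (sh 1 w) * kap P (past w) {g | g 0 = w 1} = AA P w := by
    filter_upwards [hchain] with w hw
    have h1 := hw (w 1) (tl (fut w))
    unfold AA
    rw [past_sh, fut_sh, h1]
    congr 2
    funext i
    cases i with
    | zero => exact (fut_zero w).symm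
    | succ n => rfl
  have hle : AA P ≤ᵐ[P] AA P ∘ sh 1 := by
    filter_upwards [hc] with w hw
    rw [← hw]
    exact mul_le_of_le_one_right zero_le prob_le_one
  have hfin : ∫⁻ w, AA P w ∂P ≠ ⊤ := by
    refine ne_top_of_le_ne_top ENNReal.one_ne_top ?_
    calc ∫⁻ w, AA P w ∂P ≤ ∫⁻ _w, 1 ∂P := lintegral_mono (AA_le P)
      _ = 1 := by simp
  have heq : AA P =ᵐ[P] AA P ∘ sh 1 := by
    refine ae_eq_of_ae_le_of_lintegral_le hle hfin ((meas_AA P).comp (meas_sh 1)).aemeasurable ?_
    exact (hP.lintegral_comp (meas_AA P)).le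
  obtain ⟨c, hcc⟩ := herg.ae_eq_const_of_ae_eq_comp₀ (meas_AA P).nullMeasurable heq.symm
  have hc1 : c ≤ 1 := by
    obtain ⟨w, hw⟩ := hcc.exists
    have h1 := AA_le P w
    rw [hw] at h1
    exact h1
  by_cases h0 : c = 0
  · have h1 : ∀ᵐ q ∂((P.map past) ⊗ₘ kap P), kap P q.1 {q.2} = 0 := by
      rw [joint, ae_map_iff (meas_past.prodMk meas_fut).aemeasurable]
      · filter_upwards [hcc] with w hw
        rw [h0] at hw
        exact hw
      · exact (meas_kap1 P) (measurableSet_singleton 0)
    have hms : MeasurableSet {q : (ℕ → Fin b) × (ℕ → Fin b) | kap P q.1 {q.2} = 0} :=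
      (meas_kap1 P) (measurableSet_singleton 0)
    rw [Measure.ae_compProd_iff hms] at h1
    have h2 := ae_of_ae_map meas_past.aemeasurable h1
    filter_upwards [h2] with w hw y
    by_contra hy
    have h3 : kap P (past w) {f | ¬ kap P (past w) {f} = 0} = 0 := hw
    exact hy (measure_mono_null (Set.singleton_subset_iff.2 hy) h3)
  · exfalso
    refine hdet ⟨dig P, meas_dig P, ?_⟩
    filter_upwards [hcc, heq, hc] with w h1 h2 h3
    have h4 : AA P (sh 1 w) = c := by
      have h5 : AA P w = AA P (sh 1 w) := h2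
      rw [← h5]
      exact h1
    have h5 : AA P w = c := h1
    rw [h4, h5] at h3
    have h6 : kap P (past w) {g | g 0 = w 1} = 1 := by
      have hct : c ≠ ⊤ := ne_top_of_le_ne_top ENNReal.one_ne_top hc1
      have h7 : c * kap P (past w) {g | g 0 = w 1} = c * 1 := by rw [h3, mul_one]
      exact (ENNReal.mul_right_inj h0 hct).1 h7
    exact (dig_eq P h6).symm

end Pool.Agent.T3H29.HR
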