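import Pool.Agent.T3H29.HR.Ext

/-! # Invariant measures of `x ↦ b x` on the circle -/

set_option autoImplicit false

namespace Pool.Agent.T3H29.HR

open MeasureTheory ProbabilityTheory Filter Topology Finset

/-- multiplication by `b` modulo one -/
noncomputable def Tb (b : ℕ) (x : ℝ) : ℝ := Int.fract ((b : ℝ) * x)

/-- the entropy of the partition into `b`-adic intervals of order `n` -/
noncomputable def En (b : ℕ) (μ : Measure ℝ) (n : ℕ) : ℝ :=
  ∑ k ∈ range (b ^ n), Real.negMulLog (μ.real (Set.Ico ((k : ℝ) / (b : ℝ) ^ n) (((k : ℝ) + 1) / (b : ℝ) ^ n)))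

lemma Tb_meas (b : ℕ) : Measurable (Tb b) := measurable_fract.comp (measurable_id.const_mul _)

variable {b : ℕ} [NeZero b]

/-- the digits -/
noncomputable def dg (x : ℝ) : ℕ → Fin b := fun i => Fin.ofNat b ⌊(b : ℝ) * Int.fract ((b : ℝ) ^ i * x)⌋₊

lemma dg_val (x : ℝ) (i : ℕ) : ((dg (b := b) x i : Fin b) : ℕ) = ⌊(b : ℝ) * Int.fract ((b : ℝ) ^ i * x)⌋₊ := by
  have hb : 0 < b := Nat.pos_of_ne_zero (NeZero.ne b)
  have hb0 : (0 : ℝ) < b := by exact_mod_cast hb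
  unfold dg
  rw [Fin.val_ofNat]
  apply Nat.mod_eq_of_lt
  have h1 := Int.fract_nonneg ((b : ℝ) ^ i * x)
  have h2 := Int.fract_lt_one ((b : ℝ) ^ i * x)
  rw [Nat.floor_lt (by positivity)]
  nlinarith

lemma dg_meas : Measurable (dg (b := b)) := by
  refine measurable_pi_lambda _ fun i => ?_
  unfold dg
  have h1 : Measurable fun n : ℕ => Fin.ofNat b n := measurable_from_top
  exact h1.comp (Nat.measurable_floor.comp ((measurable_fract.comp (measurable_id.const_mul _)).const_mul _))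

omit [NeZero b] in
lemma fract_step (x : ℝ) (i : ℕ) : Int.fract ((b : ℝ) ^ i * Int.fract ((b : ℝ) * x)) = Int.fract ((b : ℝ) ^ (i + 1) * x) := by
  have h1 : (b : ℝ) ^ i * Int.fract ((b : ℝ) * x) = (b : ℝ) ^ (i + 1) * x - ((b ^ i * ⌊(b : ℝ) * x⌋ : ℤ) : ℝ) := by
    rw [Int.fract]
    push_cast
    ring
  rw [h1, Int.fract_sub_intCast]

lemma dg_Tb (x : ℝ) : dg (b := b) (Tb b x) = s1 (dg x) := by
  funext i
  unfold s1
  apply Fin.ext
  rw [dg_val, dg_val]
  unfold Tb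
  rw [fract_step]

/-- partial sums of the expansion -/
lemma dg_partial (x : ℝ) (n : ℕ) : ∑ i ∈ range n, (((dg (b := b) x i : Fin b) : ℕ) : ℝ) / (b : ℝ) ^ (i + 1) =
    Int.fract x - Int.fract ((b : ℝ) ^ n * x) / (b : ℝ) ^ n := by
  have hb : 0 < b := Nat.pos_of_ne_zero (NeZero.ne b)
  have hb0 : (0 : ℝ) < b := by exact_mod_cast hb
  induction n with
  | zero => simp
  | succ n ih =>
    rw [sum_range_succ, ih, dg_val]
    have h0 : 0 ≤ (b : ℝ) * Int.fract ((b : ℝ) ^ n * x) := mul_nonneg hb0.le (Int.fract_nonneg _)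
    have h1 : Int.fract ((b : ℝ) ^ (n + 1) * x) = (b : ℝ) * Int.fract ((b : ℝ) ^ n * x) -
        (⌊(b : ℝ) * Int.fract ((b : ℝ) ^ n * x)⌋₊ : ℝ) := by
      have h2 : Int.fract ((b : ℝ) * Int.fract ((b : ℝ) ^ n * x)) = Int.fract ((b : ℝ) ^ (n + 1) * x) := by
        have h3 : (b : ℝ) * Int.fract ((b : ℝ) ^ n * x) = (b : ℝ) ^ (n + 1) * x - ((b * ⌊(b : ℝ) ^ n * x⌋ : ℤ) : ℝ) := by
          rw [Int.fract]
          push_cast
          ring
        rw [h3, Int.fract_sub_intCast]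
      rw [← h2]
      have h4 : (⌊(b : ℝ) * Int.fract ((b : ℝ) ^ n * x)⌋₊ : ℝ) = (⌊(b : ℝ) * Int.fract ((b : ℝ) ^ n * x)⌋ : ℝ) := by
        exact natCast_floor_eq_intCast_floor h0
      rw [h4]
      exact (Int.self_sub_floor _).symm
    rw [h1]
    field_simp
    ring

lemma val_dg (hb : 2 ≤ b) (x : ℝ) : val (dg (b := b) x) = Int.fract x := by
  have hb1 : (1 : ℝ) < b := by exact_mod_cast (by omega : 1 < b)
  have h1 := (summable_val hb (dg (b := b) x)).hasSum.tendsto_sum_nat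
  have h2 : Tendsto (fun n : ℕ => Int.fract x - Int.fract ((b : ℝ) ^ n * x) / (b : ℝ) ^ n) atTop
      (𝓝 (Int.fract x - 0)) := by
    refine tendsto_const_nhds.sub ?_
    refine squeeze_zero (fun n => div_nonneg (Int.fract_nonneg _) (by positivity))
      (g := fun n : ℕ => ((b : ℝ)⁻¹) ^ n) (fun n => ?_) (tendsto_pow_atTop_nhds_zero_of_lt_one (by positivity)
        (inv_lt_one_of_one_lt₀ hb1))
    rw [inv_pow, ← one_div]
    exact div_le_div_of_nonneg_right (Int.fract_lt_one _).le (by positivity)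
  rw [sub_zero] at h2
  simp only [dg_partial] at h1
  exact tendsto_nhds_unique h1 h2

/-- the index of the `b`-adic interval -/
def idx (n : ℕ) : (Fin n → Fin b) ≃ Fin (b ^ n) :=
  (Equiv.arrowCongr Fin.revPerm (Equiv.refl (Fin b))).trans finFunctionFinEquiv

omit [NeZero b] in
lemma idx_val (n : ℕ) (w : Fin n → Fin b) : ((idx n w : Fin (b ^ n)) : ℕ) = ∑ i : Fin n, (w i : ℕ) * b ^ (n - 1 - i : ℕ) := by
  unfold idx
  rw [Equiv.trans_apply, finFunctionFinEquiv_apply]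
  rw [← Equiv.sum_comp Fin.revPerm]
  refine Finset.sum_congr rfl fun i _ => ?_
  simp only [Equiv.arrowCongr_apply, Function.comp, Equiv.refl_apply, Fin.revPerm_symm, Fin.revPerm_apply, Fin.rev_rev,
    Fin.val_rev]
  congr 2
  omega

lemma idx_dg (n : ℕ) (x : ℝ) (hx : x ∈ Set.Ico (0 : ℝ) 1) :
    (((idx n (fun i : Fin n => dg (b := b) x i) : Fin (b ^ n)) : ℕ) : ℝ) / (b : ℝ) ^ n =
      x - Int.fract ((b : ℝ) ^ n * x) / (b : ℝ) ^ n := by
  have hb : 0 < b := Nat.pos_of_ne_zero (NeZero.ne b)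
  have hb0 : (0 : ℝ) < b := by exact_mod_cast hb
  have h1 := dg_partial (b := b) x n
  rw [Int.fract_eq_self.2 hx] at h1
  rw [← h1, idx_val, Finset.sum_range (fun i => (((dg (b := b) x i : Fin b) : ℕ) : ℝ) / (b : ℝ) ^ (i + 1))]
  push_cast
  rw [Finset.sum_div]
  refine Finset.sum_congr rfl fun i _ => ?_
  have h2 : (b : ℝ) ^ n = (b : ℝ) ^ (n - 1 - i : ℕ) * (b : ℝ) ^ ((i : ℕ) + 1) := by
    rw [← pow_add]
    congr 1
    have := i.2
    omega
  rw [h2]
  have h3 : (b : ℝ) ^ (n - 1 - i : ℕ) ≠ 0 := by positivity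
  field_simp

lemma cyl_iff (n : ℕ) (x : ℝ) (hx : x ∈ Set.Ico (0 : ℝ) 1) (w : Fin n → Fin b) :
    (∀ i : Fin n, dg (b := b) x i = w i) ↔
      x ∈ Set.Ico ((((idx n w : Fin (b ^ n)) : ℕ) : ℝ) / (b : ℝ) ^ n) (((((idx n w : Fin (b ^ n)) : ℕ) : ℝ) + 1) / (b : ℝ) ^ n) := by
  have hb : 0 < b := Nat.pos_of_ne_zero (NeZero.ne b)
  have hb0 : (0 : ℝ) < b := by exact_mod_cast hb
  have hbn : (0 : ℝ) < (b : ℝ) ^ n := by positivity
  set k' : ℕ := ((idx n (fun i : Fin n => dg (b := b) x i) : Fin (b ^ n)) : ℕ) with hk'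
  have h1 := idx_dg (b := b) n x hx
  rw [← hk'] at h1
  have hmem : x ∈ Set.Ico ((k' : ℝ) / (b : ℝ) ^ n) (((k' : ℝ) + 1) / (b : ℝ) ^ n) := by
    have h2 := Int.fract_nonneg ((b : ℝ) ^ n * x)
    have h3 := Int.fract_lt_one ((b : ℝ) ^ n * x)
    rw [Set.mem_Ico, add_div, h1]
    constructor
    · have := div_nonneg h2 hbn.le
      linarith
    · have := div_lt_div_of_pos_right h3 hbn
      linarith
  constructor
  · intro h
    have : (fun i : Fin n => dg (b := b) x i) = w := funext h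
    rw [← this, ← hk']
    exact hmem
  · intro h
    set k : ℕ := ((idx n w : Fin (b ^ n)) : ℕ) with hk
    rw [Set.mem_Ico, div_le_iff₀ hbn, lt_div_iff₀ hbn] at h hmem
    have h2 : (k : ℝ) < k' + 1 := by linarith
    have h3 : (k' : ℝ) < k + 1 := by linarith
    have h4 : k < k' + 1 := by exact_mod_cast h2
    have h5 : k' < k + 1 := by exact_mod_cast h3
    have h6 : k = k' := by omega
    have h7 : idx n w = idx n (fun i : Fin n => dg (b := b) x i) := Fin.ext h6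
    have h8 := (idx n).injective h7
    intro i
    rw [h8]

lemma ae_mem (μ : Measure ℝ) [IsProbabilityMeasure μ] (hμ : MeasurePreserving (Tb b) μ μ) :
    ∀ᵐ x ∂μ, x ∈ Set.Ico (0 : ℝ) 1 := by
  have h1 : ∀ᵐ x ∂(μ.map (Tb b)), x ∈ Set.Ico (0 : ℝ) 1 := by
    refine (ae_map_iff (p := fun x => x ∈ Set.Ico (0 : ℝ) 1) (Tb_meas b).aemeasurable measurableSet_Ico).2 ?_
    exact Eventually.of_forall fun x => ⟨Int.fract_nonneg _, Int.fract_lt_one _⟩
  rwa [hμ.map_eq] at h1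

/-- the natural extension of an invariant measure of the circle -/
theorem exists_two_sided (μ : Measure ℝ) [IsProbabilityMeasure μ] (hμ : Ergodic (Tb b) μ) :
    ∃ P : Measure (ℤ → Fin b), ∃ _ : IsProbabilityMeasure P, Ergodic (sh (b := b) 1) P ∧
      P.map fut = μ.map dg ∧ ∀ n, HH P n = En b μ n := by
  have hν : IsProbabilityMeasure (μ.map (dg (b := b))) := Measure.isProbabilityMeasure_map dg_meas.aemeasurable
  have hsemi : Function.Semiconj (dg (b := b)) (Tb b) s1 := fun x => dg_Tb x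
  have hmp : MeasurePreserving (dg (b := b)) μ (μ.map dg) := ⟨dg_meas, rfl⟩
  have herg : Ergodic (s1 (b := b)) (μ.map dg) := hmp.ergodic_of_ergodic_semiconj hμ s1_meas hsemi
  obtain ⟨P, hP, hinv, hfut⟩ := exists_ext (μ.map (dg (b := b))) herg.toMeasurePreserving
  refine ⟨P, hP, ext_ergodic P hinv (by rw [hfut]; exact herg), hfut, fun n => ?_⟩
  unfold HH En
  rw [Finset.sum_range (fun k => Real.negMulLog (μ.real (Set.Ico ((k : ℝ) / (b : ℝ) ^ n) (((k : ℝ) + 1) / (b : ℝ) ^ n)))),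
    ← Equiv.sum_comp (idx n)]
  refine Finset.sum_congr rfl fun w _ => ?_
  congr 1
  have hcyl : MeasurableSet {y : ℕ → Fin b | ∀ i : Fin n, y i = w i} := by
    have : {y : ℕ → Fin b | ∀ i : Fin n, y i = w i} = ⋂ i : Fin n, (fun y => y (i : ℕ)) ⁻¹' {w i} := by
      ext y; simp
    rw [this]
    exact MeasurableSet.iInter fun i => (measurable_pi_apply _) (measurableSet_singleton _)
  have hcyl0 : MeasurableSet {ω : ℤ → Fin b | ∀ i : Fin n, ω ((i : ℕ) : ℤ) = w i} := by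
    have : {ω : ℤ → Fin b | ∀ i : Fin n, ω ((i : ℕ) : ℤ) = w i} = ⋂ i : Fin n, (fun ω => ω ((i : ℕ) : ℤ)) ⁻¹' {w i} := by
      ext y; simp
    rw [this]
    exact MeasurableSet.iInter fun i => (measurable_pi_apply _) (measurableSet_singleton _)
  have h1 : P {ω : ℤ → Fin b | ∀ i : Fin n, ω ((i : ℕ) : ℤ) = w i} = P (sh 1 ⁻¹' {ω | ∀ i : Fin n, ω ((i : ℕ) : ℤ) = w i}) :=
    (hinv.measure_preimage hcyl0.nullMeasurableSet).symm
  have h2 : sh (b := b) 1 ⁻¹' {ω | ∀ i : Fin n, ω ((i : ℕ) : ℤ) = w i} = fut ⁻¹' {y | ∀ i : Fin n, y i = w i} := by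
    ext ω
    rfl
  have h3 : P (fut ⁻¹' {y : ℕ → Fin b | ∀ i : Fin n, y i = w i}) = μ (dg ⁻¹' {y | ∀ i : Fin n, y i = w i}) := by
    rw [← Measure.map_apply fut_meas hcyl, hfut, Measure.map_apply dg_meas hcyl]
  have h4 : μ (dg ⁻¹' {y : ℕ → Fin b | ∀ i : Fin n, y i = w i}) =
      μ (Set.Ico ((((idx n w : Fin (b ^ n)) : ℕ) : ℝ) / (b : ℝ) ^ n) (((((idx n w : Fin (b ^ n)) : ℕ) : ℝ) + 1) / (b : ℝ) ^ n)) := by
    refine measure_congr ?_
    filter_upwards [ae_mem μ hμ.toMeasurePreserving] with x hx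
    exact propext (cyl_iff n x hx w)
  unfold Measure.real
  rw [h1, h2, h3, h4]

end Pool.Agent.T3H29.HR
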