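import Pool.Agent.T3H29.HR.Val

/-! # Assembly -/

set_option autoImplicit false

namespace Pool.Agent.T3H29.HR

open MeasureTheory ProbabilityTheory Filter Topology

section
variable {b : ℕ} [NeZero b] (P : Measure (ℤ → Fin b)) [IsProbabilityMeasure P]

/-- the mean of `Phi` tends to zero -/
lemma mean_tendsto (hNA : S_NA) (hWIE : S_WIE) (hb : 2 ≤ b) (hP : Ergodic (sh (b := b) 1) P)
    (hD : ¬ Det P) :
    Tendsto (fun K : ℕ => ∫ u in (0 : ℝ)..1, ∫ ω, Phi P K ω u ∂P) atTop (𝓝 0) := by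
  have h1 : ∀ K : ℕ, (∫ u in (0 : ℝ)..1, ∫ ω, Phi P K ω u ∂P) =
      ∫ ω, (∫ u in (0 : ℝ)..1, Phi P K ω u) ∂P := by
    intro K
    simp only [intervalIntegral.integral_of_le zero_le_one]
    rw [integral_integral_swap]
    refine Integrable.of_bound (C := 1) ?_ (Eventually.of_forall fun p => ?_)
    · have hm := (Phi_meas P hb K)
      have hsw : Measurable fun p : ℝ × (ℤ → Fin b) => Phi P K p.2 p.1 :=
        hm.comp (measurable_snd.prodMk measurable_fst)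
      exact hsw.aestronglyMeasurable
    · rw [Real.norm_eq_abs, Function.uncurry, abs_of_nonneg (Phi_bounds P K _ _).1]
      exact (Phi_bounds P K _ _).2
  simp only [h1]
  have key : Tendsto (fun K : ℕ => ∫ ω, (∫ u in (0 : ℝ)..1, Phi P K ω u) ∂P) atTop
      (𝓝 (∫ _ω, (0 : ℝ) ∂P)) := ?_
  · simpa using key
  refine tendsto_integral_of_dominated_convergence (fun _ => 1) ?_ (integrable_const 1) ?_ ?_
  · intro K
    have hm : StronglyMeasurable (Function.uncurry (Phi P K)) := (Phi_meas P hb K).stronglyMeasurable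
    simp only [intervalIntegral.integral_of_le zero_le_one]
    exact (hm.integral_prod_right).aestronglyMeasurable
  · intro K
    refine Eventually.of_forall fun ω => ?_
    refine (intervalIntegral.norm_integral_le_of_norm_le_const (C := 1) ?_).trans (by simp)
    intro u _
    rw [Real.norm_eq_abs, abs_of_nonneg (Phi_bounds P K _ _).1]
    exact (Phi_bounds P K _ _).2
  · filter_upwards [hNA b P hP hD] with ω hω
    exact hWIE b hb (condDistrib (fut (b := b)) (past (b := b)) P (past ω)) hω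

/-- the linear sums -/
theorem linear (hNA : S_NA) (hERG : S_ERG) (hLLN : S_LLN) (hWIE : S_WIE) (hb : 2 ≤ b)
    (hP : Ergodic (sh (b := b) 1) P) (hD : ¬ Det P) (β : ℝ) (hβ : 1 < β)
    (hirr : Irrational (Real.logb b β)) (t : ℝ) (ht : t ≠ 0) :
    ∀ᵐ ω ∂P, Tendsto (fun N : ℕ => ‖∑ n ∈ Finset.range N, e (t * β ^ n * val (fut ω))‖ / N) atTop (𝓝 0) := by
  have hmp := hP.toMeasurePreserving
  set I : ℕ → ℝ := fun K => ∫ u in (0 : ℝ)..1, ∫ ω, Phi P K ω u ∂P with hI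
  have hI0 : Tendsto I atTop (𝓝 0) := mean_tendsto P hNA hWIE hb hP hD
  have key : ∀ ε : ℝ, 0 < ε → P {ω | ∃ᶠ N : ℕ in atTop,
      2 * ε < ‖∑ n ∈ Finset.range N, e (t * β ^ n * val (fut ω))‖ / N} = 0 := by
    intro ε hε
    have hle : ∀ K : ℕ, P {ω | ∃ᶠ N : ℕ in atTop,
        2 * ε < ‖∑ n ∈ Finset.range N, e (t * β ^ n * val (fut ω))‖ / N} ≤ ENNReal.ofReal (4 / ε * I K) := by
      intro K
      obtain ⟨C, hC⟩ := Phi_lip P hb K
      refine le_trans (measure_mono_ae ?_) (hERG b P hmp (Real.logb b β) hirr (Phi P K) (Phi_meas P hb K)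
        (Phi_bounds P K) ⟨C, hC⟩ K (Real.logb b |t|) ε hε)
      filter_upwards [hLLN b hb P hmp β t hβ ht K] with ω hω hfr
      have h1 := hω ε hε
      refine (hfr.and_eventually (h1.and (eventually_gt_atTop 0))).mono ?_
      rintro N ⟨h2, h3, h4⟩
      have hN : (0 : ℝ) < N := by exact_mod_cast h4
      rw [lt_div_iff₀ hN] at h2 ⊢
      linarith
    have hlim : Tendsto (fun K : ℕ => ENNReal.ofReal (4 / ε * I K)) atTop (𝓝 0) := by
      have h1 : Tendsto (fun K : ℕ => 4 / ε * I K) atTop (𝓝 (4 / ε * 0)) := hI0.const_mul _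
      rw [mul_zero] at h1
      have h2 := ENNReal.tendsto_ofReal h1
      simpa using h2
    exact le_antisymm (ge_of_tendsto' hlim hle) bot_le
  have hall : ∀ᵐ ω ∂P, ∀ j : ℕ, ¬ ∃ᶠ N : ℕ in atTop,
      2 * (1 / ((j : ℝ) + 1)) < ‖∑ n ∈ Finset.range N, e (t * β ^ n * val (fut ω))‖ / N := by
    rw [ae_all_iff]
    intro j
    have := key (1 / ((j : ℝ) + 1)) (by positivity)
    rw [ae_iff]
    simp only [not_not]
    exact this
  filter_upwards [hall] with ω hω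
  rw [Metric.tendsto_atTop']
  intro ε hε
  obtain ⟨j, hj⟩ := exists_nat_one_div_lt (half_pos hε)
  have h1 := hω j
  rw [not_frequently, eventually_atTop] at h1
  obtain ⟨N0, hN0⟩ := h1
  refine ⟨N0, fun N hN => ?_⟩
  have h2 := hN0 N hN.le
  rw [not_lt] at h2
  rw [Real.dist_eq, sub_zero, abs_of_nonneg (by positivity)]
  linarith

/-- the smallest set of multipliers which is closed under the operations of `S_VDC` -/
def TS (β t₀ : ℝ) : Set ℝ :=
  Set.range fun p : {h : ℤ // h ≠ 0} × List ℕ => (p.1 : ℝ) * (t₀ * (p.2.map fun d => β ^ (d + 1) - 1).prod)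

theorem final_core (hNA : S_NA) (hERG : S_ERG) (hLLN : S_LLN) (hWIE : S_WIE) (hVDC : S_VDC) (hb : 2 ≤ b)
    (hP : Ergodic (sh (b := b) 1) P) (hD : ¬ Det P) (β : ℝ) (hβ : 1 < β)
    (hirr : Irrational (Real.logb b β)) (t₀ : ℝ) (ht₀ : t₀ ≠ 0) :
    ∀ᵐ ω ∂P, ∀ Q : Polynomial ℝ, Equi (fun n => t₀ * β ^ n * val (fut ω) + Q.eval (n : ℝ)) := by
  have hcount : (TS β t₀).Countable := Set.countable_range _
  have hne : ∀ t ∈ TS β t₀, t ≠ 0 := by
    rintro _ ⟨⟨⟨h, hh⟩, L⟩, rfl⟩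
    have h1 : ((h : ℤ) : ℝ) ≠ 0 := by exact_mod_cast hh
    refine mul_ne_zero h1 (mul_ne_zero ht₀ ?_)
    intro h0
    rw [List.prod_eq_zero_iff, List.mem_map] at h0
    obtain ⟨d, _, hd⟩ := h0
    have : 1 < β ^ (d + 1) := one_lt_pow₀ hβ (by omega)
    linarith
  have hall : ∀ᵐ ω ∂P, ∀ t ∈ TS β t₀,
      Tendsto (fun N : ℕ => ‖∑ n ∈ Finset.range N, e (t * β ^ n * val (fut ω))‖ / N) atTop (𝓝 0) := by
    rw [ae_ball_iff hcount]
    intro t ht
    exact linear P hNA hERG hLLN hWIE hb hP hD β hβ hirr t (hne t ht)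
  filter_upwards [hall] with ω hω Q
  refine hVDC β (val (fut ω)) hβ (TS β t₀) ?_ ?_ hω t₀ ?_ Q
  · rintro _ ⟨⟨⟨h, hh⟩, L⟩, rfl⟩ h' hh'
    refine ⟨⟨⟨h' * h, mul_ne_zero hh' hh⟩, L⟩, ?_⟩
    simp only
    push_cast
    ring
  · rintro _ ⟨⟨⟨h, hh⟩, L⟩, rfl⟩ d hd
    obtain ⟨d', rfl⟩ : ∃ d', d = d' + 1 := ⟨d - 1, by omega⟩
    refine ⟨⟨⟨h, hh⟩, d' :: L⟩, ?_⟩
    simp only [List.map_cons, List.prod_cons]
    ring
  · exact ⟨⟨⟨1, one_ne_zero⟩, []⟩, by simp⟩

end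

end Pool.Agent.T3H29.HR
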