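import Pool.Agent.T3H29.HR.Stm
import Pool.Agent.H137R2.PFR.Basic

/-! Task ENT of project HR. -/

set_option autoImplicit false

namespace Pool.Agent.T3H29.HR

open MeasureTheory Filter Topology

open scoped symmDiff ENNReal Classical

set_option linter.unusedSectionVars false

namespace EntAux

/-- approximation of a measurable function by a function of finitely many digits -/
lemma approx {b : ℕ} [NeZero b] (Q : Measure (ℕ → Fin b)) [IsFiniteMeasure Q]
    (g : (ℕ → Fin b) → Fin b) (hg : Measurable g) (η : ℝ≥0∞) (hη : 0 < η) :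
    ∃ (m : ℕ) (G : (Fin m → Fin b) → Fin b), Q {y | g y ≠ G (fun i => y i)} ≤ η := by
  have h1 : ∀ d : Fin b, ∃ t ∈ measurableCylinders (fun _ : ℕ => Fin b),
      Q (t ∆ (g ⁻¹' {d})) < η / b := by
    intro d
    refine exists_measure_symmDiff_lt_of_generateFrom_isSetRing isSetRing_measurableCylinders ?_
      generateFrom_measurableCylinders.symm (hg (measurableSet_singleton d))
      (ENNReal.div_pos hη.ne' (ENNReal.natCast_ne_top b))
    exact ⟨{Set.univ}, Set.countable_singleton _,
      Set.singleton_subset_iff.2 (univ_mem_measurableCylinders _), by simp⟩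
  choose t ht hQt using h1
  have h2 : ∀ d, ∃ (s : Finset ℕ) (S : Set (∀ _ : s, Fin b)), t d = cylinder s S := by
    intro d
    obtain ⟨s, S, _, h⟩ := (mem_measurableCylinders _).1 (ht d)
    exact ⟨s, S, h⟩
  choose s S hs using h2
  obtain ⟨m, hm⟩ : ∃ m : ℕ, ∀ d, ∀ i ∈ s d, i < m := by
    refine ⟨(Finset.univ.biUnion s).sup id + 1, fun d i hi => ?_⟩
    have : i ∈ Finset.univ.biUnion s := Finset.mem_biUnion.2 ⟨d, Finset.mem_univ _, hi⟩
    exact Nat.lt_succ_of_le (Finset.le_sup (f := id) this)
  let ex : (Fin m → Fin b) → (ℕ → Fin b) := fun v i => if h : i < m then v ⟨i, h⟩ else 0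
  have hex : ∀ (d : Fin b) (y : ℕ → Fin b), ex (fun i => y i) ∈ t d ↔ y ∈ t d := by
    intro d y
    rw [hs d, mem_cylinder, mem_cylinder]
    have : (s d).restrict (ex fun i => y i) = (s d).restrict y := by
      funext i
      simp only [Finset.restrict, ex]
      rw [dif_pos (hm d i i.2)]
    rw [this]
  let G : (Fin m → Fin b) → Fin b := fun v => if h : ∃ d, ex v ∈ t d then h.choose else 0
  refine ⟨m, G, ?_⟩
  have hsub : {y | g y ≠ G (fun i => y i)} ⊆ ⋃ d ∈ (Finset.univ : Finset (Fin b)),
      (t d) ∆ (g ⁻¹' {d}) := by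
    intro y hy
    by_contra hcon
    simp only [Finset.mem_univ, Set.iUnion_true, Set.mem_iUnion, not_exists] at hcon
    have h3 : ∀ d, y ∈ t d ↔ g y = d := by
      intro d
      have h4 := hcon d
      rw [Set.mem_symmDiff] at h4
      simp only [Set.mem_preimage, Set.mem_singleton_iff] at h4
      tauto
    apply hy
    have h5 : ∃ d, ex (fun i => y i) ∈ t d := ⟨g y, (hex _ _).2 ((h3 _).2 rfl)⟩
    have h6 := h5.choose_spec
    rw [hex, h3] at h6
    show g y = if h : ∃ d, ex (fun i => y i) ∈ t d then h.choose else 0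
    rw [dif_pos h5]
    exact h6
  refine (measure_mono hsub).trans ((measure_biUnion_finset_le _ _).trans ?_)
  calc ∑ d : Fin b, Q ((t d) ∆ (g ⁻¹' {d})) ≤ ∑ _d : Fin b, η / b :=
        Finset.sum_le_sum fun d _ => (hQt d).le
    _ = b * (η / b) := by simp
    _ ≤ η := ENNReal.mul_div_le

lemma exists_delta (c : ℝ) (hc : 0 < c) : ∃ η : ℝ, 0 < η ∧ ∀ x, 0 ≤ x → x ≤ η →
    Real.negMulLog x ≤ c ∧ Real.negMulLog (1 - x) ≤ c := by
  have h1 : Tendsto Real.negMulLog (𝓝 0) (𝓝 0) := by
    have := Real.continuous_negMulLog.tendsto 0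
    simpa using this
  have h2 : Tendsto (fun x => Real.negMulLog (1 - x)) (𝓝 0) (𝓝 0) := by
    have : Tendsto (fun x => Real.negMulLog (1 - x)) (𝓝 0) (𝓝 (Real.negMulLog (1 - 0))) :=
      (Real.continuous_negMulLog.comp (continuous_const.sub continuous_id)).tendsto 0
    simpa using this
  have h3 := (h1.eventually (gt_mem_nhds hc)).and (h2.eventually (gt_mem_nhds hc))
  obtain ⟨η, hη, h4⟩ := Metric.eventually_nhds_iff.1 h3
  refine ⟨η / 2, by positivity, fun x hx hx' => ?_⟩
  have h5 := h4 (y := x) (by rw [Real.dist_eq, sub_zero, abs_of_nonneg hx]; linarith)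
  exact ⟨h5.1.le, h5.2.le⟩

/-- subadditivity for families -/
lemma H_family {Ω β : Type} [Fintype Ω] [Fintype β] {w : Ω → ℝ} (hw : H137.PFR.Law w)
    (Y : ℕ → Ω → β) (k : ℕ) :
    H137.PFR.H w (fun v => fun i : Fin k => Y i v) ≤ ∑ i ∈ Finset.range k, H137.PFR.H w (Y i) := by
  induction k with
  | zero =>
    simp only [Finset.range_zero, Finset.sum_empty]
    have h1 := H137.PFR.H_comp_le hw (fun _ => ()) (fun _ => (fun i : Fin 0 => i.elim0 : Fin 0 → β))
    rw [H137.PFR.H_unit hw] at h1
    refine le_trans (le_of_eq ?_) h1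
    congr 1
    funext v i
    exact i.elim0
  | succ k ih =>
    rw [Finset.sum_range_succ]
    have h1 := H137.PFR.H_subadd hw (fun v => fun i : Fin k => Y i v) (Y k)
    have h2 := H137.PFR.H_comp_le hw (fun v => ((fun i : Fin k => Y i v), Y k v))
      (fun p : (Fin k → β) × β => (Fin.snoc p.1 p.2 : Fin (k + 1) → β))
    have h3 : (fun v => (Fin.snoc (fun i : Fin k => Y i v) (Y k v) : Fin (k + 1) → β)) =
        fun v => fun i : Fin (k + 1) => Y i v := by
      funext v i
      refine Fin.lastCases ?_ (fun i => ?_) i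
      · simp
      · simp
    simp only at h2
    rw [h3] at h2
    linarith

section

variable {b : ℕ} [NeZero b] (P : Measure (ℤ → Fin b)) [IsProbabilityMeasure P]

/-- the first `n` digits -/
def rr (n : ℕ) (ω : ℤ → Fin b) : Fin n → Fin b := fun i => ω ((i : ℕ) : ℤ)

lemma measurable_rr (n : ℕ) : Measurable (rr (b := b) n) :=
  measurable_pi_iff.2 fun _ => measurable_pi_apply _

/-- the law of the first `n` digits -/
noncomputable def ww (n : ℕ) (v : Fin n → Fin b) : ℝ :=
  P.real {ω | ∀ i : Fin n, ω ((i : ℕ) : ℤ) = v i}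

lemma ww_eq (n : ℕ) (v : Fin n → Fin b) : ww P n v = P.real (rr n ⁻¹' {v}) := by
  unfold ww
  congr 1
  ext ω
  simp [rr, funext_iff]

lemma push_ww (n : ℕ) {α : Type} (X : (Fin n → Fin b) → α) (a : α) :
    H137.PFR.push (ww P n) X a = P.real {ω | X (rr n ω) = a} := by
  unfold H137.PFR.push
  rw [← Finset.sum_filter]
  simp only [ww_eq]
  rw [sum_measureReal_preimage_singleton _ fun y _ => measurable_rr n (measurableSet_singleton y)]
  congr 1
  ext ω
  simp

lemma law_ww (n : ℕ) : H137.PFR.Law (ww P n) := by
  refine ⟨fun v => measureReal_nonneg, ?_⟩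
  simp only [ww_eq]
  rw [sum_measureReal_preimage_singleton _ fun y _ => measurable_rr n (measurableSet_singleton y)]
  simp

lemma HH_eq (n : ℕ) : HH P n = H137.PFR.H (ww P n) (fun v => v) := by
  unfold HH H137.PFR.H H137.PFR.ent
  refine Finset.sum_congr rfl fun v _ => ?_
  congr 1
  unfold H137.PFR.push
  rw [Finset.sum_eq_single v]
  · rw [if_pos rfl]; rfl
  · intro v' _ hv'
    rw [if_neg hv']
  · intro h; exact absurd (Finset.mem_univ _) h

end

end EntAux

open EntAux

/-- task ENT -/
theorem t_ENT : S_ENT := by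
  intro b _ P _ hP c hc hH hdet
  obtain ⟨g, hg, hgω⟩ := hdet
  -- the constants
  have hb0 : (0 : ℝ) < b + 1 := by positivity
  obtain ⟨η, hη, hηx⟩ := exists_delta (c / (2 * (b + 1))) (by positivity)
  have hpast : Measurable (past (b := b)) := measurable_pi_iff.2 fun i => measurable_pi_apply _
  have : IsFiniteMeasure (P.map (past (b := b))) := by infer_instance
  obtain ⟨m, G, hG⟩ := approx (P.map (past (b := b))) g hg (ENNReal.ofReal η)
    (ENNReal.ofReal_pos.2 hη)
  have hGm : Measurable G := measurable_of_finite G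
  have hmr : Measurable fun y : ℕ → Fin b => (fun i : Fin m => y i) :=
    measurable_pi_iff.2 fun i => measurable_pi_apply _
  -- the exceptional sets
  have hE1 : P {ω | ω 1 ≠ G (fun i : Fin m => ω (-((i : ℕ) : ℤ)))} ≤ ENNReal.ofReal η := by
    have h1 : MeasurableSet {y : ℕ → Fin b | g y ≠ G (fun i => y i)} :=
      (measurableSet_eq_fun hg (hGm.comp hmr)).compl
    rw [Measure.map_apply hpast h1] at hG
    refine le_trans (measure_mono_ae ?_) hG
    filter_upwards [hgω] with ω hω h2
    show g (past ω) ≠ G (fun i => past ω i)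
    rw [← hω]
    exact h2
  have hmk : ∀ k : ℕ, MeasurePreserving (sh (b := b) k) P P := by
    intro k
    have h1 : sh (b := b) k = (sh (b := b) 1)^[k] := by
      induction k with
      | zero => funext ω i; simp [sh]
      | succ k ih =>
        rw [Function.iterate_succ', ← ih]
        funext ω i
        simp only [sh, Function.comp_apply]
        congr 1
        push_cast
        ring
    rw [h1]
    exact hP.iterate k
  have hEj : ∀ j : ℕ, 1 ≤ j →
      P.real {ω | ω (j : ℤ) ≠ G (fun i : Fin m => ω ((j : ℤ) - 1 - ((i : ℕ) : ℤ)))} ≤ η := by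
    intro j hj
    obtain ⟨k, rfl⟩ : ∃ k, j = k + 1 := ⟨j - 1, by omega⟩
    have h1 : {ω : ℤ → Fin b | ω ((k + 1 : ℕ) : ℤ) ≠
        G (fun i : Fin m => ω (((k + 1 : ℕ) : ℤ) - 1 - ((i : ℕ) : ℤ)))} =
        sh (b := b) k ⁻¹' {ω | ω 1 ≠ G (fun i : Fin m => ω (-((i : ℕ) : ℤ)))} := by
      ext ω
      simp only [Set.mem_ofPred_eq, Set.mem_preimage, sh]
      have e1 : (1 : ℤ) + (k : ℤ) = ((k + 1 : ℕ) : ℤ) := by push_cast; ring
      have e2 : ∀ i : Fin m, -((i : ℕ) : ℤ) + (k : ℤ) = ((k + 1 : ℕ) : ℤ) - 1 - ((i : ℕ) : ℤ) := by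
        intro i; push_cast; ring
      simp only [e1, e2]
    have hms : MeasurableSet {ω : ℤ → Fin b | ω 1 ≠ G (fun i : Fin m => ω (-((i : ℕ) : ℤ)))} := by
      have hm1 : Measurable fun ω : ℤ → Fin b => ω 1 := measurable_pi_apply (1 : ℤ)
      have hm2 : Measurable fun ω : ℤ → Fin b => (fun i : Fin m => ω (-((i : ℕ) : ℤ))) :=
        measurable_pi_iff.2 fun i => measurable_pi_apply (-((i : ℕ) : ℤ))
      exact (measurableSet_eq_fun hm1 (hGm.comp hm2)).compl
    rw [h1, measureReal_def, (hmk k).measure_preimage hms.nullMeasurableSet]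
    exact ENNReal.toReal_le_of_le_ofReal hη.le hE1
  -- the bound for `HH`
  have hbound : ∀ n : ℕ, HH P n ≤ (m + 1) * (b + 1) + n * (c / 2) := by
    intro n
    set w := ww P n with hw
    have hlaw : H137.PFR.Law w := law_ww P n
    let vx : (Fin n → Fin b) → ℤ → Fin b := fun v j =>
      if h : 0 ≤ j ∧ j < n then v ⟨j.toNat, by omega⟩ else 0
    have hvx : ∀ (v : Fin n → Fin b) (i : Fin n), vx v ((i : ℕ) : ℤ) = v i := by
      intro v i
      simp only [vx]
      rw [dif_pos ⟨by omega, by exact_mod_cast i.2⟩]
      congr 1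
    let Y : ℕ → (Fin n → Fin b) → Option (Fin b) := fun j v =>
      if j < m then some (vx v j)
      else if vx v j = G (fun i : Fin m => vx v ((j : ℤ) - 1 - ((i : ℕ) : ℤ))) then none
      else some (vx v j)
    have hinj : Function.Injective fun (v : Fin n → Fin b) => fun i : Fin n => Y i v := by
      intro v v' hvv
      have key : ∀ j : ℕ, ∀ hj : j < n, v ⟨j, hj⟩ = v' ⟨j, hj⟩ := by
        intro j
        induction j using Nat.strong_induction_on with
        | _ j ih =>
          intro hj
          have h1 : Y j v = Y j v' := congrFun hvv ⟨j, hj⟩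
          simp only [Y] at h1
          have e1 : vx v j = v ⟨j, hj⟩ := hvx v ⟨j, hj⟩
          have e2 : vx v' j = v' ⟨j, hj⟩ := hvx v' ⟨j, hj⟩
          by_cases hjm : j < m
          · rw [if_pos hjm, if_pos hjm, e1, e2] at h1
            exact Option.some.inj h1
          · rw [if_neg hjm, if_neg hjm] at h1
            have e3 : (fun i : Fin m => vx v ((j : ℤ) - 1 - ((i : ℕ) : ℤ))) =
                fun i : Fin m => vx v' ((j : ℤ) - 1 - ((i : ℕ) : ℤ)) := by
              funext i
              have hi := i.2
              have e4 : (j : ℤ) - 1 - ((i : ℕ) : ℤ) = ((j - 1 - i : ℕ) : ℤ) := by omega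
              rw [e4]
              have hlt : j - 1 - (i : ℕ) < n := by omega
              have e5 := hvx v ⟨j - 1 - i, hlt⟩
              have e6 := hvx v' ⟨j - 1 - i, hlt⟩
              simp only at e5 e6
              rw [e5, e6]
              exact ih _ (by omega) hlt
            rw [e3, e1, e2] at h1
            by_cases h2 : v ⟨j, hj⟩ = G fun i : Fin m => vx v' ((j : ℤ) - 1 - ((i : ℕ) : ℤ))
            · by_cases h3 : v' ⟨j, hj⟩ = G fun i : Fin m => vx v' ((j : ℤ) - 1 - ((i : ℕ) : ℤ))
              · rw [h2, h3]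
              · rw [if_pos h2, if_neg h3] at h1
                exact absurd h1 (by simp)
            · by_cases h3 : v' ⟨j, hj⟩ = G fun i : Fin m => vx v' ((j : ℤ) - 1 - ((i : ℕ) : ℤ))
              · rw [if_neg h2, if_pos h3] at h1
                exact absurd h1 (by simp)
              · rw [if_neg h2, if_neg h3] at h1
                exact Option.some.inj h1
      funext i
      exact key i i.2
    -- entropy of the whole
    have h1 : HH P n ≤ ∑ i ∈ Finset.range n, H137.PFR.H w (Y i) := by
      rw [HH_eq]
      refine le_trans ?_ (H_family hlaw Y n)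
      have h2 := H137.PFR.H_comp_le hlaw (fun v => fun i : Fin n => Y i v)
        (Function.invFun fun (v : Fin n → Fin b) => fun i : Fin n => Y i v)
      have h3 : (fun v => Function.invFun (fun (v : Fin n → Fin b) => fun i : Fin n => Y i v)
          (fun i : Fin n => Y i v)) = fun v => v := by
        funext v
        exact Function.leftInverse_invFun hinj v
      rw [h3] at h2
      exact h2
    -- the crude bound
    have hpl := fun (j : ℕ) => H137.PFR.law_push hlaw (Y j)
    have hcrude : ∀ j, H137.PFR.H w (Y j) ≤ b + 1 := by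
      intro j
      unfold H137.PFR.H H137.PFR.ent
      calc ∑ a, Real.negMulLog (H137.PFR.push w (Y j) a) ≤ ∑ _a : Option (Fin b), (1 : ℝ) := by
            refine Finset.sum_le_sum fun a _ => ?_
            have h0 := (hpl j).1 a
            have := Real.negMulLog_le_one_sub_self h0
            linarith
        _ = b + 1 := by simp
    have hfine : ∀ j, m ≤ j → j < n → 1 ≤ j → H137.PFR.H w (Y j) ≤ c / 2 := by
      intro j hmj hjn hj1
      set x : ℝ := ∑ d : Fin b, H137.PFR.push w (Y j) (some d) with hx
      have hx0 : 0 ≤ x := Finset.sum_nonneg fun d _ => (hpl j).1 _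
      have hnone : H137.PFR.push w (Y j) none = 1 - x := by
        have := (hpl j).2
        rw [Fintype.sum_option] at this
        linarith
      have hxη : x ≤ η := by
        have h2 : 1 - x = P.real {ω | Y j (rr n ω) = none} := by rw [← hnone, hw, push_ww]
        have h3 : {ω : ℤ → Fin b | Y j (rr n ω) = none}ᶜ ⊆
            {ω | ω (j : ℤ) ≠ G (fun i : Fin m => ω ((j : ℤ) - 1 - ((i : ℕ) : ℤ)))} := by
          intro ω hω
          simp only [Set.mem_compl_iff, Set.mem_ofPred_eq] at hω ⊢
          intro h4
          apply hω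
          simp only [Y]
          rw [if_neg (by omega)]
          have hv : ∀ k : ℕ, k < n → vx (rr n ω) (k : ℤ) = ω k := by
            intro k hk
            have := hvx (rr n ω) ⟨k, hk⟩
            simpa [rr] using this
          rw [if_pos]
          rw [hv j hjn, h4]
          congr 1
          funext i
          have hi := i.2
          have e4 : (j : ℤ) - 1 - ((i : ℕ) : ℤ) = ((j - 1 - i : ℕ) : ℤ) := by omega
          rw [e4, hv _ (by omega)]
        have h5 : P.real {ω : ℤ → Fin b | Y j (rr n ω) = none}ᶜ ≤ η :=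
          (measureReal_mono h3).trans (hEj j hj1)
        have hmeas : MeasurableSet {ω : ℤ → Fin b | Y j (rr n ω) = none} :=
          (measurable_rr n) (Set.toFinite {v : Fin n → Fin b | Y j v = none}).measurableSet
        rw [measureReal_compl hmeas] at h5
        simp only [probReal_univ] at h5
        linarith
      unfold H137.PFR.H H137.PFR.ent
      rw [Fintype.sum_option, hnone]
      have h6 : ∑ d : Fin b, Real.negMulLog (H137.PFR.push w (Y j) (some d)) ≤
          ∑ _d : Fin b, c / (2 * (b + 1)) := by
        refine Finset.sum_le_sum fun d _ => ?_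
        refine (hηx _ ((hpl j).1 _) ?_).1
        refine le_trans ?_ hxη
        exact Finset.single_le_sum (f := fun d => H137.PFR.push w (Y j) (some d))
          (fun d _ => (hpl j).1 _) (Finset.mem_univ d)
      have h7 := (hηx x hx0 hxη).2
      rw [Finset.sum_const, Finset.card_univ, Fintype.card_fin, nsmul_eq_mul] at h6
      calc _ ≤ c / (2 * (b + 1)) + b * (c / (2 * (b + 1))) := add_le_add h7 h6
        _ = c / 2 := by field_simp; ring
    refine h1.trans ?_
    calc ∑ i ∈ Finset.range n, H137.PFR.H w (Y i) ≤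
        ∑ i ∈ Finset.range n, ((if i < m + 1 then ((b : ℝ) + 1) else 0) + c / 2) := by
          refine Finset.sum_le_sum fun i hi => ?_
          have hin := Finset.mem_range.1 hi
          by_cases h : i < m + 1
          · rw [if_pos h]
            have : 0 < c / 2 := by positivity
            linarith [hcrude i]
          · rw [if_neg h, zero_add]
            exact hfine i (by omega) hin (by omega)
      _ ≤ (m + 1) * (b + 1) + n * (c / 2) := by
          rw [Finset.sum_add_distrib, ← Finset.sum_filter, Finset.sum_const, Finset.sum_const,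
            Finset.card_range, nsmul_eq_mul, nsmul_eq_mul]
          gcongr
          have h8 : ((Finset.range n).filter (fun i => i < m + 1)).card ≤ m + 1 := by
            calc ((Finset.range n).filter (fun i => i < m + 1)).card ≤ (Finset.range (m + 1)).card := by
                  refine Finset.card_le_card fun i hi => ?_
                  exact Finset.mem_range.2 (Finset.mem_filter.1 hi).2
              _ = m + 1 := Finset.card_range _
          exact_mod_cast h8
  -- contradiction
  obtain ⟨n, hn⟩ := exists_nat_gt (2 * ((m + 1) * (b + 1) : ℝ) / c)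
  have h1 := hH n
  have h2 := hbound n
  rw [div_lt_iff₀ hc] at hn
  nlinarith

end Pool.Agent.T3H29.HR
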