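import Pool.Agent.T3H29.HR.Stm
import Pool.Agent.R243.Erg.Max
import Pool.Agent.K1H30.SP.Per
import Pool.Agent.H534R3.UD

/-! Task ERG of project HR. -/

set_option autoImplicit false
set_option linter.unusedSectionVars false

namespace Pool.Agent.T3H29.HR

open MeasureTheory Filter Topology

namespace ErgAux

open Pool.Agent.K1H30.SP (U U_shift integral_U U_ae)
open Pool.Agent.H534R3.UDist (UD ee Weyl ud_of_weyl norm_ee)

lemma ee_add (x y : ℝ) : ee (x + y) = ee x * ee y := by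
  unfold ee
  rw [← Complex.exp_add]
  congr 1
  push_cast
  ring

lemma ee_nat_mul (n : ℕ) (x : ℝ) : ee (n * x) = ee x ^ n := by
  unfold ee
  rw [← Complex.exp_nat_mul]
  congr 1
  push_cast
  ring

/-- equidistribution of irrational rotations -/
lemma ud_rot (θ s : ℝ) (hθ : Irrational θ) : UD (fun n : ℕ => n * θ + s) := by
  refine ud_of_weyl _ fun h hh => ?_
  have hne : ee (h * θ) ≠ 1 := by
    intro h1
    unfold ee at h1
    rw [Complex.exp_eq_one_iff] at h1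
    obtain ⟨k, hk⟩ := h1
    have hpi : (2 * Real.pi * Complex.I : ℂ) ≠ 0 := Complex.two_pi_I_ne_zero
    have h2 : ((h * θ : ℝ) : ℂ) = k := by
      apply mul_left_cancel₀ hpi
      rw [hk]; ring
    have h3 : (h : ℝ) * θ = k := by exact_mod_cast h2
    have h4 : Irrational ((h : ℝ) * θ) := hθ.natCast_mul (by omega)
    rw [h3] at h4
    exact h4 ⟨k, by simp⟩
  have hsum : ∀ N : ℕ, ‖∑ n ∈ Finset.range N, ee (h * ((n : ℝ) * θ + s))‖ ≤
      2 / ‖ee (h * θ) - 1‖ := by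
    intro N
    have h1 : ∀ n : ℕ, ee (h * ((n : ℝ) * θ + s)) = ee (h * s) * ee (h * θ) ^ n := by
      intro n
      rw [← ee_nat_mul, ← ee_add]
      congr 1; ring
    simp only [h1]
    rw [← Finset.mul_sum, norm_mul, norm_ee, one_mul, geom_sum_eq hne, norm_div]
    gcongr
    refine (norm_sub_le _ _).trans ?_
    rw [norm_pow, norm_ee, norm_one, one_pow]
    norm_num
  have h5 : Tendsto (fun N : ℕ => (2 / ‖ee (h * θ) - 1‖) / (N : ℝ)) atTop (𝓝 0) :=
    tendsto_const_div_atTop_nhds_zero_nat _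
  refine squeeze_zero (fun N => by positivity) (fun N => ?_) h5
  exact div_le_div_of_nonneg_right (hsum N) (Nat.cast_nonneg N)

/-- `x` is close to an integer -/
def near (δ x : ℝ) : Prop := Int.fract x < δ ∨ 1 - δ ≤ Int.fract x

open scoped Classical in
lemma freq (θ s : ℝ) (hθ : Irrational θ) (δ : ℝ) (h0 : 0 < δ) (h1 : δ < 1 / 2) :
    ∀ᶠ N : ℕ in atTop, (((Finset.range N).filter fun n : ℕ => near δ (n * θ + s)).card : ℝ) ≤
      3 * δ * N := by
  have hU := ud_rot θ s hθ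
  have ha := hU 0 δ le_rfl h0.le (by linarith)
  have hb := hU (1 - δ) 1 (by linarith) (by linarith) le_rfl
  have ha' := ha.eventually (gt_mem_nhds (show δ - 0 < 3 / 2 * δ by linarith))
  have hb' := hb.eventually (gt_mem_nhds (show 1 - (1 - δ) < 3 / 2 * δ by linarith))
  filter_upwards [ha', hb', eventually_gt_atTop 0] with N hNa hNb hN
  have hN0 : (0 : ℝ) < N := by exact_mod_cast hN
  rw [div_lt_iff₀ hN0] at hNa hNb
  have hle : ((Finset.range N).filter fun n : ℕ => near δ (n * θ + s)).card ≤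
      ((Finset.range N).filter fun n : ℕ => (0 : ℝ) ≤ Int.fract ((n : ℝ) * θ + s) ∧
        Int.fract ((n : ℝ) * θ + s) < δ).card +
      ((Finset.range N).filter fun n : ℕ => 1 - δ ≤ Int.fract ((n : ℝ) * θ + s) ∧
        Int.fract ((n : ℝ) * θ + s) < 1).card := by
    rw [← Finset.card_union_add_card_inter]
    refine le_trans (Finset.card_le_card ?_) (Nat.le_add_right _ _)
    intro n hn
    simp only [Finset.mem_filter, Finset.mem_union] at hn ⊢
    rcases hn.2 with h | h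
    · exact Or.inl ⟨hn.1, Int.fract_nonneg _, h⟩
    · exact Or.inr ⟨hn.1, h, Int.fract_lt_one _⟩
  have hle' : (((Finset.range N).filter fun n : ℕ => near δ (n * θ + s)).card : ℝ) ≤
      (((Finset.range N).filter fun n : ℕ => (0 : ℝ) ≤ Int.fract ((n : ℝ) * θ + s) ∧
        Int.fract ((n : ℝ) * θ + s) < δ).card : ℝ) +
      (((Finset.range N).filter fun n : ℕ => 1 - δ ≤ Int.fract ((n : ℝ) * θ + s) ∧
        Int.fract ((n : ℝ) * θ + s) < 1).card : ℝ) := by exact_mod_cast hle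
  linarith

lemma floor_eq_of_not_near {δ x y : ℝ} (hxy : |x - y| < δ) (hy : ¬ near δ y) :
    ⌊x⌋ = ⌊y⌋ := by
  unfold near at hy
  push Not at hy
  rw [abs_lt] at hxy
  have h1 : y = ⌊y⌋ + Int.fract y := (Int.floor_add_fract y).symm
  rw [Int.floor_eq_iff]
  constructor
  · linarith [hy.1]
  · linarith [hy.2]

section

variable {b : ℕ} [NeZero b]

lemma sh_sh (m k : ℤ) (ω : ℤ → Fin b) : sh m (sh k ω) = sh (m + k) ω := by
  funext i
  simp only [sh]
  congr 1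
  ring

lemma sh_zero (ω : ℤ → Fin b) : sh 0 ω = ω := by
  funext i; simp [sh]

lemma measurable_sh (k : ℤ) : Measurable (sh (b := b) k) :=
  measurable_pi_iff.2 fun i => measurable_pi_apply (i + k)

lemma mp_sh {P : Measure (ℤ → Fin b)} (h1 : MeasurePreserving (sh (b := b) 1) P P) (k : ℤ) :
    MeasurePreserving (sh (b := b) k) P P := by
  have hnat : ∀ n : ℕ, MeasurePreserving (sh (b := b) (n : ℤ)) P P := by
    intro n
    have h2 : sh (b := b) (n : ℤ) = (sh (b := b) 1)^[n] := by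
      induction n with
      | zero => funext ω; simp [sh_zero]
      | succ n ih =>
        rw [Function.iterate_succ', ← ih]
        funext ω
        simp only [Function.comp_apply, sh_sh]
        congr 1
        push_cast
        ring
    rw [h2]
    exact h1.iterate n
  rcases Int.eq_nat_or_neg k with ⟨n, rfl | rfl⟩
  · exact hnat n
  · refine ⟨measurable_sh _, ?_⟩
    have h3 := (hnat n).map_eq
    calc P.map (sh (b := b) (-(n : ℤ))) =
        (P.map (sh (b := b) (n : ℤ))).map (sh (b := b) (-(n : ℤ))) := by rw [h3]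
      _ = P.map (sh (b := b) (-(n : ℤ)) ∘ sh (b := b) (n : ℤ)) :=
          Measure.map_map (measurable_sh _) (measurable_sh _)
      _ = P.map id := by
          congr 1
          funext ω
          simp [sh_sh, sh_zero]
      _ = P := Measure.map_id

variable (θ : ℝ) (Ψ : (ℤ → Fin b) → ℝ → ℝ)

/-- the terms -/
noncomputable def TT (n : ℕ) (s : ℝ) (ω : ℤ → Fin b) : ℝ :=
  Ψ (sh ⌊(n : ℝ) * θ + s⌋ ω) (Int.fract ((n : ℝ) * θ + s))

/-- the sums -/
noncomputable def AA (N : ℕ) (s : ℝ) (ω : ℤ → Fin b) : ℝ := ∑ n ∈ Finset.range N, TT θ Ψ n s ω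

/-- the exceptional sets -/
def EE (s ε : ℝ) : Set (ℤ → Fin b) := {ω | ∃ᶠ N : ℕ in atTop, ε * N < AA θ Ψ N s ω}

variable {Ψ}

lemma TT_nonneg (h01 : ∀ ω u, 0 ≤ Ψ ω u ∧ Ψ ω u ≤ 1) (n : ℕ) (s : ℝ) (ω : ℤ → Fin b) :
    0 ≤ TT θ Ψ n s ω := (h01 _ _).1

lemma TT_le_one (h01 : ∀ ω u, 0 ≤ Ψ ω u ∧ Ψ ω u ≤ 1) (n : ℕ) (s : ℝ) (ω : ℤ → Fin b) :
    TT θ Ψ n s ω ≤ 1 := (h01 _ _).2

lemma TT_add_int (n : ℕ) (s : ℝ) (k : ℤ) (ω : ℤ → Fin b) :
    TT θ Ψ n (s + k) ω = TT θ Ψ n s (sh k ω) := by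
  unfold TT
  rw [← add_assoc, Int.floor_add_intCast, Int.fract_add_intCast, sh_sh]

lemma AA_add_int (N : ℕ) (s : ℝ) (k : ℤ) (ω : ℤ → Fin b) :
    AA θ Ψ N (s + k) ω = AA θ Ψ N s (sh k ω) :=
  Finset.sum_congr rfl fun n _ => TT_add_int θ n s k ω

lemma TT_add_theta (n j : ℕ) (s : ℝ) (ω : ℤ → Fin b) :
    TT θ Ψ n (s + j * θ) ω = TT θ Ψ (j + n) s ω := by
  unfold TT
  have : (n : ℝ) * θ + (s + j * θ) = ((j + n : ℕ) : ℝ) * θ + s := by push_cast; ring
  rw [this]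

lemma AA_add_theta (N j : ℕ) (s : ℝ) (ω : ℤ → Fin b) :
    AA θ Ψ (j + N) s ω = AA θ Ψ j s ω + AA θ Ψ N (s + j * θ) ω := by
  unfold AA
  rw [Finset.sum_range_add]
  congr 1
  exact Finset.sum_congr rfl fun n _ => (TT_add_theta θ n j s ω).symm

lemma AA_mono (h01 : ∀ ω u, 0 ≤ Ψ ω u ∧ Ψ ω u ≤ 1) {N M : ℕ} (hNM : N ≤ M) (s : ℝ)
    (ω : ℤ → Fin b) : AA θ Ψ N s ω ≤ AA θ Ψ M s ω :=
  Finset.sum_le_sum_of_subset_of_nonneg (Finset.range_subset_range.2 hNM)
    fun _ _ _ => TT_nonneg θ h01 _ _ _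

lemma AA_le (h01 : ∀ ω u, 0 ≤ Ψ ω u ∧ Ψ ω u ≤ 1) (N : ℕ) (s : ℝ) (ω : ℤ → Fin b) :
    AA θ Ψ N s ω ≤ N := by
  unfold AA
  calc _ ≤ ∑ _n ∈ Finset.range N, (1 : ℝ) :=
        Finset.sum_le_sum fun n _ => TT_le_one θ h01 n s ω
    _ = N := by simp

/-- the sums change by a bounded quantity when `s` moves by a multiple of `θ` -/
lemma AA_theta_int (h01 : ∀ ω u, 0 ≤ Ψ ω u ∧ Ψ ω u ≤ 1) (N : ℕ) (s : ℝ) (j : ℤ)
    (ω : ℤ → Fin b) : AA θ Ψ N s ω ≤ AA θ Ψ N (s + j * θ) ω + j.natAbs := by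
  rcases Int.eq_nat_or_neg j with ⟨n, rfl | rfl⟩
  · have h1 := AA_add_theta (Ψ := Ψ) θ N n s ω
    have h2 := AA_mono θ h01 (show N ≤ n + N by omega) s ω
    have h3 := AA_le θ h01 n s ω
    simp only [Int.natAbs_natCast, Int.cast_natCast]
    linarith
  · have h1 := AA_add_theta (Ψ := Ψ) θ N n (s + ((-(n : ℤ) : ℤ) : ℝ) * θ) ω
    have e : s + ((-(n : ℤ) : ℤ) : ℝ) * θ + n * θ = s := by push_cast; ring
    rw [e] at h1
    have h4 : AA θ Ψ (n + N) (s + ((-(n : ℤ) : ℤ) : ℝ) * θ) ω ≤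
        AA θ Ψ N (s + ((-(n : ℤ) : ℤ) : ℝ) * θ) ω + n := by
      unfold AA
      rw [add_comm n N, Finset.sum_range_add]
      have : ∑ x ∈ Finset.range n, TT θ Ψ (N + x) (s + ((-(n : ℤ) : ℤ) : ℝ) * θ) ω ≤ n := by
        calc _ ≤ ∑ _x ∈ Finset.range n, (1 : ℝ) :=
              Finset.sum_le_sum fun x _ => TT_le_one θ h01 _ _ ω
          _ = n := by simp
      linarith
    have h5 : 0 ≤ AA θ Ψ n (s + ((-(n : ℤ) : ℤ) : ℝ) * θ) ω :=
      Finset.sum_nonneg fun _ _ => TT_nonneg θ h01 _ _ _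
    simp only [Int.natAbs_neg, Int.natAbs_natCast]
    linarith

open scoped Classical in
/-- comparison of nearby phases -/
lemma AA_close (h01 : ∀ ω u, 0 ≤ Ψ ω u ∧ Ψ ω u ≤ 1) {C : ℝ} (hC0 : 0 ≤ C)
    (hC : ∀ ω, ∀ u ∈ Set.Icc (0 : ℝ) 1, ∀ v ∈ Set.Icc (0 : ℝ) 1, |Ψ ω u - Ψ ω v| ≤ C * |u - v|)
    (N : ℕ) (s s' δ : ℝ) (hss : |s - s'| < δ) (ω : ℤ → Fin b) :
    AA θ Ψ N s ω ≤ AA θ Ψ N s' ω + C * δ * N +
      ((Finset.range N).filter fun n : ℕ => near δ (n * θ + s')).card := by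
  have hδ : 0 < δ := lt_of_le_of_lt (abs_nonneg _) hss
  have key : ∀ n : ℕ, TT θ Ψ n s ω ≤ TT θ Ψ n s' ω + C * δ +
      (if near δ (n * θ + s') then (1 : ℝ) else 0) := by
    intro n
    by_cases hn : near δ (n * θ + s')
    · rw [if_pos hn]
      have h1 := TT_le_one θ h01 n s ω
      have h2 := TT_nonneg θ h01 n s' ω
      have h3 : 0 ≤ C * δ := by positivity
      linarith
    · rw [if_neg hn, add_zero]
      have hxy : |((n : ℝ) * θ + s) - (n * θ + s')| < δ := by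
        have : ((n : ℝ) * θ + s) - (n * θ + s') = s - s' := by ring
        rw [this]; exact hss
      have hfl := floor_eq_of_not_near hxy hn
      unfold TT
      rw [hfl]
      have h1 := hC (sh ⌊(n : ℝ) * θ + s'⌋ ω) (Int.fract ((n : ℝ) * θ + s))
        ⟨Int.fract_nonneg _, (Int.fract_lt_one _).le⟩ (Int.fract ((n : ℝ) * θ + s'))
        ⟨Int.fract_nonneg _, (Int.fract_lt_one _).le⟩
      have h2 : Int.fract ((n : ℝ) * θ + s) - Int.fract ((n : ℝ) * θ + s') = s - s' := by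
        rw [Int.fract, Int.fract, hfl]; ring
      rw [h2] at h1
      have h3 := (abs_le.1 h1).2
      have h4 : C * |s - s'| ≤ C * δ := mul_le_mul_of_nonneg_left hss.le hC0
      linarith
  unfold AA
  calc ∑ n ∈ Finset.range N, TT θ Ψ n s ω ≤ ∑ n ∈ Finset.range N, (TT θ Ψ n s' ω + C * δ +
      (if near δ (n * θ + s') then (1 : ℝ) else 0)) := Finset.sum_le_sum fun n _ => key n
    _ = _ := by
      rw [Finset.sum_add_distrib, Finset.sum_add_distrib, Finset.sum_const, Finset.card_range,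
        nsmul_eq_mul, Finset.sum_boole]
      ring

lemma measurable_TT (hΨ : Measurable (Function.uncurry Ψ)) (n : ℕ) (s : ℝ) :
    Measurable (TT θ Ψ n s) := by
  unfold TT
  exact hΨ.comp ((measurable_sh _).prodMk measurable_const)

lemma measurable_AA (hΨ : Measurable (Function.uncurry Ψ)) (N : ℕ) (s : ℝ) :
    Measurable (AA θ Ψ N s) :=
  Finset.measurable_fun_sum _ fun n _ => measurable_TT θ hΨ n s

lemma measurableSet_EE (hΨ : Measurable (Function.uncurry Ψ)) (s ε : ℝ) :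
    MeasurableSet (EE θ Ψ s ε) := by
  have : EE θ Ψ s ε = ⋂ a : ℕ, ⋃ N : ℕ, ⋃ (_ : a ≤ N), {ω | ε * N < AA θ Ψ N s ω} := by
    ext ω
    simp only [EE, Set.mem_ofPred_eq, frequently_atTop, Set.mem_iInter, Set.mem_iUnion, exists_prop,
      ge_iff_le]
  rw [this]
  refine MeasurableSet.iInter fun a => MeasurableSet.iUnion fun N => MeasurableSet.iUnion fun _ => ?_
  exact measurableSet_lt measurable_const (measurable_AA θ hΨ N s)

/-- the exceptional sets for different phases -/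
lemma EE_compare {P : Measure (ℤ → Fin b)} (h1 : MeasurePreserving (sh (b := b) 1) P P)
    (hθ : Irrational θ) (hΨ : Measurable (Function.uncurry Ψ))
    (h01 : ∀ ω u, 0 ≤ Ψ ω u ∧ Ψ ω u ≤ 1) {C : ℝ} (hC0 : 0 ≤ C)
    (hC : ∀ ω, ∀ u ∈ Set.Icc (0 : ℝ) 1, ∀ v ∈ Set.Icc (0 : ℝ) 1, |Ψ ω u - Ψ ω v| ≤ C * |u - v|)
    (s s' ε : ℝ) (hε : 0 < ε) : P (EE θ Ψ s ε) ≤ P (EE θ Ψ s' (ε / 2)) := by
  -- the size of the neighbourhood
  obtain ⟨δ, hδ0, hδ1, hδ2⟩ : ∃ δ : ℝ, 0 < δ ∧ δ < 1 / 2 ∧ (C + 3) * δ ≤ ε / 4 := by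
    refine ⟨min (1 / 4) (ε / (4 * (C + 3))), by positivity, ?_, ?_⟩
    · exact lt_of_le_of_lt (min_le_left _ _) (by norm_num)
    · calc (C + 3) * min (1 / 4) (ε / (4 * (C + 3))) ≤ (C + 3) * (ε / (4 * (C + 3))) :=
            mul_le_mul_of_nonneg_left (min_le_right _ _) (by linarith)
        _ = ε / 4 := by field_simp
  -- density
  obtain ⟨k, j, hkj⟩ : ∃ k j : ℤ, |(s + j * θ + k) - s'| < δ := by
    have hd : Dense (AddSubgroup.closure {θ, (1 : ℝ)} : Set ℝ) :=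
      dense_addSubgroupClosure_pair_iff.2 (by simpa using hθ)
    obtain ⟨y, hy, hyd⟩ := hd.exists_dist_lt (s' - s) hδ0
    rw [SetLike.mem_coe, AddSubgroup.mem_closure_pair] at hy
    obtain ⟨j, k, rfl⟩ := hy
    refine ⟨k, j, ?_⟩
    rw [Real.dist_eq, abs_sub_comm] at hyd
    have : (s + j * θ + k) - s' = (j • θ + k • (1 : ℝ)) - (s' - s) := by
      simp only [zsmul_eq_mul]; ring
    rw [this]; exact hyd
  -- first step
  have hs1 : EE θ Ψ s ε ⊆ EE θ Ψ (s + j * θ) (3 * ε / 4) := by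
    intro ω hω
    have h2 : ∀ᶠ N : ℕ in atTop, (j.natAbs : ℝ) ≤ ε / 4 * N := by
      obtain ⟨N₀, hN₀⟩ := exists_nat_gt ((j.natAbs : ℝ) / (ε / 4))
      filter_upwards [eventually_ge_atTop N₀] with N hN
      rw [div_lt_iff₀ (by positivity)] at hN₀
      have : (N₀ : ℝ) ≤ N := by exact_mod_cast hN
      nlinarith
    refine (Frequently.and_eventually hω h2).mono ?_
    rintro N ⟨h3, h4⟩
    have h5 := AA_theta_int θ h01 N s j ω
    linarith
  -- second step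
  have hs2 : P (EE θ Ψ (s + j * θ) (3 * ε / 4)) = P (EE θ Ψ (s + j * θ + k) (3 * ε / 4)) := by
    have h2 : EE θ Ψ (s + j * θ + k) (3 * ε / 4) =
        sh (b := b) k ⁻¹' EE θ Ψ (s + j * θ) (3 * ε / 4) := by
      ext ω
      simp only [EE, Set.mem_ofPred_eq, Set.mem_preimage, AA_add_int]
    rw [h2, (mp_sh h1 k).measure_preimage (measurableSet_EE θ hΨ _ _).nullMeasurableSet]
  -- third step
  have hs3 : EE θ Ψ (s + j * θ + k) (3 * ε / 4) ⊆ EE θ Ψ s' (ε / 2) := by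
    intro ω hω
    refine (Frequently.and_eventually hω (freq θ s' hθ δ hδ0 hδ1)).mono ?_
    rintro N ⟨h3, h4⟩
    have h5 := AA_close θ h01 hC0 hC N _ s' δ hkj ω
    have h6 : (C + 3) * δ * N ≤ ε / 4 * N := mul_le_mul_of_nonneg_right hδ2 (Nat.cast_nonneg N)
    nlinarith
  calc P (EE θ Ψ s ε) ≤ P (EE θ Ψ (s + j * θ) (3 * ε / 4)) := measure_mono hs1
    _ = P (EE θ Ψ (s + j * θ + k) (3 * ε / 4)) := hs2
    _ ≤ P (EE θ Ψ s' (ε / 2)) := measure_mono hs3

/-- the time `θ` map of the suspension -/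
noncomputable def RR (p : ℝ × (ℤ → Fin b)) : ℝ × (ℤ → Fin b) :=
  (Int.fract (p.1 + θ), sh ⌊p.1 + θ⌋ p.2)

lemma RR_mp {P : Measure (ℤ → Fin b)} [IsProbabilityMeasure P]
    (h1 : MeasurePreserving (sh (b := b) 1) P P) :
    MeasurePreserving (RR (b := b) θ) (U.prod P) (U.prod P) := by
  refine MeasurePreserving.skew_product (U_shift θ) (g := fun (u : ℝ) (ω : ℤ → Fin b) =>
    sh ⌊u + θ⌋ ω) ?_ (Eventually.of_forall fun u => (mp_sh h1 _).map_eq)
  have h2 : Measurable fun q : ℤ × (ℤ → Fin b) => sh q.1 q.2 :=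
    measurable_from_prod_countable_right fun k => measurable_sh k
  exact h2.comp (((measurable_fst.add_const θ).floor).prodMk measurable_snd)

lemma RR_iter (n : ℕ) (u : ℝ) (hu : u ∈ Set.Ico (0 : ℝ) 1) (ω : ℤ → Fin b) :
    (RR (b := b) θ)^[n] (u, ω) = (Int.fract ((n : ℝ) * θ + u), sh ⌊(n : ℝ) * θ + u⌋ ω) := by
  induction n with
  | zero =>
    have h1 : ⌊u⌋ = 0 := Int.floor_eq_zero_iff.2 hu
    simp [h1, sh_zero, Int.fract_eq_self.2 hu]
  | succ n ih =>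
    rw [Function.iterate_succ_apply', ih]
    unfold RR
    simp only
    set x : ℝ := (n : ℝ) * θ + u with hx
    have hx1 : ((n + 1 : ℕ) : ℝ) * θ + u = x + θ := by rw [hx]; push_cast; ring
    have hx2 : Int.fract x + θ = x + θ - (⌊x⌋ : ℤ) := by rw [Int.fract]; ring
    rw [hx1, hx2, Int.fract_sub_intCast, Int.floor_sub_intCast, sh_sh, sub_add_cancel]

end

end ErgAux

open ErgAux
open Pool.Agent.K1H30.SP (U U_shift integral_U U_ae)

/-- task ERG -/
theorem t_ERG : S_ERG := by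
  intro b _ P _ hP θ hθ Ψ hΨ h01 hLip k₀ s ε hε
  obtain ⟨C, hC'⟩ := hLip
  have hC : ∀ ω, ∀ u ∈ Set.Icc (0 : ℝ) 1, ∀ v ∈ Set.Icc (0 : ℝ) 1,
      |Ψ ω u - Ψ ω v| ≤ max C 0 * |u - v| := by
    intro ω u hu v hv
    exact (hC' ω u hu v hv).trans (mul_le_mul_of_nonneg_right (le_max_left _ _) (abs_nonneg _))
  -- the set is a shift of `EE`
  have hset : {ω | ∃ᶠ N : ℕ in atTop, ε < (∑ n ∈ Finset.range N,
        Ψ (sh (⌊(n : ℝ) * θ + s⌋ - k₀) ω) (Int.fract ((n : ℝ) * θ + s))) / N} ⊆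
      sh (b := b) (-k₀) ⁻¹' EE θ Ψ s ε := by
    intro ω hω
    refine hω.mono ?_
    intro N hN
    rcases Nat.eq_zero_or_pos N with rfl | hN0
    · simp at hN; linarith
    · have hN0' : (0 : ℝ) < N := by exact_mod_cast hN0
      rw [lt_div_iff₀ hN0'] at hN
      refine lt_of_lt_of_eq hN ?_
      unfold AA TT
      refine Finset.sum_congr rfl fun n _ => ?_
      rw [sh_sh, sub_eq_add_neg]
  refine (measure_mono hset).trans ?_
  rw [(mp_sh hP (-k₀)).measure_preimage (measurableSet_EE θ hΨ _ _).nullMeasurableSet]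
  -- the maximal inequality
  let h : ℝ × (ℤ → Fin b) → ℝ := fun p => Ψ p.2 p.1
  have hh : Measurable h := hΨ.comp (measurable_snd.prodMk measurable_fst)
  have hi : Integrable h (U.prod P) := by
    refine (integrable_const (1 : ℝ)).mono' hh.aestronglyMeasurable (Eventually.of_forall fun p => ?_)
    rw [Real.norm_eq_abs, abs_of_nonneg (h01 _ _).1]
    exact (h01 _ _).2
  have hmax := Pool.Agent.R243.Erg.max_ineq (RR_mp (b := b) θ hP) hh hi (fun p => (h01 _ _).1)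
    (ε := ε / 2) (by positivity)
  set D : Set (ℝ × (ℤ → Fin b)) := {y | ∃ k : ℕ, ε / 2 * k <
    ∑ i ∈ Finset.range k, h ((RR (b := b) θ)^[i] y)} with hD
  have hDm : MeasurableSet D := by
    have : D = ⋃ k : ℕ, {y | ε / 2 * k < ∑ i ∈ Finset.range k, h ((RR (b := b) θ)^[i] y)} := by
      ext y; simp [hD]
    rw [this]
    refine MeasurableSet.iUnion fun k => measurableSet_lt measurable_const ?_
    exact Finset.measurable_fun_sum _ fun i _ =>
      hh.comp ((RR_mp (b := b) θ hP).measurable.iterate i)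
  have hsec : ∀ᵐ u ∂U, P (EE θ Ψ s ε) ≤ P (Prod.mk u ⁻¹' D) := by
    filter_upwards [U_ae] with u hu
    refine (EE_compare θ hP hθ hΨ h01 (le_max_right C 0) hC s u ε hε).trans (measure_mono ?_)
    intro ω hω
    obtain ⟨N, hN⟩ := hω.exists
    refine ⟨N, lt_of_lt_of_eq hN ?_⟩
    unfold AA TT
    refine Finset.sum_congr rfl fun n _ => ?_
    rw [RR_iter θ n u hu ω]
  have h1 : P (EE θ Ψ s ε) ≤ (U.prod P) D := by
    rw [Measure.prod_apply hDm]
    calc P (EE θ Ψ s ε) = ∫⁻ _u, P (EE θ Ψ s ε) ∂U := by simp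
      _ ≤ ∫⁻ u, P (Prod.mk u ⁻¹' D) ∂U := lintegral_mono_ae hsec
  refine h1.trans (hmax.trans (ENNReal.ofReal_le_ofReal ?_))
  have h2 : ∫ y, h y ∂(U.prod P) = ∫ u in (0 : ℝ)..1, ∫ ω, Ψ ω u ∂P := by
    rw [integral_prod h hi, integral_U]
  have h3 : 0 ≤ ∫ u in (0 : ℝ)..1, ∫ ω, Ψ ω u ∂P := by
    rw [← h2]
    exact integral_nonneg fun p => (h01 _ _).1
  rw [h2]
  rw [div_le_iff₀ (by positivity)]
  have h4 : 4 / ε * (∫ u in (0 : ℝ)..1, ∫ ω, Ψ ω u ∂P) * (ε / 2) =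
      2 * ∫ u in (0 : ℝ)..1, ∫ ω, Ψ ω u ∂P := by field_simp; ring
  rw [h4]
  linarith

end Pool.Agent.T3H29.HR
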