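import Pool.Agent.T3H29.HR.Stm
import Pool.Agent.H340R2.LW

/-! # Independence of the bases -/

set_option autoImplicit false

namespace Pool.Agent.T3H29.HR

open Filter Topology

lemma ind_irr (b : ℕ) (β : ℝ) (hb : 2 ≤ b) (hβ : 1 < β)
    (h : ∀ m k : ℕ, 1 ≤ m → β ^ m ≠ (b : ℝ) ^ k) : Irrational (Real.logb b β) := by
  have hb1 : (1 : ℝ) < b := by exact_mod_cast (by omega : 1 < b)
  have hpos : 0 < Real.logb b β := Real.logb_pos hb1 hβ
  rintro ⟨q, hq⟩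
  have hq0 : (0 : ℝ) < q := by rw [hq]; exact hpos
  have hq1 : 0 < q := by exact_mod_cast hq0
  have hnum : 0 < q.num := Rat.num_pos.2 hq1
  obtain ⟨p, hp⟩ : ∃ p : ℕ, (p : ℤ) = q.num := ⟨q.num.toNat, Int.toNat_of_nonneg hnum.le⟩
  have e1 : (q : ℝ) = (p : ℝ) / (q.den : ℝ) := by
    have h1 : (q : ℝ) = (q.num : ℝ) / (q.den : ℝ) := by
      exact_mod_cast (Rat.num_div_den q).symm
    rw [h1, ← hp]
    simp
  have hd : (0 : ℝ) < q.den := by exact_mod_cast q.den_pos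
  have h2 : β ^ q.den = (b : ℝ) ^ p := by
    have h3 : β = (b : ℝ) ^ (q : ℝ) := by
      rw [hq, Real.rpow_logb (by linarith) hb1.ne' (by linarith)]
    rw [h3, ← Real.rpow_natCast, ← Real.rpow_mul (by linarith), e1, div_mul_cancel₀ _ hd.ne',
      Real.rpow_natCast]
  exact h q.den p q.den_pos h2

lemma exp_pow_ne (b : ℕ) (r : ℚ) (hr : 0 < r) (m k : ℕ) (hm : 1 ≤ m) :
    Real.exp r ^ m ≠ (b : ℝ) ^ k := by
  intro h
  have h1 : Complex.exp ((m : ℂ) * ((r : ℚ) : ℂ)) = ((b ^ k : ℕ) : ℂ) := by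
    rw [Complex.exp_nat_mul]
    have h2 : ((Real.exp r ^ m : ℝ) : ℂ) = (((b : ℝ) ^ k : ℝ) : ℂ) := by rw [h]
    push_cast at h2 ⊢
    exact h2
  have halg : IsAlgebraic ℚ ((m : ℂ) * ((r : ℚ) : ℂ)) := by
    have : (m : ℂ) * ((r : ℚ) : ℂ) = algebraMap ℚ ℂ ((m : ℚ) * r) := by
      simp
    rw [this]
    exact isAlgebraic_algebraMap _
  have hne : (m : ℂ) * ((r : ℚ) : ℂ) ≠ 0 := by
    have h3 : (m : ℂ) ≠ 0 := by exact_mod_cast (by omega : m ≠ 0)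
    have h4 : ((r : ℚ) : ℂ) ≠ 0 := by exact_mod_cast hr.ne'
    exact mul_ne_zero h3 h4
  have h5 := Pool.Agent.H340R2.LW.transcendental_cexp _ halg hne
  rw [h1] at h5
  apply h5
  have : ((b ^ k : ℕ) : ℂ) = algebraMap ℚ ℂ ((b ^ k : ℕ) : ℚ) := by simp
  rw [this]
  exact isAlgebraic_algebraMap _

lemma pi_pow_ne (b : ℕ) (r : ℚ) (hr : 0 < r) (m k : ℕ) (hm : 1 ≤ m) :
    (Real.pi ^ (r : ℝ)) ^ m ≠ (b : ℝ) ^ k := by
  intro h
  have hnum : 0 < r.num := Rat.num_pos.2 hr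
  obtain ⟨p, hp⟩ : ∃ p : ℕ, (p : ℤ) = r.num := ⟨r.num.toNat, Int.toNat_of_nonneg hnum.le⟩
  have hp1 : 1 ≤ p := by omega
  have e1 : (r : ℝ) = (p : ℝ) / (r.den : ℝ) := by
    have h1 : (r : ℝ) = (r.num : ℝ) / (r.den : ℝ) := by
      exact_mod_cast (Rat.num_div_den r).symm
    rw [h1, ← hp]
    simp
  have hd : (0 : ℝ) < r.den := by exact_mod_cast r.den_pos
  have hpi := Real.pi_pos
  have h2 : Real.pi ^ (p * m) = ((b ^ (k * r.den) : ℕ) : ℝ) := by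
    have h3 : ((Real.pi ^ (r : ℝ)) ^ m) ^ r.den = ((b : ℝ) ^ k) ^ r.den := by rw [h]
    rw [← Real.rpow_natCast, ← Real.rpow_natCast, ← Real.rpow_mul hpi.le, ← Real.rpow_mul hpi.le] at h3
    have h4 : (r : ℝ) * m * r.den = ((p * m : ℕ) : ℝ) := by
      rw [e1]
      push_cast
      field_simp
    rw [h4, Real.rpow_natCast] at h3
    rw [h3]
    push_cast
    ring
  have htr := Pool.Agent.H340R2.LW.transcendental_pi
  apply htr
  refine ⟨Polynomial.X ^ (p * m) - Polynomial.C ((b ^ (k * r.den) : ℕ) : ℚ), ?_, ?_⟩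
  · exact Polynomial.X_pow_sub_C_ne_zero (Nat.mul_pos hp1 hm) _
  · rw [map_sub, map_pow, Polynomial.aeval_X, Polynomial.aeval_C, h2]
    simp

theorem t_IND : S_IND :=
  ⟨fun b β hb hβ h => ind_irr b β hb hβ h, fun b r _ hr m k hm => exp_pow_ne b r hr m k hm,
    fun b r _ hr m k hm => pi_pow_ne b r hr m k hm⟩

end Pool.Agent.T3H29.HR
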