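import Pool.Agent.T3H29.HR.Stm
import Pool.Agent.H534R3.UD
import Pool.Agent.H469R2.NK.Vdc

/-! Task VDC of project HR. -/

set_option autoImplicit false

namespace Pool.Agent.T3H29.HR

open Filter Topology Finset

namespace VdcAux

lemma e_eq_ee (x : ℝ) : e x = Pool.Agent.H534R3.UDist.ee x := by
  unfold e Pool.Agent.H534R3.UDist.ee
  congr 1
  push_cast
  ring

lemma norm_e (x : ℝ) : ‖e x‖ = 1 := by
  rw [e_eq_ee, Pool.Agent.H534R3.UDist.norm_ee]

lemma e_add (x y : ℝ) : e (x + y) = e x * e y := by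
  unfold e
  rw [← Complex.exp_add]
  congr 1
  push_cast
  ring

lemma conj_e (x : ℝ) : (starRingEnd ℂ) (e x) = e (-x) := by
  unfold e
  rw [← Complex.exp_conj, map_mul, Complex.conj_ofReal, Complex.conj_I]
  congr 1
  push_cast
  ring

/-- the sum with a polynomial phase -/
noncomputable def WW (β x t : ℝ) (Q : Polynomial ℝ) (N : ℕ) : ℂ :=
  ∑ n ∈ range N, e (t * β ^ n * x + Q.eval (n : ℝ))

lemma diff_natDegree (P : Polynomial ℝ) (l : ℝ) (k : ℕ) (hP : P.natDegree ≤ k + 1) :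
    (P.comp (Polynomial.X + Polynomial.C l) - P).natDegree ≤ k := by
  rcases Nat.lt_or_ge k P.natDegree with h | h
  · have hk : P.natDegree = k + 1 := by omega
    have hdeg : (P.comp (Polynomial.X + Polynomial.C l)).natDegree = k + 1 := by
      rw [Polynomial.natDegree_comp, Polynomial.natDegree_X_add_C, hk, mul_one]
    have h1 : (P.comp (Polynomial.X + Polynomial.C l)).coeff (k + 1) = P.coeff (k + 1) := by
      have h2 : (P.comp (Polynomial.X + Polynomial.C l)).leadingCoeff = P.leadingCoeff := by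
        rw [Polynomial.leadingCoeff_comp (by rw [Polynomial.natDegree_X_add_C]; exact one_ne_zero),
          Polynomial.leadingCoeff_X_add_C, one_pow, mul_one]
      rw [Polynomial.leadingCoeff, Polynomial.leadingCoeff, hdeg, hk] at h2
      exact h2
    have h3 : (P.comp (Polynomial.X + Polynomial.C l) - P).natDegree ≤ k + 1 := by
      refine (Polynomial.natDegree_sub_le _ _).trans ?_
      rw [hdeg, hk, max_self]
    by_contra hcon
    have h4 : (P.comp (Polynomial.X + Polynomial.C l) - P).natDegree = k + 1 := by omega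
    have h5 : (P.comp (Polynomial.X + Polynomial.C l) - P).coeff (k + 1) = 0 := by
      rw [Polynomial.coeff_sub, h1, sub_self]
    have h6 : (P.comp (Polynomial.X + Polynomial.C l) - P).leadingCoeff = 0 := by
      rw [Polynomial.leadingCoeff, h4, h5]
    rw [Polynomial.leadingCoeff_eq_zero] at h6
    rw [h6] at h4
    simp at h4
  · refine (Polynomial.natDegree_sub_le _ _).trans ?_
    rw [Polynomial.natDegree_comp, Polynomial.natDegree_X_add_C, mul_one, max_self]
    exact h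

lemma WW_shift (β x t : ℝ) (Q : Polynomial ℝ) (l M : ℕ) :
    ∑ n ∈ range M, e (t * β ^ (n + l) * x + Q.eval ((n + l : ℕ) : ℝ)) *
      (starRingEnd ℂ) (e (t * β ^ n * x + Q.eval (n : ℝ))) =
    WW β x (t * (β ^ l - 1)) (Q.comp (Polynomial.X + Polynomial.C (l : ℝ)) - Q) M := by
  unfold WW
  refine Finset.sum_congr rfl fun n _ => ?_
  rw [conj_e, ← e_add]
  congr 1
  rw [Polynomial.eval_sub, Polynomial.eval_comp, Polynomial.eval_add, Polynomial.eval_X,
    Polynomial.eval_C]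
  push_cast
  ring

/-- the sums are `o(N)` -/
def Small (f : ℕ → ℂ) : Prop := Tendsto (fun N : ℕ => ‖f N‖ / N) atTop (𝓝 0)

lemma small_shift {f : ℕ → ℂ} (h : Small f) (l : ℕ) :
    Tendsto (fun N : ℕ => ‖f (N - l)‖ / N) atTop (𝓝 0) := by
  have h1 : Tendsto (fun N : ℕ => ‖f (N - l)‖ / ((N - l : ℕ) : ℝ)) atTop (𝓝 0) :=
    h.comp (tendsto_sub_atTop_nat l)
  refine squeeze_zero' (Eventually.of_forall fun N => by positivity) ?_ h1
  filter_upwards [eventually_gt_atTop l] with N hN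
  apply div_le_div_of_nonneg_left (norm_nonneg _)
  · exact_mod_cast (by omega : 0 < N - l)
  · exact_mod_cast Nat.sub_le _ _

lemma small_of_diff (z : ℕ → ℂ) (hz : ∀ n, ‖z n‖ ≤ 1)
    (h : ∀ l : ℕ, 1 ≤ l → Small fun M => ∑ n ∈ range M, z (n + l) * (starRingEnd ℂ) (z n)) :
    Small fun N => ∑ n ∈ range N, z n := by
  unfold Small
  rw [Metric.tendsto_atTop]
  intro ε hε
  obtain ⟨H, hH⟩ := exists_nat_gt (4 / ε ^ 2)
  have hH0 : (0 : ℝ) < H := lt_of_le_of_lt (by positivity) hH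
  have h1 : Tendsto (fun N : ℕ => ∑ l ∈ Ico 1 H,
      ‖∑ n ∈ range (N - l), z (n + l) * (starRingEnd ℂ) (z n)‖ / N) atTop (𝓝 0) := by
    have := tendsto_finsetSum (Ico 1 H) (f := fun (l : ℕ) (N : ℕ) =>
      ‖∑ n ∈ range (N - l), z (n + l) * (starRingEnd ℂ) (z n)‖ / N) (a := fun _ => (0 : ℝ))
      (x := atTop) (fun l hl => small_shift (h l (mem_Ico.1 hl).1) l)
    simpa using this
  have h2 : ∀ᶠ N : ℕ in atTop, ∑ l ∈ Ico 1 H,
      ‖∑ n ∈ range (N - l), z (n + l) * (starRingEnd ℂ) (z n)‖ / N < 1 / 2 :=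
    h1.eventually (gt_mem_nhds (by norm_num))
  obtain ⟨N₀, hN₀⟩ := eventually_atTop.1 h2
  refine ⟨max N₀ (max H 1), fun N hN => ?_⟩
  have hN1 : N₀ ≤ N := le_trans (le_max_left _ _) hN
  have hN2 : H ≤ N := le_trans (le_trans (le_max_left _ _) (le_max_right _ _)) hN
  have hN3 : 1 ≤ N := le_trans (le_trans (le_max_right _ _) (le_max_right _ _)) hN
  have hNpos : (0 : ℝ) < N := by exact_mod_cast hN3
  have h3 := hN₀ N hN1
  rw [← Finset.sum_div, div_lt_iff₀ hNpos] at h3
  have h4 := Pool.Agent.H469R2.NK.vdcH z hz N H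
  have hHN : (H : ℝ) ≤ N := by exact_mod_cast hN2
  set S : ℝ := ‖∑ n ∈ range N, z n‖ with hS
  have h5 : (H : ℝ) * S ^ 2 ≤ 4 * (N : ℝ) ^ 2 := by
    refine h4.trans ?_
    have h6 : (N : ℝ) + 2 * ∑ l ∈ Ico 1 H,
        ‖∑ n ∈ range (N - l), z (n + l) * (starRingEnd ℂ) (z n)‖ ≤ 2 * N := by linarith
    calc ((N : ℝ) + H) * (N + 2 * ∑ l ∈ Ico 1 H,
        ‖∑ n ∈ range (N - l), z (n + l) * (starRingEnd ℂ) (z n)‖) ≤ (2 * N) * (2 * N) := by
          apply mul_le_mul (by linarith) h6 (by positivity) (by positivity)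
      _ = 4 * (N : ℝ) ^ 2 := by ring
  have h6 : (S / N) ^ 2 < ε ^ 2 := by
    rw [div_pow, div_lt_iff₀ (by positivity)]
    have h7 : 4 < H * ε ^ 2 := by
      rw [div_lt_iff₀ (by positivity)] at hH
      exact hH
    have h8 : H * S ^ 2 < H * (ε ^ 2 * N ^ 2) := by
      have : 4 * (N : ℝ) ^ 2 < (H * ε ^ 2) * (N : ℝ) ^ 2 :=
        mul_lt_mul_of_pos_right h7 (by positivity)
      nlinarith
    exact lt_of_mul_lt_mul_left h8 hH0.le
  rw [Real.dist_eq, sub_zero, abs_of_nonneg (by positivity)]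
  exact lt_of_pow_lt_pow_left₀ 2 hε.le h6

lemma small_WW (β x : ℝ) (T : Set ℝ)
    (hT : ∀ t ∈ T, ∀ d : ℕ, 1 ≤ d → t * (β ^ d - 1) ∈ T)
    (h0 : ∀ t ∈ T, Tendsto (fun N : ℕ => ‖∑ n ∈ Finset.range N, e (t * β ^ n * x)‖ / N) atTop (𝓝 0))
    (D : ℕ) : ∀ t ∈ T, ∀ Q : Polynomial ℝ, Q.natDegree ≤ D → Small (WW β x t Q) := by
  induction D with
  | zero =>
    intro t ht Q hQ
    have hC : Q = Polynomial.C (Q.coeff 0) := Polynomial.eq_C_of_natDegree_le_zero hQ
    have h1 := h0 t ht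
    unfold Small
    refine h1.congr fun N => ?_
    congr 1
    have h2 : WW β x t Q N = e (Q.coeff 0) * ∑ n ∈ range N, e (t * β ^ n * x) := by
      unfold WW
      rw [mul_sum]
      refine Finset.sum_congr rfl fun n _ => ?_
      rw [hC, Polynomial.eval_C, Polynomial.coeff_C_zero, e_add, mul_comm]
    rw [h2, norm_mul, norm_e, one_mul]
  | succ D ih =>
    intro t ht Q hQ
    refine small_of_diff (fun n => e (t * β ^ n * x + Q.eval (n : ℝ))) (fun n => (norm_e _).le) ?_
    intro l hl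
    have h1 := ih (t * (β ^ l - 1)) (hT t ht l hl)
      (Q.comp (Polynomial.X + Polynomial.C (l : ℝ)) - Q) (diff_natDegree Q l D hQ)
    have h2 : (fun M => ∑ n ∈ range M, (fun n : ℕ => e (t * β ^ n * x + Q.eval (n : ℝ))) (n + l) *
        (starRingEnd ℂ) ((fun n : ℕ => e (t * β ^ n * x + Q.eval (n : ℝ))) n)) =
        WW β x (t * (β ^ l - 1)) (Q.comp (Polynomial.X + Polynomial.C (l : ℝ)) - Q) := by
      funext M
      exact WW_shift β x t Q l M
    rw [h2]
    exact h1

end VdcAux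

open VdcAux

/-- task VDC -/
theorem t_VDC : S_VDC := by
  intro β x hβ T hT1 hT2 h0 t ht Q s u hs hsu hu
  -- the shifted sequence
  set f : ℕ → ℝ := fun n => t * β ^ n * x + Q.eval (n : ℝ) with hf
  have hW : Pool.Agent.H534R3.UDist.Weyl (fun n => f (n + 1)) := by
    intro h hh
    have hth : ((h : ℤ) : ℝ) * t ∈ T := hT1 t ht h (by omega)
    have h1 := small_WW β x T hT2 h0 (Polynomial.C (h : ℝ) * Q).natDegree _ hth
      (Polynomial.C (h : ℝ) * Q) le_rfl
    have h2 : Tendsto (fun N : ℕ => ‖WW β x (((h : ℤ) : ℝ) * t) (Polynomial.C (h : ℝ) * Q) (N + 1)‖ /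
        ((N + 1 : ℕ) : ℝ)) atTop (𝓝 0) := h1.comp (tendsto_add_atTop_nat 1)
    have h3 : Tendsto (fun N : ℕ => 2 * (‖WW β x (((h : ℤ) : ℝ) * t) (Polynomial.C (h : ℝ) * Q)
        (N + 1)‖ / ((N + 1 : ℕ) : ℝ)) + 1 / (N : ℝ)) atTop (𝓝 0) := by
      have := (h2.const_mul 2).add (tendsto_one_div_atTop_nhds_zero_nat (𝕜 := ℝ))
      simpa using this
    refine squeeze_zero' (Eventually.of_forall fun N => by positivity) ?_ h3
    filter_upwards [eventually_ge_atTop 1] with N hN
    have hN0 : (0 : ℝ) < N := by exact_mod_cast hN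
    have h4 : WW β x (((h : ℤ) : ℝ) * t) (Polynomial.C (h : ℝ) * Q) (N + 1) =
        (∑ n ∈ range N, Pool.Agent.H534R3.UDist.ee (h * f (n + 1))) +
          Pool.Agent.H534R3.UDist.ee (h * f 0) := by
      unfold WW
      rw [Finset.sum_range_succ']
      congr 1
      · refine Finset.sum_congr rfl fun n _ => ?_
        rw [e_eq_ee]
        congr 1
        simp only [hf, Polynomial.eval_mul, Polynomial.eval_C]
        push_cast
        ring
      · rw [e_eq_ee]
        congr 1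
        simp only [hf, Polynomial.eval_mul, Polynomial.eval_C]
        push_cast
        ring
    have h5 : ‖∑ n ∈ range N, Pool.Agent.H534R3.UDist.ee (h * f (n + 1))‖ ≤
        ‖WW β x (((h : ℤ) : ℝ) * t) (Polynomial.C (h : ℝ) * Q) (N + 1)‖ + 1 := by
      have h6 : ∑ n ∈ range N, Pool.Agent.H534R3.UDist.ee (h * f (n + 1)) =
          WW β x (((h : ℤ) : ℝ) * t) (Polynomial.C (h : ℝ) * Q) (N + 1) -
            Pool.Agent.H534R3.UDist.ee (h * f 0) := by rw [h4]; ring
      rw [h6]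
      refine (norm_sub_le _ _).trans ?_
      rw [Pool.Agent.H534R3.UDist.norm_ee]
    refine (div_le_div_of_nonneg_right h5 hN0.le).trans ?_
    rw [add_div]
    gcongr
    rw [mul_div_assoc', div_le_div_iff₀ hN0 (by positivity)]
    have h7 : ((N + 1 : ℕ) : ℝ) ≤ 2 * N := by
      push_cast
      have : (1 : ℝ) ≤ N := by exact_mod_cast hN
      linarith
    nlinarith [norm_nonneg (WW β x (((h : ℤ) : ℝ) * t) (Polynomial.C (h : ℝ) * Q) (N + 1))]
  have hU := Pool.Agent.H534R3.UDist.ud_of_weyl _ hW s u hs hsu.le hu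
  refine hU.congr fun N => ?_
  congr 2
  refine Finset.card_bij (fun n _ => n + 1) ?_ ?_ ?_
  · intro n hn
    simp only [Finset.mem_filter, Finset.mem_range, Finset.mem_Icc, Set.mem_Ico] at hn ⊢
    exact ⟨⟨by omega, by omega⟩, hn.2⟩
  · intro a _ b _ hab
    simpa using hab
  · intro m hm
    simp only [Finset.mem_filter, Finset.mem_range, Finset.mem_Icc, Set.mem_Ico] at hm ⊢
    refine ⟨m - 1, ⟨by omega, ?_⟩, by omega⟩
    have : m - 1 + 1 = m := by omega
    rw [this]
    exact hm.2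

end Pool.Agent.T3H29.HR
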