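import Pool.Agent.T3H29.HR.LL3
import Pool.Agent.T3H29.HR.Cir
import Pool.Agent.T3H29.HR.Fin
import Pool.Agent.T3H29.HR.T_NA
import Pool.Agent.T3H29.HR.T_VDC
import Pool.Agent.T3H29.HR.T_WIE
import Pool.Agent.T3H29.HR.T_ENT
import Pool.Agent.T3H29.HR.T_ERG
import Pool.Agent.T3H29.HR.T_IND
import Pool.Agent.TH915.PW.Disc

/-! # The general theorem -/

set_option autoImplicit false

namespace Pool.Agent.T3H29.HR

open MeasureTheory ProbabilityTheory Filter Topology Finset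

open VdcAux (Small)

/-- the linear sums -/
theorem linearG {b : ℕ} [NeZero b] (P : Measure (ℤ → Fin b)) [IsProbabilityMeasure P] (hb : 2 ≤ b)
    (hP : Ergodic (sh (b := b) 1) P) (hD : ¬ Det P) (β : ℝ) (hβ : 1 < β)
    (hirr : Irrational (Real.logb b β)) (t : ℝ) (ht : t ≠ 0) (a : ℕ → ℝ)
    (ha : Tendsto (fun n => a n / β ^ n) atTop (𝓝 t)) (z : ℕ → ℂ) (hz : ∀ n, ‖z n‖ ≤ 1) :
    ∀ᵐ ω ∂P, Small (fun N : ℕ => ∑ n ∈ range N, z n * e (a n * val (fut ω))) := by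
  have hmp := hP.toMeasurePreserving
  set I : ℕ → ℝ := fun K => ∫ u in (0 : ℝ)..1, ∫ ω, Phi P K ω u ∂P with hI
  have hI0 : Tendsto I atTop (𝓝 0) := mean_tendsto P t_NA t_WIE hb hP hD
  have key : ∀ ε : ℝ, 0 < ε → P {ω | ∃ᶠ N : ℕ in atTop,
      2 * ε < ‖∑ n ∈ range N, z n * e (a n * val (fut ω))‖ / N} = 0 := by
    intro ε hε
    have hle : ∀ K : ℕ, P {ω | ∃ᶠ N : ℕ in atTop,
        2 * ε < ‖∑ n ∈ range N, z n * e (a n * val (fut ω))‖ / N} ≤ ENNReal.ofReal (4 / ε * I K) := by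
      intro K
      obtain ⟨C, hC⟩ := Phi_lip P hb K
      refine le_trans (measure_mono_ae ?_) (t_ERG b P hmp (Real.logb b β) hirr (Phi P K) (Phi_meas P hb K)
        (Phi_bounds P K) ⟨C, hC⟩ K (Real.logb b |t|) ε hε)
      filter_upwards [lln hb P hmp β t hβ ht K a ha z hz] with ω hω hfr
      have h1 := hω ε hε
      refine (hfr.and_eventually (h1.and (eventually_gt_atTop 0))).mono ?_
      rintro N ⟨h2, h3, h4⟩
      have hN : (0 : ℝ) < N := by exact_mod_cast h4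
      rw [lt_div_iff₀ hN] at h2 ⊢
      linarith
    have hlim : Tendsto (fun K : ℕ => ENNReal.ofReal (4 / ε * I K)) atTop (𝓝 0) := by
      have h1 : Tendsto (fun K : ℕ => 4 / ε * I K) atTop (𝓝 (4 / ε * 0)) := hI0.const_mul _
      rw [mul_zero] at h1
      have h2 := ENNReal.tendsto_ofReal h1
      simpa using h2
    exact le_antisymm (ge_of_tendsto' hlim hle) bot_le
  have hall : ∀ᵐ ω ∂P, ∀ j : ℕ, ¬ ∃ᶠ N : ℕ in atTop,
      2 * (1 / ((j : ℝ) + 1)) < ‖∑ n ∈ range N, z n * e (a n * val (fut ω))‖ / N := by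
    rw [ae_all_iff]
    intro j
    have := key (1 / ((j : ℝ) + 1)) (by positivity)
    rw [ae_iff]
    simp only [not_not]
    exact this
  filter_upwards [hall] with ω hω
  unfold VdcAux.Small
  rw [Metric.tendsto_atTop']
  intro ε hε
  obtain ⟨j, hj⟩ := exists_nat_one_div_lt (half_pos hε)
  have h1 := hω j
  rw [not_frequently, eventually_atTop] at h1
  obtain ⟨N0, hN0⟩ := h1
  refine ⟨N0, fun N hN => ?_⟩
  have h2 := hN0 N hN.le
  rw [not_lt] at h2
  rw [Real.dist_eq, sub_zero, abs_of_nonneg (by positivity)]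
  linarith

/-- the linear sums, for an invariant measure of the circle -/
theorem linearC {b : ℕ} [NeZero b] (hb : 2 ≤ b) (μ : Measure ℝ) [IsProbabilityMeasure μ]
    (hμ : Ergodic (Tb b) μ) (c₀ : ℝ) (hc₀ : 0 < c₀) (hent : ∀ n : ℕ, c₀ * n ≤ En b μ n)
    (β : ℝ) (hβ : 1 < β) (hirr : Irrational (Real.logb b β)) (t : ℝ) (ht : t ≠ 0) (a : ℕ → ℝ)
    (ha : Tendsto (fun n => a n / β ^ n) atTop (𝓝 t)) (z : ℕ → ℂ) (hz : ∀ n, ‖z n‖ ≤ 1) :
    ∀ᵐ x ∂μ, Small (fun N : ℕ => ∑ n ∈ range N, z n * e (a n * x)) := by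
  obtain ⟨P, hPp, hPerg, hfut, hHH⟩ := exists_two_sided (b := b) μ hμ
  have hD : ¬ Det P := t_ENT b P hPerg.toMeasurePreserving c₀ hc₀ (fun n => by rw [hHH]; exact hent n)
  have h1 := linearG P hb hPerg hD β hβ hirr t ht a ha z hz
  have hm : MeasurableSet {y : ℕ → Fin b | Small (fun N : ℕ => ∑ n ∈ range N, z n * e (a n * val y))} := by
    unfold VdcAux.Small
    refine measurableSet_tendsto (𝓝 0) fun N => ?_
    refine (Measurable.norm ?_).div_const _
    refine Finset.measurable_fun_sum _ fun n _ => ?_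
    exact (e_cont.measurable.comp ((val_meas hb).const_mul _)).const_mul _
  have h2 : ∀ᵐ y ∂(P.map fut), Small (fun N : ℕ => ∑ n ∈ range N, z n * e (a n * val y)) :=
    (ae_map_iff fut_meas.aemeasurable hm).2 h1
  rw [hfut] at h2
  have h3 := ae_of_ae_map dg_meas.aemeasurable h2
  filter_upwards [h3, ae_mem μ hμ.toMeasurePreserving] with x hx hx01
  rw [val_dg hb, Int.fract_eq_self.2 hx01] at hx
  exact hx

/-! ### differences -/

/-- difference operator on the weights -/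
def dW (l : ℕ) (w : ℕ → ℂ) : ℕ → ℂ := fun n => w (n + (l + 1)) * (starRingEnd ℂ) (w n)

/-- difference operator on the frequencies -/
def dA (l : ℕ) (a : ℕ → ℝ) : ℕ → ℝ := fun n => a (n + (l + 1)) - a n

/-- iterated -/
def DW (L : List ℕ) (w : ℕ → ℂ) : ℕ → ℂ := L.foldr dW w

/-- iterated -/
def DA (L : List ℕ) (a : ℕ → ℝ) : ℕ → ℝ := L.foldr dA a

lemma DW_le (L : List ℕ) (w : ℕ → ℂ) (hw : ∀ n, ‖w n‖ ≤ 1) : ∀ n, ‖DW L w n‖ ≤ 1 := by
  induction L with
  | nil => exact hw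
  | cons l L ih =>
    intro n
    change ‖DW L w (n + (l + 1)) * (starRingEnd ℂ) (DW L w n)‖ ≤ 1
    rw [norm_mul, RCLike.norm_conj]
    exact mul_le_one₀ (ih _) (norm_nonneg _) (ih _)

lemma DA_tendsto (β : ℝ) (hβ : 1 < β) (L : List ℕ) (a : ℕ → ℝ) (t : ℝ) (ht : t ≠ 0)
    (ha : Tendsto (fun n => a n / β ^ n) atTop (𝓝 t)) :
    ∃ t' : ℝ, t' ≠ 0 ∧ Tendsto (fun n => DA L a n / β ^ n) atTop (𝓝 t') := by
  induction L with
  | nil => exact ⟨t, ht, ha⟩
  | cons l L ih =>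
    obtain ⟨t', ht', h⟩ := ih
    refine ⟨β ^ (l + 1) * t' - t', ?_, ?_⟩
    · have h1 : 1 < β ^ (l + 1) := one_lt_pow₀ hβ (by omega)
      have h2 : β ^ (l + 1) * t' - t' = (β ^ (l + 1) - 1) * t' := by ring
      rw [h2]
      exact mul_ne_zero (by linarith) ht'
    · have h1 : Tendsto (fun n => DA L a (n + (l + 1)) / β ^ (n + (l + 1))) atTop (𝓝 t') :=
        h.comp (tendsto_add_atTop_nat (l + 1))
      have h2 := (h1.const_mul (β ^ (l + 1))).sub h
      refine h2.congr fun n => ?_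
      change β ^ (l + 1) * (DA L a (n + (l + 1)) / β ^ (n + (l + 1))) - DA L a n / β ^ n =
        (DA L a (n + (l + 1)) - DA L a n) / β ^ n
      have h3 : β ^ n ≠ 0 := (pow_pos (by linarith) n).ne'
      have h4 : β ^ (l + 1) ≠ 0 := (pow_pos (by linarith) _).ne'
      rw [pow_add β n (l + 1)]
      field_simp

lemma small_poly (x : ℝ) (w : ℕ → ℂ) (a : ℕ → ℝ) (hw : ∀ n, ‖w n‖ ≤ 1)
    (h0 : ∀ L : List ℕ, Small (fun N : ℕ => ∑ n ∈ range N, DW L w n * e (DA L a n * x))) (D : ℕ) :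
    ∀ (L : List ℕ) (Q : Polynomial ℝ), Q.natDegree ≤ D →
      Small (fun N : ℕ => ∑ n ∈ range N, DW L w n * e (DA L a n * x + Q.eval (n : ℝ))) := by
  induction D with
  | zero =>
    intro L Q hQ
    have hC : Q = Polynomial.C (Q.coeff 0) := Polynomial.eq_C_of_natDegree_le_zero hQ
    have h1 := h0 L
    unfold VdcAux.Small at h1 ⊢
    refine h1.congr fun N => ?_
    congr 1
    have h2 : ∑ n ∈ range N, DW L w n * e (DA L a n * x + Q.eval (n : ℝ)) =
        e (Q.coeff 0) * ∑ n ∈ range N, DW L w n * e (DA L a n * x) := by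
      rw [mul_sum]
      refine Finset.sum_congr rfl fun n _ => ?_
      rw [hC, Polynomial.eval_C, Polynomial.coeff_C_zero, e_add]
      ring
    change ‖∑ n ∈ range N, DW L w n * e (DA L a n * x)‖ =
      ‖∑ n ∈ range N, DW L w n * e (DA L a n * x + Q.eval (n : ℝ))‖
    rw [h2, norm_mul, norm_e, one_mul]
  | succ D ih =>
    intro L Q hQ
    refine VdcAux.small_of_diff (fun n => DW L w n * e (DA L a n * x + Q.eval (n : ℝ))) (fun n => ?_) ?_
    · rw [norm_mul, norm_e, mul_one]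
      exact DW_le L w hw n
    intro l hl
    obtain ⟨l', rfl⟩ : ∃ l', l = l' + 1 := ⟨l - 1, by omega⟩
    have h1 := ih (l' :: L) (Q.comp (Polynomial.X + Polynomial.C ((l' + 1 : ℕ) : ℝ)) - Q)
      (VdcAux.diff_natDegree Q _ D hQ)
    have h2 : (fun M => ∑ n ∈ range M, (fun n : ℕ => DW L w n * e (DA L a n * x + Q.eval (n : ℝ))) (n + (l' + 1)) *
        (starRingEnd ℂ) ((fun n : ℕ => DW L w n * e (DA L a n * x + Q.eval (n : ℝ))) n)) =
        fun M => ∑ n ∈ range M, DW (l' :: L) w n * e (DA (l' :: L) a n * x +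
          (Q.comp (Polynomial.X + Polynomial.C ((l' + 1 : ℕ) : ℝ)) - Q).eval (n : ℝ)) := by
      funext M
      refine Finset.sum_congr rfl fun n _ => ?_
      change DW L w (n + (l' + 1)) * e (DA L a (n + (l' + 1)) * x + Q.eval (((n + (l' + 1) : ℕ)) : ℝ)) *
        (starRingEnd ℂ) (DW L w n * e (DA L a n * x + Q.eval (n : ℝ))) =
        (DW L w (n + (l' + 1)) * (starRingEnd ℂ) (DW L w n)) * e ((DA L a (n + (l' + 1)) - DA L a n) * x +
          (Q.comp (Polynomial.X + Polynomial.C ((l' + 1 : ℕ) : ℝ)) - Q).eval (n : ℝ))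
      have h3 : (Q.comp (Polynomial.X + Polynomial.C ((l' + 1 : ℕ) : ℝ)) - Q).eval (n : ℝ) =
          Q.eval (((n + (l' + 1) : ℕ)) : ℝ) - Q.eval (n : ℝ) := by
        rw [Polynomial.eval_sub, Polynomial.eval_comp, Polynomial.eval_add, Polynomial.eval_X, Polynomial.eval_C]
        push_cast
        ring
      have h4 : e ((DA L a (n + (l' + 1)) - DA L a n) * x + (Q.eval (((n + (l' + 1) : ℕ)) : ℝ) - Q.eval (n : ℝ))) =
          e (DA L a (n + (l' + 1)) * x + Q.eval (((n + (l' + 1) : ℕ)) : ℝ)) *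
            (starRingEnd ℂ) (e (DA L a n * x + Q.eval (n : ℝ))) := by
        rw [← e_neg, ← e_add]
        congr 1
        ring
      rw [h3, h4, map_mul]
      ring
    rw [h2]
    exact h1

/-! ### equidistribution along a set -/

open scoped Classical in
/-- equidistribution along `S` from the exponential sums -/
lemma equi_S (S : Set ℕ) (f : ℕ → ℝ)
    (h : ∀ h : ℕ, 1 ≤ h → Small (fun N : ℕ => ∑ n ∈ range N, (if n ∈ S then (1 : ℂ) else 0) * e (h * f n)))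
    (u v : ℝ) (hu : 0 ≤ u) (huv : u ≤ v) (hv : v ≤ 1) :
    Tendsto (fun N : ℕ => ((((Icc 1 N).filter (fun n : ℕ => n ∈ S ∧ Int.fract (f n) ∈ Set.Ico u v)).card : ℝ) -
      (v - u) * ((Icc 1 N).filter (fun n : ℕ => n ∈ S)).card) / N) atTop (𝓝 0) := by
  rw [Metric.tendsto_atTop]
  intro ε hε
  obtain ⟨K, hK⟩ := exists_nat_gt (56 / ε)
  have hK0 : (0 : ℝ) < K := lt_trans (by positivity) hK
  have hK1 : 1 ≤ K := by exact_mod_cast hK0
  set δ : ℝ := ε / (8 * (K : ℝ) ^ 3) with hδ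
  have hδ0 : 0 < δ := by positivity
  have hev : ∀ᶠ N : ℕ in atTop, ∀ h' ∈ Ico 1 (K ^ 3),
      ‖∑ n ∈ range (N + 1), (if n ∈ S then (1 : ℂ) else 0) * e (h' * f n)‖ + 1 ≤ 2 * δ * N := by
    rw [Filter.eventually_all_finset]
    intro h' hh'
    have h1 := (h h' (mem_Ico.1 hh').1)
    unfold VdcAux.Small at h1
    have h2 : ∀ᶠ N : ℕ in atTop, ‖∑ n ∈ range (N + 1), (if n ∈ S then (1 : ℂ) else 0) * e (h' * f n)‖ /
        ((N + 1 : ℕ) : ℝ) < δ := (h1.comp (tendsto_add_atTop_nat 1)).eventually (gt_mem_nhds hδ0)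
    obtain ⟨N1, hN1⟩ := exists_nat_gt ((δ + 1) / δ)
    filter_upwards [h2, eventually_ge_atTop N1] with N hN hNN
    rw [div_lt_iff₀ (by positivity)] at hN
    push_cast at hN
    have h3 : (δ + 1) / δ < N := hN1.trans_le (by exact_mod_cast hNN)
    rw [div_lt_iff₀ hδ0] at h3
    nlinarith
  obtain ⟨N0, hN0⟩ := eventually_atTop.1 hev
  refine ⟨max N0 1, fun N hN => ?_⟩
  have hNN0 : N0 ≤ N := le_trans (le_max_left _ _) hN
  have hNpos : 0 < N := lt_of_lt_of_le one_pos (le_trans (le_max_right _ _) hN)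
  have hN0' : (0 : ℝ) < N := by exact_mod_cast hNpos
  have h1 := hN0 N hNN0
  set s := (Icc 1 N).filter (fun n : ℕ => n ∈ S) with hs
  have hE : ∀ h' : ℕ, 1 ≤ h' → h' < K ^ 3 → ‖∑ i ∈ s, Pool.Agent.H469R2.NK.e (h' * f i)‖ ≤ 2 * δ * N := by
    intro h' hh1 hh2
    have h2 := h1 h' (mem_Ico.2 ⟨hh1, hh2⟩)
    have h3 : ∑ n ∈ range (N + 1), (if n ∈ S then (1 : ℂ) else 0) * e (h' * f n) =
        ∑ i ∈ s, Pool.Agent.H469R2.NK.e (h' * f i) + (if 0 ∈ S then (1 : ℂ) else 0) * e (h' * f 0) := by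
      rw [hs, sum_filter, range_eq_Ico, sum_eq_sum_Ico_succ_bot (by omega : 0 < N + 1), add_comm]
      congr 1
      have : Ico (0 + 1) (N + 1) = Icc 1 N := by ext n; simp only [mem_Ico, mem_Icc]; omega
      rw [this]
      refine sum_congr rfl fun n _ => ?_
      split_ifs
      · rw [one_mul]; rfl
      · rw [zero_mul]
    have h4 : ‖(if 0 ∈ S then (1 : ℂ) else 0) * e (h' * f 0)‖ ≤ 1 := by
      rw [norm_mul, norm_e, mul_one]
      split_ifs <;> simp
    have h5 : ∑ i ∈ s, Pool.Agent.H469R2.NK.e (h' * f i) =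
        ∑ n ∈ range (N + 1), (if n ∈ S then (1 : ℂ) else 0) * e (h' * f n) -
          (if 0 ∈ S then (1 : ℂ) else 0) * e (h' * f 0) := by rw [h3]; ring
    rw [h5]
    refine (norm_sub_le _ _).trans ?_
    linarith
  have h2 := Pool.Agent.TH915.PW.disc s f K hK1 (2 * δ * N) (by positivity) hE u v hu huv hv
  have h3 : s.filter (fun i => u ≤ Int.fract (f i) ∧ Int.fract (f i) < v) =
      (Icc 1 N).filter (fun n : ℕ => n ∈ S ∧ Int.fract (f n) ∈ Set.Ico u v) := by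
    rw [hs, filter_filter]
    rfl
  rw [h3] at h2
  have hcard : (s.card : ℝ) ≤ N := by
    have : s.card ≤ (Icc 1 N).card := card_le_card (filter_subset _ _)
    rw [Nat.card_Icc] at this
    exact_mod_cast (by omega : s.card ≤ N)
  rw [Real.dist_eq, sub_zero, abs_div, abs_of_pos hN0', div_lt_iff₀ hN0']
  have h4 : 14 * (s.card : ℝ) / K ≤ ε / 4 * N := by
    rw [div_le_iff₀ hK0]
    rw [div_lt_iff₀ hε] at hK
    nlinarith
  have h5 : 2 * ((K : ℝ) ^ 3 * (2 * δ * N)) = ε / 2 * N := by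
    rw [hδ]
    field_simp
    ring
  have h6 : |(((Icc 1 N).filter (fun n : ℕ => n ∈ S ∧ Int.fract (f n) ∈ Set.Ico u v)).card : ℝ) - (v - u) * s.card| ≤
      ε / 4 * N + ε / 2 * N := by
    rw [mul_comm (v - u)]
    linarith
  have : ε / 4 * N + ε / 2 * N < ε * N := by nlinarith
  linarith

open scoped Classical in
/-- **The general theorem.** -/
theorem main (b : ℕ) (hb : 2 ≤ b) (μ : Measure ℝ) [IsProbabilityMeasure μ]
    (hμ : Ergodic (Tb b) μ) (c₀ : ℝ) (hc₀ : 0 < c₀) (hent : ∀ n : ℕ, c₀ * n ≤ En b μ n)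
    (β : ℝ) (hβ : 1 < β) (hind : ∀ m k : ℕ, 1 ≤ m → β ^ m ≠ (b : ℝ) ^ k) (t : ℝ) (ht : t ≠ 0) (a c : ℕ → ℝ)
    (ha : Tendsto (fun n => a n / β ^ n) atTop (𝓝 t)) (S : Set ℕ) :
    ∀ᵐ x ∂μ, ∀ Q : Polynomial ℝ, ∀ u v : ℝ, 0 ≤ u → u ≤ v → v ≤ 1 →
      Tendsto (fun N : ℕ => ((((Icc 1 N).filter (fun n : ℕ => n ∈ S ∧
        Int.fract (a n * x + c n + Q.eval (n : ℝ)) ∈ Set.Ico u v)).card : ℝ) -
        (v - u) * ((Icc 1 N).filter (fun n : ℕ => n ∈ S)).card) / N) atTop (𝓝 0) := by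
  have : NeZero b := ⟨by omega⟩
  have hirr : Irrational (Real.logb b β) := t_IND.1 b β hb hβ hind
  set w : ℕ → ℕ → ℂ := fun h n => (if n ∈ S then (1 : ℂ) else 0) * e (h * c n) with hw
  have hw1 : ∀ h n, ‖w h n‖ ≤ 1 := by
    intro h n
    simp only [hw]
    rw [norm_mul, norm_e, mul_one]
    split_ifs <;> simp
  have hall : ∀ᵐ x ∂μ, ∀ (h : ℕ) (L : List ℕ), 1 ≤ h →
      Small (fun N : ℕ => ∑ n ∈ range N, DW L (w h) n * e (DA L (fun n => h * a n) n * x)) := by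
    rw [ae_all_iff]
    intro h
    rw [ae_all_iff]
    intro L
    by_cases hh : 1 ≤ h
    · have hh0 : (h : ℝ) ≠ 0 := by exact_mod_cast (by omega : h ≠ 0)
      have h1 : Tendsto (fun n => (fun n => (h : ℝ) * a n) n / β ^ n) atTop (𝓝 (h * t)) := by
        refine (ha.const_mul (h : ℝ)).congr fun n => ?_
        ring
      obtain ⟨t', ht', h2⟩ := DA_tendsto β hβ L (fun n => (h : ℝ) * a n) (h * t) (mul_ne_zero hh0 ht) h1
      filter_upwards [linearC hb μ hμ c₀ hc₀ hent β hβ hirr t' ht' _ h2 _ (DW_le L (w h) (hw1 h))] with x hx _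
      exact hx
    · exact Eventually.of_forall fun x h3 => absurd h3 hh
  filter_upwards [hall] with x hx Q u v hu huv hv
  refine equi_S S (fun n => a n * x + c n + Q.eval (n : ℝ)) ?_ u v hu huv hv
  intro h hh
  have h1 := small_poly x (w h) (fun n => h * a n) (hw1 h) (fun L => hx h L hh)
    (Polynomial.C (h : ℝ) * Q).natDegree [] (Polynomial.C (h : ℝ) * Q) le_rfl
  unfold VdcAux.Small at h1 ⊢
  refine h1.congr fun N => ?_
  congr 2
  refine sum_congr rfl fun n _ => ?_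
  change ((if n ∈ S then (1 : ℂ) else 0) * e (h * c n)) * e ((h * a n) * x + (Polynomial.C (h : ℝ) * Q).eval (n : ℝ)) =
    (if n ∈ S then (1 : ℂ) else 0) * e (h * (a n * x + c n + Q.eval (n : ℝ)))
  rw [mul_assoc, ← e_add, Polynomial.eval_mul, Polynomial.eval_C]
  congr 2
  ring

end Pool.Agent.T3H29.HR
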