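import Pool.Agent.T3H29.HR.LL2

/-! # The natural extension of a stationary process -/

set_option autoImplicit false

namespace Pool.Agent.T3H29.HR

open MeasureTheory ProbabilityTheory Filter Topology

variable {b : ℕ}

/-- the one-sided shift -/
def s1 (y : ℕ → Fin b) : ℕ → Fin b := fun i => y (i + 1)

lemma s1_meas : Measurable (s1 (b := b)) := measurable_pi_lambda _ fun _ => measurable_pi_apply _

lemma s1_iter (n : ℕ) (y : ℕ → Fin b) : s1^[n] y = fun i => y (i + n) := by
  induction n generalizing y with
  | zero => rfl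
  | succ n ih =>
    rw [Function.iterate_succ_apply, ih]
    funext i
    unfold s1
    congr 1

/-- the coordinates from `1 - n` on -/
def fu (n : ℕ) (ω : ℤ → Fin b) : ℕ → Fin b := fut (sh (-(n : ℤ)) ω)

lemma fu_meas (n : ℕ) : Measurable (fu (b := b) n) := fut_meas.comp (sh_meas _)

lemma fu_cont (n : ℕ) : Continuous (fu (b := b) n) :=
  continuous_pi fun _ => continuous_apply _

/-- two measures with the same marginals on all half-lines are equal -/
lemma uniq (P P' : Measure (ℤ → Fin b)) [IsProbabilityMeasure P] [IsProbabilityMeasure P']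
    (h : ∀ n : ℕ, P.map (fu n) = P'.map (fu n)) : P = P' := by
  set C : Set (Set (ℤ → Fin b)) := {A | ∃ (n : ℕ) (B : Set (ℕ → Fin b)), MeasurableSet B ∧ fu n ⁻¹' B = A} with hC
  have hmono : ∀ m n : ℕ, m ≤ n → ∀ ω : ℤ → Fin b, fu m ω = s1^[n - m] (fu n ω) := by
    intro m n hmn ω
    rw [s1_iter]
    funext i
    unfold fu fut sh
    congr 1
    push_cast [hmn]
    ring
  have hpi : IsPiSystem C := by
    rintro _ ⟨m, B, hB, rfl⟩ _ ⟨n, B', hB', rfl⟩ _
    refine ⟨max m n, (s1^[max m n - m] ⁻¹' B) ∩ (s1^[max m n - n] ⁻¹' B'), ?_, ?_⟩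
    · exact ((s1_meas.iterate _) hB).inter ((s1_meas.iterate _) hB')
    · ext ω
      simp only [Set.mem_preimage, Set.mem_inter_iff]
      rw [← hmono m _ (le_max_left _ _), ← hmono n _ (le_max_right _ _)]
  have hgen : (inferInstance : MeasurableSpace (ℤ → Fin b)) = MeasurableSpace.generateFrom C := by
    apply le_antisymm
    · rw [MeasurableSpace.pi]
      refine iSup_le fun i => ?_
      rintro _ ⟨s, hs, rfl⟩
      refine MeasurableSpace.measurableSet_generateFrom ⟨(-i).toNat + 1, {y | y (i + (-i).toNat).toNat ∈ s}, ?_, ?_⟩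
      · exact (measurable_pi_apply _) hs
      · ext ω
        have : fu ((-i).toNat + 1) ω (i + (-i).toNat).toNat = ω i := by
          unfold fu fut sh
          congr 1
          push_cast
          omega
        change fu ((-i).toNat + 1) ω (i + (-i).toNat).toNat ∈ s ↔ _
        rw [this]
        rfl
    · rw [MeasurableSpace.generateFrom_le_iff]
      rintro _ ⟨n, B, hB, rfl⟩
      exact (fu_meas n) hB
  refine ext_of_generate_finite C hgen hpi ?_ (by simp)
  rintro _ ⟨n, B, hB, rfl⟩
  rw [← Measure.map_apply (fu_meas n) hB, ← Measure.map_apply (fu_meas n) hB, h n]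

lemma map_fu_of_inv [NeZero b] (P : Measure (ℤ → Fin b)) [IsProbabilityMeasure P]
    (hP : MeasurePreserving (sh (b := b) 1) P P) (n : ℕ) : P.map (fu n) = P.map fut := by
  have h := sh_mp P hP n
  conv_lhs => rw [← h.map_eq]
  rw [Measure.map_map (fu_meas n) (sh_meas _)]
  congr 1
  funext ω
  simp only [Function.comp]
  unfold fu
  rw [sh_comp, neg_add_cancel, sh_zero]

lemma uniq_inv [NeZero b] (P P' : Measure (ℤ → Fin b)) [IsProbabilityMeasure P] [IsProbabilityMeasure P']
    (hP : MeasurePreserving (sh (b := b) 1) P P) (hP' : MeasurePreserving (sh (b := b) 1) P' P')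
    (h : P.map fut = P'.map fut) : P = P' :=
  uniq P P' fun n => by rw [map_fu_of_inv P hP, map_fu_of_inv P' hP', h]

/-- embedding of a one-sided sequence, the coordinates from `1 - n` on -/
def emb (n : ℕ) (y : ℕ → Fin b) : ℤ → Fin b := fun i => y (i + n - 1).toNat

lemma emb_meas (n : ℕ) : Measurable (emb (b := b) n) :=
  measurable_pi_lambda _ fun _ => measurable_pi_apply _

lemma fu_emb (m n : ℕ) (h : m ≤ n) (y : ℕ → Fin b) : fu m (emb n y) = s1^[n - m] y := by
  rw [s1_iter]
  funext i
  unfold fu fut sh emb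
  congr 1
  omega

/-- the natural extension -/
theorem exists_ext [NeZero b] (ν : Measure (ℕ → Fin b)) [IsProbabilityMeasure ν]
    (hν : MeasurePreserving (s1 (b := b)) ν ν) :
    ∃ P : Measure (ℤ → Fin b), IsProbabilityMeasure P ∧ MeasurePreserving (sh (b := b) 1) P P ∧ P.map fut = ν := by
  have hprob : ∀ n : ℕ, IsProbabilityMeasure (ν.map (emb (b := b) n)) := fun n =>
    Measure.isProbabilityMeasure_map (emb_meas n).aemeasurable
  let Pn : ℕ → ProbabilityMeasure (ℤ → Fin b) := fun n => ⟨ν.map (emb n), hprob n⟩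
  let U : Ultrafilter ℕ := Filter.hyperfilter ℕ
  have hU : (U : Filter ℕ) ≤ atTop := by
    rw [← Nat.cofinite_eq_atTop]
    exact Filter.hyperfilter_le_cofinite
  obtain ⟨P, _, hP⟩ := isCompact_univ.ultrafilter_le_nhds (U.map Pn) (by simp)
  have hlim : Tendsto Pn U (𝓝 P) := hP
  have key : ∀ m : ℕ, (P : Measure (ℤ → Fin b)).map (fu m) = ν := by
    intro m
    have h1 := ProbabilityMeasure.tendsto_map_of_tendsto_of_continuous Pn P hlim (fu_cont m)
    have h2 : ∀ᶠ n in (U : Filter ℕ), (Pn n).map (fu_cont (b := b) m).measurable.aemeasurable =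
        (⟨ν, inferInstance⟩ : ProbabilityMeasure (ℕ → Fin b)) := by
      refine hU (eventually_atTop.2 ⟨m, fun n hn => ?_⟩)
      apply Subtype.ext
      change (ν.map (emb n)).map (fu m) = ν
      rw [Measure.map_map (fu_meas m) (emb_meas n)]
      have : fu m ∘ emb (b := b) n = s1^[n - m] := by
        funext y
        exact fu_emb m n hn y
      rw [this]
      exact (hν.iterate (n - m)).map_eq
    have h3 := tendsto_nhds_unique h1 (tendsto_const_nhds.congr' (h2.mono fun n hn => hn.symm))
    exact congrArg (fun Q : ProbabilityMeasure (ℕ → Fin b) => (Q : Measure (ℕ → Fin b))) h3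
  have hprobP : IsProbabilityMeasure (P : Measure (ℤ → Fin b)) := inferInstance
  have hprob1 : IsProbabilityMeasure ((P : Measure (ℤ → Fin b)).map (sh 1)) :=
    Measure.isProbabilityMeasure_map (sh_meas 1).aemeasurable
  refine ⟨P, hprobP, ⟨sh_meas 1, ?_⟩, ?_⟩
  · refine uniq _ _ fun n => ?_
    rw [key n, Measure.map_map (fu_meas n) (sh_meas 1)]
    rcases n with _ | n
    · have : fu 0 ∘ sh (b := b) 1 = s1 ∘ fu 0 := by
        funext ω i
        simp only [Function.comp]
        unfold fu fut sh s1
        congr 1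
      rw [this, ← Measure.map_map s1_meas (fu_meas 0), key 0, hν.map_eq]
    · have : fu (n + 1) ∘ sh (b := b) 1 = fu n := by
        funext ω i
        simp only [Function.comp]
        unfold fu fut sh
        congr 1
        push_cast
        ring
      rw [this, key n]
  · have := key 0
    have h0 : fu (b := b) 0 = fut := by
      funext ω
      unfold fu
      simp [sh_zero]
    rwa [h0] at this

/-- the natural extension of an ergodic process is ergodic -/
theorem ext_ergodic [NeZero b] (P : Measure (ℤ → Fin b)) [IsProbabilityMeasure P]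
    (hP : MeasurePreserving (sh (b := b) 1) P P) (hν : Ergodic (s1 (b := b)) (P.map fut)) :
    Ergodic (sh (b := b) 1) P := by
  refine ⟨hP, ⟨fun A hA hinv => ?_⟩⟩
  by_cases h0 : P A = 0
  · rw [eventuallyConst_set']
    left
    exact ae_eq_empty.2 h0
  rw [eventuallyConst_set']
  right
  -- the conditional measure
  have hPA : IsProbabilityMeasure (cond P A) := cond_isProbabilityMeasure h0
  have hmp : MeasurePreserving (sh (b := b) 1) (cond P A) (cond P A) := by
    refine ⟨sh_meas 1, ?_⟩
    ext S hS
    rw [Measure.map_apply (sh_meas 1) hS, cond_apply hA, cond_apply hA]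
    congr 1
    have h1 : A ∩ sh 1 ⁻¹' S = sh 1 ⁻¹' (A ∩ S) := by rw [Set.preimage_inter, hinv]
    rw [h1, hP.measure_preimage (hA.inter hS).nullMeasurableSet]
  have hac : (cond P A).map fut ≪ P.map fut := (cond_absolutelyContinuous).map fut_meas
  have hpm1 : IsProbabilityMeasure ((cond P A).map fut) := Measure.isProbabilityMeasure_map fut_meas.aemeasurable
  have hpm2 : IsProbabilityMeasure (P.map (fut (b := b))) := Measure.isProbabilityMeasure_map fut_meas.aemeasurable
  have hsemi : fut ∘ sh (b := b) 1 = s1 ∘ fut := by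
    funext ω i
    simp only [Function.comp]
    unfold fut sh s1
    congr 1
  have hmp' : MeasurePreserving (s1 (b := b)) ((cond P A).map fut) ((cond P A).map fut) := by
    refine ⟨s1_meas, ?_⟩
    rw [Measure.map_map s1_meas fut_meas, ← hsemi, ← Measure.map_map fut_meas (sh_meas 1), hmp.map_eq]
  have heq := hν.eq_of_absolutelyContinuous hmp' hac
  have hPeq := uniq_inv (cond P A) P hmp hP heq
  have : P Aᶜ = 0 := by
    rw [← hPeq, cond_apply hA]
    simp
  exact ae_eq_univ.2 this

end Pool.Agent.T3H29.HR
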