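import Pool.Agent.T3H29.HR.LL1

/-! # Orthogonality to the past, and the splitting of the expansion -/

set_option autoImplicit false

namespace Pool.Agent.T3H29.HR

open MeasureTheory ProbabilityTheory Filter Topology Finset

variable {b : ℕ}

/-- the first `j` digits, read off from the past of the shifted point -/
noncomputable def qq (j : ℕ) (π : ℕ → Fin b) : ℝ :=
  ∑ i ∈ range j, (((π (j - 1 - i) : Fin b) : ℕ) : ℝ) / (b : ℝ) ^ (i + 1)

lemma qq_meas (j : ℕ) : Measurable (qq (b := b) j) := by
  unfold qq
  refine Finset.measurable_fun_sum _ fun i _ => ?_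
  have h2 : Measurable fun k : Fin b => ((k : ℕ) : ℝ) / (b : ℝ) ^ (i + 1) := measurable_of_finite _
  exact h2.comp (measurable_pi_apply _)

lemma val_split (hb : 2 ≤ b) (j : ℕ) (ω : ℤ → Fin b) :
    val (fut ω) = qq j (past (sh (j : ℤ) ω)) + val (fut (sh (j : ℤ) ω)) / (b : ℝ) ^ j := by
  have h := (summable_val hb (fut ω)).sum_add_tsum_nat_add j
  unfold val
  rw [← h]
  congr 1
  · unfold qq
    refine sum_congr rfl fun i hi => ?_
    have hi := mem_range.1 hi
    have : fut ω i = past (sh (j : ℤ) ω) (j - 1 - i) := by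
      unfold fut past sh
      congr 1
      omega
    rw [this]
  · rw [← tsum_div_const]
    refine tsum_congr fun i => ?_
    have : fut ω (i + j) = fut (sh (j : ℤ) ω) i := by
      unfold fut sh
      congr 1
      push_cast
      ring
    rw [this, div_div, ← pow_add]
    congr 2
    ring

lemma past_sh (m n : ℕ) (h : m ≤ n) (ω : ℤ → Fin b) :
    past (sh (m : ℤ) ω) = fun i => past (sh (n : ℤ) ω) (i + (n - m)) := by
  funext i
  unfold past sh
  congr 1
  push_cast [h]
  ring

lemma sh_comp (k l : ℤ) (ω : ℤ → Fin b) : sh k (sh l ω) = sh (k + l) ω := by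
  funext i
  unfold sh
  congr 1
  ring

lemma sh_zero (ω : ℤ → Fin b) : sh 0 ω = ω := by
  funext i
  unfold sh
  congr 1
  ring

variable [NeZero b] (P : Measure (ℤ → Fin b)) [IsProbabilityMeasure P]

lemma sh_mp (hP : MeasurePreserving (sh (b := b) 1) P P) (j : ℕ) : MeasurePreserving (sh (b := b) (j : ℤ)) P P := by
  induction j with
  | zero =>
    have : sh (b := b) ((0 : ℕ) : ℤ) = id := by funext ω; exact sh_zero ω
    rw [this]
    exact MeasurePreserving.id P
  | succ j ih =>
    have : sh (b := b) ((j + 1 : ℕ) : ℤ) = sh 1 ∘ sh (j : ℤ) := by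
      funext ω
      simp only [Function.comp]
      rw [sh_comp]
      congr 1
      push_cast
      ring
    rw [this]
    exact hP.comp ih

lemma cond_int (H F : (ℕ → Fin b) → ℂ) (hH : Measurable H) (hF : Measurable F) (C : ℝ) (hHb : ∀ π, ‖H π‖ ≤ C)
    (hFb : ∀ y, ‖F y‖ ≤ C) :
    ∫ ω, H (past ω) * F (fut ω) ∂P =
      ∫ ω, H (past ω) * (∫ y, F y ∂(condDistrib (fut (b := b)) (past (b := b)) P (past ω))) ∂P := by
  have hm : StronglyMeasurable (fun p : (ℕ → Fin b) × (ℕ → Fin b) => H p.1 * F p.2) :=
    ((hH.comp measurable_fst).mul (hF.comp measurable_snd)).stronglyMeasurable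
  have hint : Integrable (fun ω : ℤ → Fin b => (fun p : (ℕ → Fin b) × (ℕ → Fin b) => H p.1 * F p.2) (past ω, fut ω)) P := by
    refine Integrable.of_bound (C := C * C) ?_ (Eventually.of_forall fun ω => ?_)
    · exact (hm.measurable.comp (past_meas.prodMk fut_meas)).aestronglyMeasurable
    · rw [norm_mul]
      exact mul_le_mul (hHb _) (hFb _) (norm_nonneg _) ((norm_nonneg _).trans (hHb (past ω)))
  have h1 := condExp_prod_ae_eq_integral_condDistrib (past_meas (b := b)) (fut_meas (b := b)).aemeasurable hm hint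
  have h2 := integral_condExp (μ := P) (m := MeasurableSpace.comap (past (b := b)) inferInstance)
    (past_meas (b := b)).comap_le (f := fun ω : ℤ → Fin b => H (past ω) * F (fut ω))
  rw [← h2, integral_congr_ae h1]
  refine integral_congr_ae (Eventually.of_forall fun ω => ?_)
  simp only
  rw [integral_const_mul]

lemma orth (H F : (ℕ → Fin b) → ℂ) (hH : Measurable H) (hF : Measurable F) (C : ℝ) (hHb : ∀ π, ‖H π‖ ≤ C)
    (hFb : ∀ y, ‖F y‖ ≤ C) :
    ∫ ω, H (past ω) * (F (fut ω) - ∫ y, F y ∂(condDistrib (fut (b := b)) (past (b := b)) P (past ω))) ∂P = 0 := by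
  have hC : 0 ≤ C := (norm_nonneg _).trans (hHb (fun _ => 0))
  have hm : Measurable (fun π : ℕ → Fin b => ∫ y, F y ∂(condDistrib (fut (b := b)) (past (b := b)) P π)) :=
    ((hF.comp measurable_snd).stronglyMeasurable.integral_kernel_prod_right'
      (κ := condDistrib (fut (b := b)) (past (b := b)) P)).measurable
  have i1 : Integrable (fun ω : ℤ → Fin b => H (past ω) * F (fut ω)) P := by
    refine Integrable.of_bound (C := C * C) ((hH.comp past_meas).mul (hF.comp fut_meas)).aestronglyMeasurable
      (Eventually.of_forall fun ω => ?_)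
    rw [norm_mul]
    exact mul_le_mul (hHb _) (hFb _) (norm_nonneg _) hC
  have i2 : Integrable (fun ω : ℤ → Fin b => H (past ω) *
      (∫ y, F y ∂(condDistrib (fut (b := b)) (past (b := b)) P (past ω)))) P := by
    refine Integrable.of_bound (C := C * C) ((hH.comp past_meas).mul (hm.comp past_meas)).aestronglyMeasurable
      (Eventually.of_forall fun ω => ?_)
    rw [norm_mul]
    refine mul_le_mul (hHb _) ?_ (norm_nonneg _) hC
    refine (norm_integral_le_of_norm_le_const (Eventually.of_forall hFb)).trans ?_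
    simp
  simp only [mul_sub]
  rw [integral_sub i1 i2, cond_int P H F hH hF C hHb hFb, sub_self]

end Pool.Agent.T3H29.HR
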