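import Pool.Agent.T3H29.HR.LL2

/-! # Law of large numbers, general sequences and weights -/

set_option autoImplicit false

namespace Pool.Agent.T3H29.HR

open MeasureTheory ProbabilityTheory Filter Topology Finset

variable {b : ℕ}

/-- correlation of a bounded function with small dependence on the future and an increment -/
lemma corr' [NeZero b] (P : Measure (ℤ → Fin b)) [IsProbabilityMeasure P]
    (hP : MeasurePreserving (sh (b := b) 1) P P) (J : ℕ) (D : (ℤ → Fin b) → ℂ) (hD : Measurable D)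
    (H G F : (ℕ → Fin b) → ℂ) (hH : Measurable H) (hG : Measurable G) (hF : Measurable F)
    (hHb : ∀ π, ‖H π‖ ≤ 2) (hGb : ∀ π, ‖G π‖ ≤ 1) (hFb : ∀ y, ‖F y‖ ≤ 1) (δ : ℝ) (hδ : 0 ≤ δ)
    (hDH : ∀ ω, ‖D ω - H (past (sh (J : ℤ) ω))‖ ≤ δ) :
    ‖∫ ω, D ω * (starRingEnd ℂ) (G (past (sh (J : ℤ) ω)) * F (fut (sh (J : ℤ) ω)) -
      G (past (sh (J : ℤ) ω)) * ∫ y, F y ∂(condDistrib (fut (b := b)) (past (b := b)) P (past (sh (J : ℤ) ω)))) ∂P‖
      ≤ 2 * δ := by
  set κ := condDistrib (fut (b := b)) (past (b := b)) P with hκ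
  have hmp := sh_mp P hP J
  have hconj : Measurable (starRingEnd ℂ) := Complex.continuous_conj.measurable
  have hIm : Measurable (fun π : ℕ → Fin b => ∫ y, F y ∂(κ π)) :=
    ((hF.comp measurable_snd).stronglyMeasurable.integral_kernel_prod_right' (κ := κ)).measurable
  have hIb : ∀ π, ‖∫ y, F y ∂(κ π)‖ ≤ 1 := by
    intro π
    refine (norm_integral_le_of_norm_le_const (C := 1) (Eventually.of_forall fun y => hFb y)).trans ?_
    simp
  -- the increment
  set E : (ℤ → Fin b) → ℂ := fun ω => (starRingEnd ℂ) (G (past ω) * F (fut ω) - G (past ω) * ∫ y, F y ∂(κ (past ω)))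
    with hE
  have hEm : Measurable E := hconj.comp (((hG.comp past_meas).mul (hF.comp fut_meas)).sub
    ((hG.comp past_meas).mul (hIm.comp past_meas)))
  have hEb : ∀ ω, ‖E ω‖ ≤ 2 := by
    intro ω
    rw [hE]
    simp only
    rw [RCLike.norm_conj]
    refine (norm_sub_le _ _).trans ?_
    rw [norm_mul, norm_mul]
    have h1 := hIb (past ω)
    have h2 := hGb (past ω)
    have h3 := hFb (fut ω)
    have h4 := mul_le_one₀ h2 (norm_nonneg _) h3
    have h5 := mul_le_one₀ h2 (norm_nonneg _) h1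
    linarith
  have hE0 : ∫ ω, H (past ω) * E ω ∂P = 0 := by
    have h := orth P (fun π => H π * (starRingEnd ℂ) (G π)) (fun y => (starRingEnd ℂ) (F y))
      (hH.mul (hconj.comp hG)) (hconj.comp hF) 2
      (fun π => by
        simp only [norm_mul, RCLike.norm_conj]
        have h1 := hHb π
        have h2 := hGb π
        nlinarith [norm_nonneg (H π), norm_nonneg (G π)])
      (fun y => by
        simp only [RCLike.norm_conj]
        have := hFb y
        linarith)
    rw [← h]
    refine integral_congr_ae (Eventually.of_forall fun ω => ?_)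
    simp only [hE]
    rw [integral_conj, map_sub, map_mul, map_mul]
    ring
  have hE1 : ∫ ω, H (past (sh (J : ℤ) ω)) * E (sh (J : ℤ) ω) ∂P = 0 := by
    rw [← hE0]
    conv_rhs => rw [← hmp.map_eq]
    rw [integral_map hmp.measurable.aemeasurable]
    exact ((hH.comp past_meas).mul hEm).aestronglyMeasurable
  have i1 : Integrable (fun ω => H (past (sh (J : ℤ) ω)) * E (sh (J : ℤ) ω)) P := by
    refine Integrable.of_bound (C := 4) ((hH.comp (past_meas.comp (sh_meas _))).mul
      (hEm.comp (sh_meas _))).aestronglyMeasurable (Eventually.of_forall fun ω => ?_)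
    rw [norm_mul]
    have h1 := hHb (past (sh (J : ℤ) ω)); have h2 := hEb (sh (J : ℤ) ω)
    nlinarith [norm_nonneg (H (past (sh (J : ℤ) ω))), norm_nonneg (E (sh (J : ℤ) ω))]
  have i2 : Integrable (fun ω => (D ω - H (past (sh (J : ℤ) ω))) * E (sh (J : ℤ) ω)) P := by
    refine Integrable.of_bound (C := δ * 2) ((hD.sub (hH.comp (past_meas.comp (sh_meas _)))).mul
      (hEm.comp (sh_meas _))).aestronglyMeasurable (Eventually.of_forall fun ω => ?_)
    rw [norm_mul]
    exact mul_le_mul (hDH ω) (hEb _) (norm_nonneg _) hδ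
  have hsplit : ∀ ω, D ω * E (sh (J : ℤ) ω) = H (past (sh (J : ℤ) ω)) * E (sh (J : ℤ) ω) +
      (D ω - H (past (sh (J : ℤ) ω))) * E (sh (J : ℤ) ω) := fun ω => by ring
  change ‖∫ ω, D ω * E (sh (J : ℤ) ω) ∂P‖ ≤ 2 * δ
  simp only [hsplit]
  rw [integral_add i1 i2, hE1, zero_add]
  refine (norm_integral_le_of_norm_le_const (C := 2 * δ) (Eventually.of_forall fun ω => ?_)).trans ?_
  · rw [norm_mul, mul_comm 2 δ]
    exact mul_le_mul (hDH ω) (hEb _) (norm_nonneg _) hδ
  · simp

/-- law of large numbers with weights, for sequences `a n ~ t β ^ n` -/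
theorem lln [NeZero b] (hb : 2 ≤ b) (P : Measure (ℤ → Fin b)) [IsProbabilityMeasure P]
    (hP : MeasurePreserving (sh (b := b) 1) P P) (β t : ℝ) (hβ : 1 < β) (ht : t ≠ 0) (K : ℕ)
    (a : ℕ → ℝ) (ha : Tendsto (fun n => a n / β ^ n) atTop (𝓝 t)) (z : ℕ → ℂ) (hz : ∀ n, ‖z n‖ ≤ 1) :
    ∀ᵐ ω ∂P, ∀ ε : ℝ, 0 < ε → ∀ᶠ N : ℕ in atTop,
      ‖∑ n ∈ range N, z n * e (a n * val (fut ω))‖ ≤ ε * N + ∑ n ∈ range N,
        Phi P K (sh (⌊(n : ℝ) * Real.logb b β + Real.logb b |t|⌋ - K) ω)
          (Int.fract ((n : ℝ) * Real.logb b β + Real.logb b |t|)) := by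
  have hbN : 1 < b := by omega
  have hb1 : (1 : ℝ) < b := by exact_mod_cast hbN
  have hb0 : (0 : ℝ) < b := by linarith
  have hβ0 : (0 : ℝ) < β := by linarith
  have ht0 : 0 < |t| := abs_pos.2 ht
  set θ := Real.logb b β with hθdef
  set s := Real.logb b |t| with hsdef
  have hθ : 0 < θ := Real.logb_pos hb1 hβ
  have hbθ : (b : ℝ) ^ θ = β := Real.rpow_logb hb0 hb1.ne' hβ0
  have hbs : (b : ℝ) ^ s = |t| := Real.rpow_logb hb0 hb1.ne' ht0
  have hpow : ∀ n : ℕ, |t| * β ^ n = (b : ℝ) ^ ((n : ℝ) * θ + s) := by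
    intro n
    rw [Real.rpow_add hb0, hbs, mul_comm (n : ℝ) θ, Real.rpow_mul hb0.le, hbθ, Real.rpow_natCast]
    ring
  set v : ℕ → ℝ := fun n => (n : ℝ) * θ + s with hv
  have hvmono : ∀ m n : ℕ, m ≤ n → v m ≤ v n := by
    intro m n h
    simp only [hv]
    have : (m : ℝ) ≤ n := by exact_mod_cast h
    nlinarith
  obtain ⟨n1, hn1⟩ : ∃ n1 : ℕ, (K : ℝ) ≤ v n1 := by
    obtain ⟨n1, h⟩ := exists_nat_gt ((K - s) / θ)
    refine ⟨n1, ?_⟩
    simp only [hv]
    rw [div_lt_iff₀ hθ] at h
    linarith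
  obtain ⟨n2, hn2⟩ : ∃ n2 : ℕ, ∀ n, n2 ≤ n → |a n / β ^ n - t| < |t| := by
    rw [Metric.tendsto_atTop] at ha
    obtain ⟨n2, h⟩ := ha |t| ht0
    exact ⟨n2, fun n hn => by have := h n hn; rwa [Real.dist_eq] at this⟩
  set n0 := max n1 n2 with hn0def
  have han : ∀ n, n0 ≤ n → |a n| ≤ 2 * (|t| * β ^ n) := by
    intro n hn
    have h1 := hn2 n (le_trans (le_max_right _ _) hn)
    have hβn : 0 < β ^ n := pow_pos hβ0 n
    have h2 : |a n / β ^ n| < 2 * |t| := by
      have h3 : |a n / β ^ n| ≤ |a n / β ^ n - t| + |t| := by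
        have := abs_add_le (a n / β ^ n - t) t
        rwa [sub_add_cancel] at this
      linarith
    rw [abs_div, abs_of_pos hβn, div_lt_iff₀ hβn] at h2
    linarith
  have hKn : ∀ n, n0 ≤ n → (K : ℤ) ≤ ⌊v n⌋ := by
    intro n hn
    rw [Int.le_floor]
    have := hvmono n1 n (le_trans (le_max_left _ _) hn)
    push_cast
    linarith
  set j : ℕ → ℕ := fun n => (⌊v n⌋ - K).toNat with hjdef
  have hj : ∀ n, n0 ≤ n → ((j n : ℕ) : ℤ) = ⌊v n⌋ - K := by
    intro n hn
    simp only [hjdef]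
    have := hKn n hn
    omega
  have hjr : ∀ n, n0 ≤ n → ((j n : ℕ) : ℝ) = ⌊v n⌋ - K := by
    intro n hn
    have := hj n hn
    have h2 : (((j n : ℕ) : ℤ) : ℝ) = ((⌊v n⌋ - K : ℤ) : ℝ) := by rw [this]
    push_cast at h2
    exact h2
  have hjmono : ∀ m n, m ≤ n → j m ≤ j n := by
    intro m n h
    simp only [hjdef]
    have := Int.floor_le_floor (hvmono m n h)
    omega
  have hvj : ∀ n, n0 ≤ n → (b : ℝ) ^ (v n) = (b : ℝ) ^ ((K : ℝ) + Int.fract (v n)) * (b : ℝ) ^ (j n) := by
    intro n hn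
    rw [← Real.rpow_natCast, ← Real.rpow_add hb0]
    congr 1
    rw [hjr n hn]
    have := Int.floor_add_fract (v n)
    linarith
  have hfr : ∀ n, (b : ℝ) ^ ((K : ℝ) + Int.fract (v n)) ≤ (b : ℝ) ^ (K + 1) := by
    intro n
    rw [← Real.rpow_natCast]
    refine Real.rpow_le_rpow_of_exponent_le hb1.le ?_
    have := Int.fract_lt_one (v n)
    push_cast
    linarith
  obtain ⟨σ, hσ, hσt⟩ : ∃ σ : ℝ, (σ = 1 ∨ σ = -1) ∧ t = σ * |t| := by
    rcases le_or_gt 0 t with h | h
    · exact ⟨1, Or.inl rfl, by rw [abs_of_nonneg h]; ring⟩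
    · exact ⟨-1, Or.inr rfl, by rw [abs_of_neg h]; ring⟩
  set κ := condDistrib (fut (b := b)) (past (b := b)) P with hκ
  set ζ : ℕ → ℝ := fun n => a n / (b : ℝ) ^ (j n) with hζ
  set F : ℕ → (ℕ → Fin b) → ℂ := fun n y => e (ζ n * val y) with hF
  set G : ℕ → (ℕ → Fin b) → ℂ := fun n π => z n * e (a n * qq (j n) π) with hG
  have hFm : ∀ n, Measurable (F n) := fun n => e_cont.measurable.comp ((val_meas hb).const_mul _)
  have hGm : ∀ n, Measurable (G n) := fun n => (e_cont.measurable.comp ((qq_meas _).const_mul _)).const_mul _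
  set w : ℕ → (ℕ → Fin b) → ℂ := fun n π => G n π * ∫ y, F n y ∂(κ π) with hw
  have hIm : ∀ n, Measurable (fun π : ℕ → Fin b => ∫ y, F n y ∂(κ π)) := fun n =>
    (((hFm n).comp measurable_snd).stronglyMeasurable.integral_kernel_prod_right' (κ := κ)).measurable
  have hwm : ∀ n, Measurable (w n) := fun n => (hGm n).mul (hIm n)
  have hGb : ∀ n π, ‖G n π‖ ≤ 1 := fun n π => by
    simp only [hG, norm_mul, norm_e, mul_one]
    exact hz n
  have hFb : ∀ n y, ‖F n y‖ ≤ 1 := fun n y => (norm_e _).le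
  have hIb : ∀ n π, ‖∫ y, F n y ∂(κ π)‖ ≤ 1 := by
    intro n π
    refine (norm_integral_le_of_norm_le_const (C := 1) (Eventually.of_forall fun y => hFb n y)).trans ?_
    simp
  have hwb : ∀ n π, ‖w n π‖ ≤ 1 := by
    intro n π
    simp only [hw, norm_mul]
    exact mul_le_one₀ (hGb n π) (norm_nonneg _) (hIb n π)
  -- factorization of the exponentials
  have hZ : ∀ n, n0 ≤ n → ∀ ω : ℤ → Fin b, z n * e (a n * val (fut ω)) =
      G n (past (sh (j n : ℤ) ω)) * F n (fut (sh (j n : ℤ) ω)) := by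
    intro n hn ω
    simp only [hG, hF]
    rw [mul_assoc, ← e_add]
    congr 2
    rw [val_split hb (j n) ω]
    simp only [hζ]
    ring
  -- comparison with `Phi`
  set δ : ℕ → ℝ := fun n => 2 * Real.pi * ((b : ℝ) ^ (K + 1) / |t| * |a n / β ^ n - t|) with hδdef
  have hζδ : ∀ n, n0 ≤ n → |ζ n - σ * (b : ℝ) ^ ((K : ℝ) + Int.fract (v n))| ≤
      (b : ℝ) ^ (K + 1) / |t| * |a n / β ^ n - t| := by
    intro n hn
    have h1 : ζ n - σ * (b : ℝ) ^ ((K : ℝ) + Int.fract (v n)) =
        ((b : ℝ) ^ ((K : ℝ) + Int.fract (v n)) / |t|) * (a n / β ^ n - t) := by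
      have h2 := hvj n hn
      have h3 := hpow n
      have h4 : (b : ℝ) ^ (v n) = (b : ℝ) ^ ((n : ℝ) * θ + s) := rfl
      rw [h4, ← h3] at h2
      have h5 : (b : ℝ) ^ (j n) ≠ 0 := by positivity
      have h6 : β ^ n ≠ 0 := (pow_pos hβ0 n).ne'
      have h7 : |t| ≠ 0 := ht0.ne'
      simp only [hζ]
      have h8 : (b : ℝ) ^ ((K : ℝ) + Int.fract (v n)) = |t| * β ^ n / (b : ℝ) ^ (j n) := by
        rw [h2]; field_simp
      have h9 : (b : ℝ) ^ ((K : ℝ) + Int.fract (v n)) / |t| * (a n / β ^ n) = a n / (b : ℝ) ^ (j n) := by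
        rw [h8]; field_simp
      have h10 : (b : ℝ) ^ ((K : ℝ) + Int.fract (v n)) / |t| * t = σ * (b : ℝ) ^ ((K : ℝ) + Int.fract (v n)) := by
        rw [div_mul_eq_mul_div, div_eq_iff h7]
        calc (b : ℝ) ^ ((K : ℝ) + Int.fract (v n)) * t = (b : ℝ) ^ ((K : ℝ) + Int.fract (v n)) * (σ * |t|) := by
              rw [← hσt]
          _ = _ := by ring
      rw [mul_sub, h9, h10]
    rw [h1, abs_mul, abs_of_nonneg (by positivity)]
    refine mul_le_mul_of_nonneg_right ?_ (abs_nonneg _)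
    exact div_le_div_of_nonneg_right (hfr n) ht0.le
  have hPhi : ∀ n, n0 ≤ n → ∀ ω : ℤ → Fin b,
      ‖∫ y, e (σ * (b : ℝ) ^ ((K : ℝ) + Int.fract (v n)) * val y) ∂(κ (past (sh (j n : ℤ) ω)))‖ =
      Phi P K (sh (⌊v n⌋ - K) ω) (Int.fract (v n)) := by
    intro n hn ω
    rw [hj n hn]
    unfold Phi
    rcases hσ with h | h
    · simp only [h, one_mul]
      rfl
    · have : ∀ y : ℕ → Fin b, e (σ * (b : ℝ) ^ ((K : ℝ) + Int.fract (v n)) * val y) =
          (starRingEnd ℂ) (e ((b : ℝ) ^ ((K : ℝ) + Int.fract (v n)) * val y)) := by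
        intro y
        rw [h, ← e_neg]
        congr 1
        ring
      simp only [this]
      rw [integral_conj, RCLike.norm_conj]
  have hWn : ∀ n, n0 ≤ n → ∀ ω : ℤ → Fin b, ‖w n (past (sh (j n : ℤ) ω))‖ ≤
      Phi P K (sh (⌊v n⌋ - K) ω) (Int.fract (v n)) + δ n := by
    intro n hn ω
    simp only [hw, norm_mul]
    refine (mul_le_of_le_one_left (norm_nonneg _) (hGb n _)).trans ?_
    rw [← hPhi n hn ω]
    set π := past (sh (j n : ℤ) ω) with hπ
    have hI1 : Integrable (F n) (κ π) := Integrable.of_bound (hFm n).aestronglyMeasurable 1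
      (Eventually.of_forall fun y => hFb n y)
    have hI2 : Integrable (fun y : ℕ → Fin b => e (σ * (b : ℝ) ^ ((K : ℝ) + Int.fract (v n)) * val y)) (κ π) :=
      Integrable.of_bound (e_cont.measurable.comp ((val_meas hb).const_mul _)).aestronglyMeasurable 1
        (Eventually.of_forall fun y => (norm_e _).le)
    have h1 : ‖(∫ y, F n y ∂(κ π)) - ∫ y, e (σ * (b : ℝ) ^ ((K : ℝ) + Int.fract (v n)) * val y) ∂(κ π)‖ ≤ δ n := by
      rw [← integral_sub hI1 hI2]
      refine (norm_integral_le_of_norm_le_const (C := δ n) (Eventually.of_forall fun y => ?_)).trans (by simp)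
      simp only [hF]
      refine (norm_e_sub_e_le _ _).trans ?_
      rw [← sub_mul, abs_mul, abs_of_nonneg (val_nonneg y)]
      simp only [hδdef]
      refine mul_le_mul_of_nonneg_left ?_ (by positivity)
      exact (mul_le_of_le_one_right (abs_nonneg _) (val_le_one hb y)).trans (hζδ n hn)
    have h2 := norm_le_norm_add_norm_sub' (∫ y, F n y ∂(κ π))
      (∫ y, e (σ * (b : ℝ) ^ ((K : ℝ) + Int.fract (v n)) * val y) ∂(κ π))
    linarith
  set D : ℕ → (ℤ → Fin b) → ℂ := fun n ω =>
    if n0 ≤ n then z n * e (a n * val (fut ω)) - w n (past (sh (j n : ℤ) ω)) else 0 with hD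
  have hZm : ∀ n, Measurable fun ω : ℤ → Fin b => z n * e (a n * val (fut ω)) := fun n =>
    (e_cont.measurable.comp (((val_meas hb).comp fut_meas).const_mul _)).const_mul _
  have hZb : ∀ n (x : ℝ), ‖z n * e x‖ ≤ 1 := by
    intro n x
    rw [norm_mul, norm_e, mul_one]
    exact hz n
  have hDm : ∀ n, Measurable (D n) := by
    intro n
    simp only [hD]
    split_ifs with h
    · exact (hZm n).sub ((hwm n).comp (past_meas.comp (sh_meas _)))
    · exact measurable_const
  have hDb : ∀ n ω, ‖D n ω‖ ≤ 2 := by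
    intro n ω
    simp only [hD]
    split_ifs with h
    · refine (norm_sub_le _ _).trans ?_
      have h1 := hwb n (past (sh (j n : ℤ) ω))
      have h2 := hZb n (a n * val (fut ω))
      linarith
    · simp
  have hcorr : ∀ m n, m < n → ‖∫ ω, D m ω * (starRingEnd ℂ) (D n ω) ∂P‖ ≤
      (8 * Real.pi * (b : ℝ) ^ (K + 1)) * (β⁻¹) ^ (n - m) := by
    intro m n hmn
    by_cases hm : n0 ≤ m
    · have hn : n0 ≤ n := by omega
      set H : (ℕ → Fin b) → ℂ := fun π => z m * e (a m * qq (j n) π) - w m (fun i => π (i + (j n - j m))) with hH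
      have hHm : Measurable H := by
        refine ((e_cont.measurable.comp ((qq_meas _).const_mul _)).const_mul _).sub ((hwm m).comp ?_)
        exact measurable_pi_lambda _ fun _ => measurable_pi_apply _
      have hHb : ∀ π, ‖H π‖ ≤ 2 := by
        intro π
        simp only [hH]
        refine (norm_sub_le _ _).trans ?_
        have h1 := hwb m (fun i => π (i + (j n - j m)))
        have h2 := hZb m (a m * qq (j n) π)
        linarith
      have hδ : ∀ ω, ‖D m ω - H (past (sh (j n : ℤ) ω))‖ ≤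
          2 * Real.pi * (2 * ((b : ℝ) ^ (K + 1) * (β⁻¹) ^ (n - m))) := by
        intro ω
        have h1 : D m ω - H (past (sh (j n : ℤ) ω)) = z m * (e (a m * val (fut ω)) -
            e (a m * qq (j n) (past (sh (j n : ℤ) ω)))) := by
          simp only [hD, hH, if_pos hm]
          rw [← past_sh (j m) (j n) (hjmono m n hmn.le) ω]
          ring
        rw [h1, norm_mul]
        refine (mul_le_of_le_one_left (norm_nonneg _) (hz m)).trans ((norm_e_sub_e_le _ _).trans ?_)
        refine mul_le_mul_of_nonneg_left ?_ (by positivity)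
        have h2 : a m * val (fut ω) - a m * qq (j n) (past (sh (j n : ℤ) ω)) =
            a m * (val (fut (sh (j n : ℤ) ω)) / (b : ℝ) ^ (j n)) := by
          rw [val_split hb (j n) ω]; ring
        rw [h2, abs_mul, abs_of_nonneg (div_nonneg (val_nonneg (fut (sh (j n : ℤ) ω))) (by positivity))]
        have h3 : (b : ℝ) ^ (v m) * (1 / (b : ℝ) ^ (j n)) ≤ (b : ℝ) ^ (K + 1) * (β⁻¹) ^ (n - m) := by
          have h4 : (b : ℝ) ^ (v m) = (b : ℝ) ^ (v n) * (β⁻¹) ^ (n - m) := by
            rw [← hpow, ← hpow]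
            have h5 : β ^ n = β ^ m * β ^ (n - m) := by rw [← pow_add]; congr 1; omega
            rw [h5]
            have h6 : β ^ (n - m) ≠ 0 := (pow_pos hβ0 _).ne'
            rw [inv_pow]
            field_simp
          have h7 : (b : ℝ) ^ (v n) * (1 / (b : ℝ) ^ (j n)) ≤ (b : ℝ) ^ (K + 1) := by
            rw [mul_one_div, div_le_iff₀ (by positivity), hvj n hn]
            exact mul_le_mul_of_nonneg_right (hfr n) (by positivity)
          rw [h4, mul_right_comm]
          exact mul_le_mul_of_nonneg_right h7 (by positivity)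
        have h8 : |a m| * (val (fut (sh (j n : ℤ) ω)) / (b : ℝ) ^ (j n)) ≤
            (2 * (b : ℝ) ^ (v m)) * (1 / (b : ℝ) ^ (j n)) := by
          refine mul_le_mul ?_ ?_ (div_nonneg (val_nonneg _) (by positivity)) (by positivity)
          · have := han m hm
            rw [hpow m] at this
            exact this
          · exact div_le_div_of_nonneg_right (val_le_one hb _) (by positivity)
        refine h8.trans ?_
        rw [mul_assoc]
        exact mul_le_mul_of_nonneg_left h3 two_pos.le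
      have := corr' P hP (j n) (D m) (hDm m) H (G n) (F n) hHm (hGm n) (hFm n) hHb (hGb n) (hFb n) _
        (by positivity) hδ
      have h8 : ∀ ω, D n ω = G n (past (sh (j n : ℤ) ω)) * F n (fut (sh (j n : ℤ) ω)) -
          G n (past (sh (j n : ℤ) ω)) * ∫ y, F n y ∂(κ (past (sh (j n : ℤ) ω))) := by
        intro ω
        simp only [hD, if_pos hn]
        rw [hZ n hn ω]
      simp only [h8]
      refine this.trans (le_of_eq ?_)
      ring
    · have : ∀ ω, D m ω = 0 := fun ω => by simp only [hD, if_neg hm]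
      simp only [this, zero_mul, integral_zero, norm_zero]
      positivity
  have hβinv : β⁻¹ < 1 := inv_lt_one_of_one_lt₀ hβ
  have h2m := second_moment P D hDm hDb (8 * Real.pi * (b : ℝ) ^ (K + 1)) β⁻¹ (by positivity) (by positivity)
    hβinv hcorr
  have h1β : 0 < 1 - β⁻¹ := by linarith
  have has := as_of_second P D hDm hDb _ (by positivity) h2m
  -- the error of the comparison
  set η : ℕ → ℝ := fun n => if n0 ≤ n then δ n else 1 with hη
  have hη0 : Tendsto η atTop (𝓝 0) := by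
    have h1 : Tendsto δ atTop (𝓝 0) := by
      have h2 : Tendsto (fun n => a n / β ^ n - t) atTop (𝓝 0) := by
        have := ha.sub_const t
        rwa [sub_self] at this
      have h3 := h2.abs
      rw [abs_zero] at h3
      have h4 := (h3.const_mul ((b : ℝ) ^ (K + 1) / |t|)).const_mul (2 * Real.pi)
      simpa [hδdef] using h4
    refine h1.congr' ?_
    filter_upwards [eventually_ge_atTop n0] with n hn
    simp only [hη, if_pos hn]
  have hces := hη0.cesaro
  filter_upwards [has] with ω hω ε hε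
  have hce : ∀ᶠ N : ℕ in atTop, (N : ℝ)⁻¹ * ∑ n ∈ range N, η n < ε / 2 :=
    hces.eventually (gt_mem_nhds (half_pos hε))
  filter_upwards [hω (ε / 2) (half_pos hε), hce, eventually_gt_atTop 0] with N hN hNN hN0
  have hN0' : (0 : ℝ) < N := by exact_mod_cast hN0
  have hterm : ∀ n, ‖z n * e (a n * val (fut ω)) - D n ω‖ ≤
      Phi P K (sh (⌊(n : ℝ) * θ + s⌋ - K) ω) (Int.fract ((n : ℝ) * θ + s)) + η n := by
    intro n
    by_cases hn : n0 ≤ n
    · have h1 : z n * e (a n * val (fut ω)) - D n ω = w n (past (sh (j n : ℤ) ω)) := by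
        simp only [hD, if_pos hn]; ring
      rw [h1]
      have := hWn n hn ω
      simp only [hη, if_pos hn]
      exact this
    · have h1 : D n ω = 0 := by simp only [hD, if_neg hn]
      rw [h1, sub_zero]
      simp only [hη, if_neg hn]
      have h2 := (Phi_bounds P K (sh (⌊(n : ℝ) * θ + s⌋ - K) ω) (Int.fract ((n : ℝ) * θ + s))).1
      have h3 := hZb n (a n * val (fut ω))
      linarith
  have h3 : ∑ n ∈ range N, z n * e (a n * val (fut ω)) = ∑ n ∈ range N, D n ω +
      ∑ n ∈ range N, (z n * e (a n * val (fut ω)) - D n ω) := by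
    rw [← sum_add_distrib]
    exact sum_congr rfl fun n _ => by ring
  rw [h3]
  refine (norm_add_le _ _).trans ?_
  have h4 : ‖∑ n ∈ range N, (z n * e (a n * val (fut ω)) - D n ω)‖ ≤
      ∑ n ∈ range N, Phi P K (sh (⌊(n : ℝ) * θ + s⌋ - K) ω) (Int.fract ((n : ℝ) * θ + s)) +
        ∑ n ∈ range N, η n := by
    refine (norm_sum_le _ _).trans ((sum_le_sum fun n _ => hterm n).trans ?_)
    rw [sum_add_distrib]
  have h5 : ∑ n ∈ range N, η n ≤ ε / 2 * N := by
    rw [inv_mul_lt_iff₀ hN0'] at hNN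
    linarith
  linarith

end Pool.Agent.T3H29.HR
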