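import Mathlib

/-!
# Host's theorem for real bases: definitions and the statements of the parts

`b ≥ 2`, `P` is a shift invariant probability measure on the two-sided sequences `ω : ℤ → Fin b`, and
`X(ω) = ∑_{i ≥ 1} ω_i b^(-i) = val (fut ω)`. For ergodic `P` of positive entropy and a real number `β > 1` with
`log β / log b` irrational we want: almost surely `(t X β^n + Q(n))` is equidistributed modulo one for all real
polynomials `Q`.
-/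

set_option autoImplicit false

namespace Pool.Agent.T3H29.HR

open MeasureTheory ProbabilityTheory Filter Topology

/-- `e(x) = exp(2πix)` -/
noncomputable def e (x : ℝ) : ℂ := Complex.exp (((2 * Real.pi * x : ℝ) : ℂ) * Complex.I)

/-- the shift by `k` -/
def sh {b : ℕ} (k : ℤ) (ω : ℤ → Fin b) : ℤ → Fin b := fun i => ω (i + k)

/-- the past `ω_0, ω_{-1}, ω_{-2}, …` -/
def past {b : ℕ} (ω : ℤ → Fin b) : ℕ → Fin b := fun i => ω (-(i : ℤ))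

/-- the future `ω_1, ω_2, …` -/
def fut {b : ℕ} (ω : ℤ → Fin b) : ℕ → Fin b := fun i => ω ((i : ℤ) + 1)

/-- the number `∑ y_i b^(-i-1)` with the digits `y_0, y_1, …` -/
noncomputable def val {b : ℕ} (y : ℕ → Fin b) : ℝ := ∑' i : ℕ, (((y i : Fin b) : ℕ) : ℝ) / (b : ℝ) ^ (i + 1)

/-- the process is deterministic: `ω_1` is almost surely a function of the past -/
def Det {b : ℕ} (P : Measure (ℤ → Fin b)) : Prop :=
  ∃ g : (ℕ → Fin b) → Fin b, Measurable g ∧ ∀ᵐ ω ∂P, ω 1 = g (past ω)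

/-- the entropy of the first `n` digits -/
noncomputable def HH {b : ℕ} (P : Measure (ℤ → Fin b)) (n : ℕ) : ℝ :=
  ∑ w : Fin n → Fin b, Real.negMulLog (P.real {ω | ∀ i : Fin n, ω ((i : ℕ) : ℤ) = w i})

/-- the absolute value of the characteristic function of `val` of the future, given the past, at `b^(K+u)` -/
noncomputable def Phi {b : ℕ} [NeZero b] (P : Measure (ℤ → Fin b)) [IsFiniteMeasure P] (K : ℕ)
    (ω : ℤ → Fin b) (u : ℝ) : ℝ :=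
  ‖∫ y, e ((b : ℝ) ^ ((K : ℝ) + u) * val y) ∂(condDistrib (fut (b := b)) (past (b := b)) P (past ω))‖

/-- equidistribution modulo one of `f 1, f 2, …` -/
def Equi (f : ℕ → ℝ) : Prop :=
  ∀ s t : ℝ, 0 ≤ s → s < t → t ≤ 1 →
    Tendsto (fun N : ℕ => (((Finset.Icc 1 N).filter (fun n : ℕ => Int.fract (f n) ∈ Set.Ico s t)).card : ℝ) / N)
      atTop (𝓝 (t - s))

/-- ENT: positive entropy implies that the process is not deterministic -/
def S_ENT : Prop :=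
  ∀ (b : ℕ) [NeZero b] (P : Measure (ℤ → Fin b)) [IsProbabilityMeasure P],
    MeasurePreserving (sh (b := b) 1) P P → ∀ c : ℝ, 0 < c → (∀ n : ℕ, c * n ≤ HH P n) → ¬ Det P

/-- NA: for ergodic processes which are not deterministic the conditional distribution of the future given the
past has no atoms -/
def S_NA : Prop :=
  ∀ (b : ℕ) [NeZero b] (P : Measure (ℤ → Fin b)) [IsProbabilityMeasure P],
    Ergodic (sh (b := b) 1) P → ¬ Det P →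
      ∀ᵐ ω ∂P, ∀ y : ℕ → Fin b, condDistrib (fut (b := b)) (past (b := b)) P (past ω) {y} = 0

/-- ERG: maximal ergodic inequality for the time `θ` map of the suspension, on every fibre -/
def S_ERG : Prop :=
  ∀ (b : ℕ) [NeZero b] (P : Measure (ℤ → Fin b)) [IsProbabilityMeasure P],
    MeasurePreserving (sh (b := b) 1) P P → ∀ θ : ℝ, Irrational θ →
    ∀ Ψ : (ℤ → Fin b) → ℝ → ℝ, Measurable (Function.uncurry Ψ) → (∀ ω u, 0 ≤ Ψ ω u ∧ Ψ ω u ≤ 1) →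
    (∃ C : ℝ, ∀ ω, ∀ u ∈ Set.Icc (0 : ℝ) 1, ∀ v ∈ Set.Icc (0 : ℝ) 1, |Ψ ω u - Ψ ω v| ≤ C * |u - v|) →
    ∀ (k₀ : ℤ) (s ε : ℝ), 0 < ε →
      P {ω | ∃ᶠ N : ℕ in atTop, ε < (∑ n ∈ Finset.range N,
        Ψ (sh (⌊(n : ℝ) * θ + s⌋ - k₀) ω) (Int.fract ((n : ℝ) * θ + s))) / N} ≤
      ENNReal.ofReal (4 / ε * ∫ u in (0 : ℝ)..1, ∫ ω, Ψ ω u ∂P)

/-- LLN: law of large numbers for martingale differences -/
def S_LLN : Prop :=
  ∀ (b : ℕ) [NeZero b], 2 ≤ b → ∀ (P : Measure (ℤ → Fin b)) [IsProbabilityMeasure P],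
    MeasurePreserving (sh (b := b) 1) P P → ∀ β t : ℝ, 1 < β → t ≠ 0 → ∀ K : ℕ,
    ∀ᵐ ω ∂P, ∀ ε : ℝ, 0 < ε → ∀ᶠ N : ℕ in atTop,
      ‖∑ n ∈ Finset.range N, e (t * β ^ n * val (fut ω))‖ ≤ ε * N + ∑ n ∈ Finset.range N,
        Phi P K (sh (⌊(n : ℝ) * Real.logb b β + Real.logb b |t|⌋ - K) ω)
          (Int.fract ((n : ℝ) * Real.logb b β + Real.logb b |t|))

/-- WIE: Wiener's theorem, in mean over `b^K ≤ t ≤ b^(K+1)` -/
def S_WIE : Prop :=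
  ∀ (b : ℕ) [NeZero b], 2 ≤ b → ∀ (ν : Measure (ℕ → Fin b)) [IsProbabilityMeasure ν], (∀ y, ν {y} = 0) →
    Tendsto (fun K : ℕ => ∫ u in (0 : ℝ)..1, ‖∫ y, e ((b : ℝ) ^ ((K : ℝ) + u) * val y) ∂ν‖) atTop (𝓝 0)

/-- VDC: from the linear sums to all polynomials (van der Corput, Weyl) -/
def S_VDC : Prop :=
  ∀ (β x : ℝ), 1 < β → ∀ T : Set ℝ, (∀ t ∈ T, ∀ h : ℤ, h ≠ 0 → h * t ∈ T) →
    (∀ t ∈ T, ∀ d : ℕ, 1 ≤ d → t * (β ^ d - 1) ∈ T) →
    (∀ t ∈ T, Tendsto (fun N : ℕ => ‖∑ n ∈ Finset.range N, e (t * β ^ n * x)‖ / N) atTop (𝓝 0)) →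
    ∀ t ∈ T, ∀ Q : Polynomial ℝ, Equi (fun n => t * β ^ n * x + Q.eval (n : ℝ))

/-- IND: the bases `e^r`, `π^r` and the rational numbers which are not integers are independent of `b` -/
def S_IND : Prop :=
  (∀ (b : ℕ) (β : ℝ), 2 ≤ b → 1 < β → (∀ m k : ℕ, 1 ≤ m → β ^ m ≠ (b : ℝ) ^ k) → Irrational (Real.logb b β)) ∧
  (∀ (b : ℕ) (r : ℚ), 2 ≤ b → 0 < r → ∀ m k : ℕ, 1 ≤ m → Real.exp r ^ m ≠ (b : ℝ) ^ k) ∧
  (∀ (b : ℕ) (r : ℚ), 2 ≤ b → 0 < r → ∀ m k : ℕ, 1 ≤ m → (Real.pi ^ (r : ℝ)) ^ m ≠ (b : ℝ) ^ k)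

end Pool.Agent.T3H29.HR
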