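import Pool.Agent.T3H29.HR.LL2

/-! # Law of large numbers -/

set_option autoImplicit false

namespace Pool.Agent.T3H29.HR

open MeasureTheory ProbabilityTheory Filter Topology Finset

variable {b : ℕ}

/-- correlation of a bounded function with small dependence on the future and an increment -/
lemma corr [NeZero b] (P : Measure (ℤ → Fin b)) [IsProbabilityMeasure P]
    (hP : MeasurePreserving (sh (b := b) 1) P P) (J : ℕ) (D : (ℤ → Fin b) → ℂ) (hD : Measurable D)
    (H G F : (ℕ → Fin b) → ℂ) (hH : Measurable H) (hG : Measurable G) (hF : Measurable F)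
    (hHb : ∀ π, ‖H π‖ ≤ 2) (hGb : ∀ π, ‖G π‖ = 1) (hFb : ∀ y, ‖F y‖ = 1) (δ : ℝ) (hδ : 0 ≤ δ)
    (hDH : ∀ ω, ‖D ω - H (past (sh (J : ℤ) ω))‖ ≤ δ) :
    ‖∫ ω, D ω * (starRingEnd ℂ) (G (past (sh (J : ℤ) ω)) * F (fut (sh (J : ℤ) ω)) -
      G (past (sh (J : ℤ) ω)) * ∫ y, F y ∂(condDistrib (fut (b := b)) (past (b := b)) P (past (sh (J : ℤ) ω)))) ∂P‖
      ≤ 2 * δ := by
  set κ := condDistrib (fut (b := b)) (past (b := b)) P with hκ
  have hmp := sh_mp P hP J
  have hconj : Measurable (starRingEnd ℂ) := Complex.continuous_conj.measurable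
  have hIm : Measurable (fun π : ℕ → Fin b => ∫ y, F y ∂(κ π)) :=
    ((hF.comp measurable_snd).stronglyMeasurable.integral_kernel_prod_right' (κ := κ)).measurable
  have hIb : ∀ π, ‖∫ y, F y ∂(κ π)‖ ≤ 1 := by
    intro π
    refine (norm_integral_le_of_norm_le_const (C := 1) (Eventually.of_forall fun y => (hFb y).le)).trans ?_
    simp
  -- the increment
  set E : (ℤ → Fin b) → ℂ := fun ω => (starRingEnd ℂ) (G (past ω) * F (fut ω) - G (past ω) * ∫ y, F y ∂(κ (past ω)))
    with hE
  have hEm : Measurable E := hconj.comp (((hG.comp past_meas).mul (hF.comp fut_meas)).sub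
    ((hG.comp past_meas).mul (hIm.comp past_meas)))
  have hEb : ∀ ω, ‖E ω‖ ≤ 2 := by
    intro ω
    rw [hE]
    simp only
    rw [RCLike.norm_conj]
    refine (norm_sub_le _ _).trans ?_
    rw [norm_mul, norm_mul, hGb, hFb]
    have := hIb (past ω)
    linarith
  have hE0 : ∫ ω, H (past ω) * E ω ∂P = 0 := by
    have h := orth P (fun π => H π * (starRingEnd ℂ) (G π)) (fun y => (starRingEnd ℂ) (F y))
      (hH.mul (hconj.comp hG)) (hconj.comp hF) 2
      (fun π => by simp only [norm_mul, RCLike.norm_conj, hGb, mul_one]; exact hHb π)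
      (fun y => by simp only [RCLike.norm_conj, hFb]; norm_num)
    rw [← h]
    refine integral_congr_ae (Eventually.of_forall fun ω => ?_)
    simp only [hE]
    rw [integral_conj, map_sub, map_mul, map_mul]
    ring
  have hE1 : ∫ ω, H (past (sh (J : ℤ) ω)) * E (sh (J : ℤ) ω) ∂P = 0 := by
    rw [← hE0]
    conv_rhs => rw [← hmp.map_eq]
    rw [integral_map hmp.measurable.aemeasurable]
    exact ((hH.comp past_meas).mul hEm).aestronglyMeasurable
  have i1 : Integrable (fun ω => H (past (sh (J : ℤ) ω)) * E (sh (J : ℤ) ω)) P := by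
    refine Integrable.of_bound (C := 4) ((hH.comp (past_meas.comp (sh_meas _))).mul
      (hEm.comp (sh_meas _))).aestronglyMeasurable (Eventually.of_forall fun ω => ?_)
    rw [norm_mul]
    have h1 := hHb (past (sh (J : ℤ) ω)); have h2 := hEb (sh (J : ℤ) ω)
    nlinarith [norm_nonneg (H (past (sh (J : ℤ) ω))), norm_nonneg (E (sh (J : ℤ) ω))]
  have i2 : Integrable (fun ω => (D ω - H (past (sh (J : ℤ) ω))) * E (sh (J : ℤ) ω)) P := by
    refine Integrable.of_bound (C := δ * 2) ((hD.sub (hH.comp (past_meas.comp (sh_meas _)))).mul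
      (hEm.comp (sh_meas _))).aestronglyMeasurable (Eventually.of_forall fun ω => ?_)
    rw [norm_mul]
    exact mul_le_mul (hDH ω) (hEb _) (norm_nonneg _) hδ
  have hsplit : ∀ ω, D ω * E (sh (J : ℤ) ω) = H (past (sh (J : ℤ) ω)) * E (sh (J : ℤ) ω) +
      (D ω - H (past (sh (J : ℤ) ω))) * E (sh (J : ℤ) ω) := fun ω => by ring
  change ‖∫ ω, D ω * E (sh (J : ℤ) ω) ∂P‖ ≤ 2 * δ
  simp only [hsplit]
  rw [integral_add i1 i2, hE1, zero_add]
  refine (norm_integral_le_of_norm_le_const (C := 2 * δ) (Eventually.of_forall fun ω => ?_)).trans ?_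
  · rw [norm_mul, mul_comm 2 δ]
    exact mul_le_mul (hDH ω) (hEb _) (norm_nonneg _) hδ
  · simp

theorem t_LLN : S_LLN := by
  intro b _ hb P _ hP β t hβ ht K
  have hbN : 1 < b := by omega
  have hb1 : (1 : ℝ) < b := by exact_mod_cast hbN
  have hb0 : (0 : ℝ) < b := by linarith
  have hβ0 : (0 : ℝ) < β := by linarith
  have ht0 : 0 < |t| := abs_pos.2 ht
  set θ := Real.logb b β with hθdef
  set s := Real.logb b |t| with hsdef
  have hθ : 0 < θ := Real.logb_pos hb1 hβ
  have hbθ : (b : ℝ) ^ θ = β := Real.rpow_logb hb0 hb1.ne' hβ0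
  have hbs : (b : ℝ) ^ s = |t| := Real.rpow_logb hb0 hb1.ne' ht0
  have hpow : ∀ n : ℕ, |t| * β ^ n = (b : ℝ) ^ ((n : ℝ) * θ + s) := by
    intro n
    rw [Real.rpow_add hb0, hbs, mul_comm (n : ℝ) θ, Real.rpow_mul hb0.le, hbθ, Real.rpow_natCast]
    ring
  set v : ℕ → ℝ := fun n => (n : ℝ) * θ + s with hv
  have hvmono : ∀ m n : ℕ, m ≤ n → v m ≤ v n := by
    intro m n h
    simp only [hv]
    have : (m : ℝ) ≤ n := by exact_mod_cast h
    nlinarith
  obtain ⟨n0, hn0⟩ : ∃ n0 : ℕ, (K : ℝ) ≤ v n0 := by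
    obtain ⟨n0, h⟩ := exists_nat_gt ((K - s) / θ)
    refine ⟨n0, ?_⟩
    simp only [hv]
    rw [div_lt_iff₀ hθ] at h
    linarith
  have hKn : ∀ n, n0 ≤ n → (K : ℤ) ≤ ⌊v n⌋ := by
    intro n hn
    rw [Int.le_floor]
    have := hvmono n0 n hn
    push_cast
    linarith
  set j : ℕ → ℕ := fun n => (⌊v n⌋ - K).toNat with hjdef
  have hj : ∀ n, n0 ≤ n → ((j n : ℕ) : ℤ) = ⌊v n⌋ - K := by
    intro n hn
    simp only [hjdef]
    have := hKn n hn
    omega
  have hjr : ∀ n, n0 ≤ n → ((j n : ℕ) : ℝ) = ⌊v n⌋ - K := by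
    intro n hn
    have := hj n hn
    have h2 : (((j n : ℕ) : ℤ) : ℝ) = ((⌊v n⌋ - K : ℤ) : ℝ) := by rw [this]
    push_cast at h2
    exact h2
  have hjmono : ∀ m n, m ≤ n → j m ≤ j n := by
    intro m n h
    simp only [hjdef]
    have := Int.floor_le_floor (hvmono m n h)
    omega
  obtain ⟨σ, hσ, hσt⟩ : ∃ σ : ℝ, (σ = 1 ∨ σ = -1) ∧ t = σ * |t| := by
    rcases le_or_gt 0 t with h | h
    · exact ⟨1, Or.inl rfl, by rw [abs_of_nonneg h]; ring⟩
    · exact ⟨-1, Or.inr rfl, by rw [abs_of_neg h]; ring⟩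
  set κ := condDistrib (fut (b := b)) (past (b := b)) P with hκ
  set F : ℕ → (ℕ → Fin b) → ℂ := fun n y => e (σ * ((b : ℝ) ^ ((K : ℝ) + Int.fract (v n)) * val y)) with hF
  set G : ℕ → (ℕ → Fin b) → ℂ := fun n π => e (σ * ((b : ℝ) ^ (v n) * qq (j n) π)) with hG
  have hFm : ∀ n, Measurable (F n) := fun n => e_cont.measurable.comp (((val_meas hb).const_mul _).const_mul _)
  have hGm : ∀ n, Measurable (G n) := fun n => e_cont.measurable.comp (((qq_meas _).const_mul _).const_mul _)
  set w : ℕ → (ℕ → Fin b) → ℂ := fun n π => G n π * ∫ y, F n y ∂(κ π) with hw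
  have hIm : ∀ n, Measurable (fun π : ℕ → Fin b => ∫ y, F n y ∂(κ π)) := fun n =>
    (((hFm n).comp measurable_snd).stronglyMeasurable.integral_kernel_prod_right' (κ := κ)).measurable
  have hwm : ∀ n, Measurable (w n) := fun n => (hGm n).mul (hIm n)
  have hGb : ∀ n π, ‖G n π‖ = 1 := fun n π => norm_e _
  have hFb : ∀ n y, ‖F n y‖ = 1 := fun n y => norm_e _
  have hIb : ∀ n π, ‖∫ y, F n y ∂(κ π)‖ ≤ 1 := by
    intro n π
    refine (norm_integral_le_of_norm_le_const (C := 1) (Eventually.of_forall fun y => (hFb n y).le)).trans ?_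
    simp
  have hwb : ∀ n π, ‖w n π‖ ≤ 1 := by
    intro n π
    simp only [hw, norm_mul, hGb, one_mul]
    exact hIb n π
  -- factorization of the exponentials
  have hZ : ∀ n, n0 ≤ n → ∀ ω : ℤ → Fin b, e (t * β ^ n * val (fut ω)) =
      G n (past (sh (j n : ℤ) ω)) * F n (fut (sh (j n : ℤ) ω)) := by
    intro n hn ω
    simp only [hG, hF]
    rw [← e_add]
    congr 1
    rw [val_split hb (j n) ω]
    have h1 : t * β ^ n = σ * (b : ℝ) ^ (v n) := by
      rw [hσt, mul_assoc, hpow n]
    have h2 : (b : ℝ) ^ (v n) = (b : ℝ) ^ ((K : ℝ) + Int.fract (v n)) * (b : ℝ) ^ (j n) := by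
      rw [← Real.rpow_natCast, ← Real.rpow_add hb0]
      congr 1
      rw [hjr n hn]
      have := Int.floor_add_fract (v n)
      linarith
    rw [h1]
    have h3 : (b : ℝ) ^ (j n) ≠ 0 := by positivity
    rw [mul_add]
    congr 1
    · ring
    · rw [h2]
      field_simp
  have hWn : ∀ n, n0 ≤ n → ∀ ω : ℤ → Fin b, ‖w n (past (sh (j n : ℤ) ω))‖ =
      Phi P K (sh (⌊v n⌋ - K) ω) (Int.fract (v n)) := by
    intro n hn ω
    simp only [hw, norm_mul, hGb, one_mul]
    rw [hj n hn]
    unfold Phi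
    rcases hσ with h | h
    · simp only [hF, h, one_mul]
      rfl
    · have : ∀ y : ℕ → Fin b, F n y = (starRingEnd ℂ) (e ((b : ℝ) ^ ((K : ℝ) + Int.fract (v n)) * val y)) := by
        intro y
        simp only [hF, h]
        rw [neg_one_mul, e_neg]
      simp only [this]
      rw [integral_conj, RCLike.norm_conj]
  set D : ℕ → (ℤ → Fin b) → ℂ := fun n ω =>
    if n0 ≤ n then e (t * β ^ n * val (fut ω)) - w n (past (sh (j n : ℤ) ω)) else 0 with hD
  have hZm : ∀ n, Measurable fun ω : ℤ → Fin b => e (t * β ^ n * val (fut ω)) := fun n =>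
    e_cont.measurable.comp (((val_meas hb).comp fut_meas).const_mul _)
  have hDm : ∀ n, Measurable (D n) := by
    intro n
    simp only [hD]
    split_ifs with h
    · exact (hZm n).sub ((hwm n).comp (past_meas.comp (sh_meas _)))
    · exact measurable_const
  have hDb : ∀ n ω, ‖D n ω‖ ≤ 2 := by
    intro n ω
    simp only [hD]
    split_ifs with h
    · refine (norm_sub_le _ _).trans ?_
      rw [norm_e]
      have := hwb n (past (sh (j n : ℤ) ω))
      linarith
    · simp
  have hcorr : ∀ m n, m < n → ‖∫ ω, D m ω * (starRingEnd ℂ) (D n ω) ∂P‖ ≤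
      (4 * Real.pi * (b : ℝ) ^ (K + 1)) * (β⁻¹) ^ (n - m) := by
    intro m n hmn
    by_cases hm : n0 ≤ m
    · have hn : n0 ≤ n := by omega
      set H : (ℕ → Fin b) → ℂ := fun π => e (t * β ^ m * qq (j n) π) - w m (fun i => π (i + (j n - j m))) with hH
      have hHm : Measurable H := by
        refine (e_cont.measurable.comp ((qq_meas _).const_mul _)).sub ((hwm m).comp ?_)
        exact measurable_pi_lambda _ fun _ => measurable_pi_apply _
      have hHb : ∀ π, ‖H π‖ ≤ 2 := by
        intro π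
        simp only [hH]
        refine (norm_sub_le _ _).trans ?_
        rw [norm_e]
        have := hwb m (fun i => π (i + (j n - j m)))
        linarith
      have hδ : ∀ ω, ‖D m ω - H (past (sh (j n : ℤ) ω))‖ ≤ 2 * Real.pi * ((b : ℝ) ^ (K + 1) * (β⁻¹) ^ (n - m)) := by
        intro ω
        have h1 : D m ω - H (past (sh (j n : ℤ) ω)) = e (t * β ^ m * val (fut ω)) -
            e (t * β ^ m * qq (j n) (past (sh (j n : ℤ) ω))) := by
          simp only [hD, hH, if_pos hm]
          rw [← past_sh (j m) (j n) (hjmono m n hmn.le) ω]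
          ring
        rw [h1]
        refine (norm_e_sub_e_le _ _).trans ?_
        refine mul_le_mul_of_nonneg_left ?_ (by positivity)
        have h2 : t * β ^ m * val (fut ω) - t * β ^ m * qq (j n) (past (sh (j n : ℤ) ω)) =
            t * β ^ m * (val (fut (sh (j n : ℤ) ω)) / (b : ℝ) ^ (j n)) := by
          rw [val_split hb (j n) ω]; ring
        rw [h2, abs_mul, abs_mul, abs_of_pos (pow_pos hβ0 m), hpow m, abs_of_nonneg (div_nonneg (val_nonneg _) (by positivity))]
        have h3 : (b : ℝ) ^ (v m) * (1 / (b : ℝ) ^ (j n)) ≤ (b : ℝ) ^ (K + 1) * (β⁻¹) ^ (n - m) := by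
          have h4 : (b : ℝ) ^ (v m) = (b : ℝ) ^ (v n) * (β⁻¹) ^ (n - m) := by
            rw [← hpow, ← hpow]
            have h5 : β ^ n = β ^ m * β ^ (n - m) := by rw [← pow_add]; congr 1; omega
            rw [h5]
            have h6 : β ^ (n - m) ≠ 0 := (pow_pos hβ0 _).ne'
            rw [inv_pow]
            field_simp
          have h7 : (b : ℝ) ^ (v n) * (1 / (b : ℝ) ^ (j n)) ≤ (b : ℝ) ^ (K + 1) := by
            rw [mul_one_div, div_le_iff₀ (by positivity)]
            rw [← Real.rpow_natCast, ← Real.rpow_natCast, ← Real.rpow_add hb0]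
            refine Real.rpow_le_rpow_of_exponent_le hb1.le ?_
            rw [hjr n hn]
            have := Int.lt_floor_add_one (v n)
            push_cast
            linarith
          rw [h4, mul_right_comm]
          exact mul_le_mul_of_nonneg_right h7 (by positivity)
        refine le_trans (mul_le_mul_of_nonneg_left ?_ (by positivity)) h3
        exact div_le_div_of_nonneg_right (val_le_one hb _) (by positivity)
      have := corr P hP (j n) (D m) (hDm m) H (G n) (F n) hHm (hGm n) (hFm n) hHb (hGb n) (hFb n) _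
        (by positivity) hδ
      have h8 : ∀ ω, D n ω = G n (past (sh (j n : ℤ) ω)) * F n (fut (sh (j n : ℤ) ω)) -
          G n (past (sh (j n : ℤ) ω)) * ∫ y, F n y ∂(κ (past (sh (j n : ℤ) ω))) := by
        intro ω
        simp only [hD, if_pos hn]
        rw [hZ n hn ω]
      simp only [h8]
      refine this.trans (le_of_eq ?_)
      ring
    · have : ∀ ω, D m ω = 0 := fun ω => by simp only [hD, if_neg hm]
      simp only [this, zero_mul, integral_zero, norm_zero]
      positivity
  have hβinv : β⁻¹ < 1 := inv_lt_one_of_one_lt₀ hβ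
  have h2m := second_moment P D hDm hDb (4 * Real.pi * (b : ℝ) ^ (K + 1)) β⁻¹ (by positivity) (by positivity)
    hβinv hcorr
  have h1β : 0 < 1 - β⁻¹ := by linarith
  have has := as_of_second P D hDm hDb _ (by positivity) h2m
  filter_upwards [has] with ω hω ε hε
  obtain ⟨N1, hN1⟩ := exists_nat_gt ((n0 : ℝ) / (ε / 2))
  filter_upwards [hω (ε / 2) (half_pos hε), eventually_ge_atTop N1] with N hN hNN
  have hterm : ∀ n, ‖e (t * β ^ n * val (fut ω)) - D n ω‖ ≤
      Phi P K (sh (⌊(n : ℝ) * θ + s⌋ - K) ω) (Int.fract ((n : ℝ) * θ + s)) + (if n < n0 then 1 else 0) := by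
    intro n
    by_cases hn : n0 ≤ n
    · have h1 : e (t * β ^ n * val (fut ω)) - D n ω = w n (past (sh (j n : ℤ) ω)) := by
        simp only [hD, if_pos hn]; ring
      rw [h1, hWn n hn ω, if_neg (by omega)]
      simp only [hv, add_zero, le_refl]
    · have h1 : D n ω = 0 := by simp only [hD, if_neg hn]
      rw [h1, sub_zero, norm_e, if_pos (by omega)]
      have := (Phi_bounds P K (sh (⌊(n : ℝ) * θ + s⌋ - K) ω) (Int.fract ((n : ℝ) * θ + s))).1
      linarith
  have hsum : ∑ n ∈ range N, (if n < n0 then (1 : ℝ) else 0) ≤ n0 := by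
    rw [← sum_filter, sum_const, nsmul_eq_mul, mul_one]
    have : ((range N).filter (fun n => n < n0)).card ≤ (range n0).card := by
      refine card_le_card fun n hn => ?_
      rw [mem_filter] at hn
      exact mem_range.2 hn.2
    rw [card_range] at this
    exact_mod_cast this
  have h3 : ∑ n ∈ range N, e (t * β ^ n * val (fut ω)) = ∑ n ∈ range N, D n ω +
      ∑ n ∈ range N, (e (t * β ^ n * val (fut ω)) - D n ω) := by
    rw [← sum_add_distrib]
    exact sum_congr rfl fun n _ => by ring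
  rw [h3]
  refine (norm_add_le _ _).trans ?_
  have h4 : ‖∑ n ∈ range N, (e (t * β ^ n * val (fut ω)) - D n ω)‖ ≤
      ∑ n ∈ range N, Phi P K (sh (⌊(n : ℝ) * θ + s⌋ - K) ω) (Int.fract ((n : ℝ) * θ + s)) + n0 := by
    refine (norm_sum_le _ _).trans ((sum_le_sum fun n _ => hterm n).trans ?_)
    rw [sum_add_distrib]
    linarith
  have h5 : (n0 : ℝ) ≤ ε / 2 * N := by
    rw [div_lt_iff₀ (half_pos hε)] at hN1
    have : (N1 : ℝ) ≤ N := by exact_mod_cast hNN
    nlinarith
  linarith

end Pool.Agent.T3H29.HR
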