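import Pool.Agent.T3H29.HR.Stm

/-! # The value of a digit sequence, and the function `Phi` -/

set_option autoImplicit false

namespace Pool.Agent.T3H29.HR

open MeasureTheory ProbabilityTheory Filter Topology

lemma norm_e (x : ℝ) : ‖e x‖ = 1 := by
  unfold e; rw [Complex.norm_exp_ofReal_mul_I]

lemma e_cont : Continuous e := by
  unfold e
  fun_prop

lemma e_add (x y : ℝ) : e (x + y) = e x * e y := by
  unfold e
  rw [← Complex.exp_add]
  congr 1
  push_cast
  ring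

lemma e_neg (x : ℝ) : e (-x) = (starRingEnd ℂ) (e x) := by
  unfold e
  rw [← Complex.exp_conj]
  congr 1
  rw [map_mul, Complex.conj_I, Complex.conj_ofReal]
  push_cast
  ring

lemma norm_e_sub_e_le (x y : ℝ) : ‖e x - e y‖ ≤ 2 * Real.pi * |x - y| := by
  have h1 : e x - e y = e y * (Complex.exp (Complex.I * ((2 * Real.pi * (x - y) : ℝ) : ℂ)) - 1) := by
    have h2 : e x = e y * Complex.exp (Complex.I * ((2 * Real.pi * (x - y) : ℝ) : ℂ)) := by
      unfold e
      rw [← Complex.exp_add]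
      congr 1
      push_cast
      ring
    rw [h2]
    ring
  rw [h1, norm_mul, norm_e, one_mul]
  have h3 := Real.norm_exp_I_mul_ofReal_sub_one_le (x := 2 * Real.pi * (x - y))
  refine h3.trans (le_of_eq ?_)
  rw [Real.norm_eq_abs, abs_mul, abs_of_pos Real.two_pi_pos]

section
variable {b : ℕ}

lemma term_bound (hb : 2 ≤ b) (y : ℕ → Fin b) (i : ℕ) :
    (((y i : Fin b) : ℕ) : ℝ) / (b : ℝ) ^ (i + 1) ≤ (b - 1) / (b : ℝ) ^ (i + 1) := by
  have hb0 : (0 : ℝ) < b := by exact_mod_cast (by omega : 0 < b)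
  apply div_le_div_of_nonneg_right _ (by positivity)
  have h1 : ((y i : Fin b) : ℕ) + 1 ≤ b := (y i).2
  have h2 : (((y i : Fin b) : ℕ) : ℝ) + 1 ≤ b := by exact_mod_cast h1
  linarith

lemma hasSum_max (hb : 2 ≤ b) : HasSum (fun i : ℕ => ((b : ℝ) - 1) / (b : ℝ) ^ (i + 1)) 1 := by
  have hb1 : (1 : ℝ) < b := by exact_mod_cast (by omega : 1 < b)
  have hb0 : (0 : ℝ) < b := by linarith
  have h1 : HasSum (fun i : ℕ => ((b : ℝ)⁻¹) ^ i) (1 - (b : ℝ)⁻¹)⁻¹ :=
    hasSum_geometric_of_lt_one (by positivity) (inv_lt_one_of_one_lt₀ hb1)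
  have h2 := h1.mul_left (((b : ℝ) - 1) / b)
  have h3 : ((b : ℝ) - 1) / b * (1 - (b : ℝ)⁻¹)⁻¹ = 1 := by
    have : (b : ℝ) - 1 ≠ 0 := by linarith
    field_simp
  rw [h3] at h2
  have h4 : (fun i : ℕ => ((b : ℝ) - 1) / (b : ℝ) ^ (i + 1)) =
      fun i : ℕ => ((b : ℝ) - 1) / b * ((b : ℝ)⁻¹) ^ i := by
    funext i
    rw [inv_pow, pow_succ]
    field_simp
  rw [h4]
  exact h2

lemma summable_val (hb : 2 ≤ b) (y : ℕ → Fin b) :
    Summable (fun i : ℕ => (((y i : Fin b) : ℕ) : ℝ) / (b : ℝ) ^ (i + 1)) :=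
  Summable.of_nonneg_of_le (fun i => by positivity) (fun i => term_bound hb y i) (hasSum_max hb).summable

lemma val_nonneg (y : ℕ → Fin b) : 0 ≤ val y := tsum_nonneg fun i => by positivity

lemma val_le_one (hb : 2 ≤ b) (y : ℕ → Fin b) : val y ≤ 1 := by
  have h := (summable_val hb y).tsum_le_tsum (fun i => term_bound hb y i) (hasSum_max hb).summable
  rw [(hasSum_max hb).tsum_eq] at h
  exact h

lemma val_cont (hb : 2 ≤ b) : Continuous (val (b := b)) := by
  unfold val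
  refine continuous_tsum (fun i => ?_) (hasSum_max hb).summable (fun i y => ?_)
  · have h1 : Continuous fun y : ℕ → Fin b => y i := continuous_apply i
    have h2 : Continuous fun k : Fin b => ((k : ℕ) : ℝ) / (b : ℝ) ^ (i + 1) := continuous_of_discreteTopology
    exact h2.comp h1
  · rw [Real.norm_eq_abs, abs_of_nonneg (by positivity)]
    exact term_bound hb y i

lemma val_meas (hb : 2 ≤ b) : Measurable (val (b := b)) := (val_cont hb).measurable

lemma past_meas : Measurable (past (b := b)) :=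
  measurable_pi_lambda _ fun _ => measurable_pi_apply _

lemma fut_meas : Measurable (fut (b := b)) :=
  measurable_pi_lambda _ fun _ => measurable_pi_apply _

lemma sh_meas (k : ℤ) : Measurable (sh (b := b) k) :=
  measurable_pi_lambda _ fun _ => measurable_pi_apply _

variable [NeZero b] (P : Measure (ℤ → Fin b)) [IsProbabilityMeasure P]

lemma Phi_bounds (K : ℕ) (ω : ℤ → Fin b) (u : ℝ) : 0 ≤ Phi P K ω u ∧ Phi P K ω u ≤ 1 := by
  unfold Phi
  refine ⟨norm_nonneg _, ?_⟩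
  refine (norm_integral_le_integral_norm _).trans ?_
  simp [norm_e]

lemma Phi_meas (hb : 2 ≤ b) (K : ℕ) : Measurable (Function.uncurry (Phi P K)) := by
  have hκ : Measurable fun p : (ℤ → Fin b) × ℝ => past p.1 := past_meas.comp measurable_fst
  let κ : Kernel ((ℤ → Fin b) × ℝ) (ℕ → Fin b) :=
    (condDistrib (fut (b := b)) (past (b := b)) P).comap (fun p => past p.1) hκ
  have hf : StronglyMeasurable (fun q : ((ℤ → Fin b) × ℝ) × (ℕ → Fin b) =>
      e ((b : ℝ) ^ ((K : ℝ) + q.1.2) * val q.2)) := by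
    have h1 : Measurable fun q : ((ℤ → Fin b) × ℝ) × (ℕ → Fin b) => (b : ℝ) ^ ((K : ℝ) + q.1.2) := by
      have hb0 : (0 : ℝ) < b := by exact_mod_cast (by omega : 0 < b)
      have h2 : Continuous fun u : ℝ => (b : ℝ) ^ ((K : ℝ) + u) :=
        (Real.continuous_const_rpow hb0.ne').comp (continuous_const.add continuous_id)
      exact h2.measurable.comp (measurable_snd.comp measurable_fst)
    exact (e_cont.measurable.comp (h1.mul ((val_meas hb).comp measurable_snd))).stronglyMeasurable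
  have h := hf.integral_kernel_prod_right' (κ := κ)
  exact h.measurable.norm

omit [NeZero b] in
lemma rpow_lip (hb : 2 ≤ b) (K : ℕ) : ∃ C : ℝ, 0 ≤ C ∧ ∀ u ∈ Set.Icc (0 : ℝ) 1, ∀ v ∈ Set.Icc (0 : ℝ) 1,
    |(b : ℝ) ^ ((K : ℝ) + u) - (b : ℝ) ^ ((K : ℝ) + v)| ≤ C * |u - v| := by
  have hb0 : (0 : ℝ) < b := by exact_mod_cast (by omega : 0 < b)
  have hb1 : (1 : ℝ) ≤ b := by exact_mod_cast (by omega : 1 ≤ b)
  have hlog : 0 ≤ Real.log b := Real.log_nonneg hb1
  refine ⟨(b : ℝ) ^ ((K : ℝ) + 1) * Real.log b, by positivity, fun u hu v hv => ?_⟩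
  have hder : ∀ x ∈ Set.Icc (0 : ℝ) 1, HasDerivWithinAt (fun u : ℝ => (b : ℝ) ^ ((K : ℝ) + u))
      ((b : ℝ) ^ ((K : ℝ) + x) * Real.log b) (Set.Icc (0 : ℝ) 1) x := by
    intro x _
    have h1 : HasDerivAt (fun u : ℝ => (K : ℝ) + u) 1 x := (hasDerivAt_id x).const_add _
    have h2 := h1.const_rpow hb0
    have h3 : Real.log b * 1 * (b : ℝ) ^ ((K : ℝ) + x) = (b : ℝ) ^ ((K : ℝ) + x) * Real.log b := by ring
    rw [h3] at h2
    exact h2.hasDerivWithinAt
  have hbd : ∀ x ∈ Set.Icc (0 : ℝ) 1, ‖(b : ℝ) ^ ((K : ℝ) + x) * Real.log b‖ ≤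
      (b : ℝ) ^ ((K : ℝ) + 1) * Real.log b := by
    intro x hx
    rw [Real.norm_eq_abs, abs_of_nonneg (by positivity)]
    apply mul_le_mul_of_nonneg_right _ hlog
    exact Real.rpow_le_rpow_of_exponent_le hb1 (by linarith [hx.2])
  have := (convex_Icc (0 : ℝ) 1).norm_image_sub_le_of_norm_hasDerivWithin_le hder hbd hv hu
  simpa [Real.norm_eq_abs] using this

lemma Phi_lip (hb : 2 ≤ b) (K : ℕ) : ∃ C : ℝ, ∀ ω, ∀ u ∈ Set.Icc (0 : ℝ) 1, ∀ v ∈ Set.Icc (0 : ℝ) 1,
    |Phi P K ω u - Phi P K ω v| ≤ C * |u - v| := by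
  obtain ⟨C, hC, h⟩ := rpow_lip hb K
  refine ⟨2 * Real.pi * C, fun ω u hu v hv => ?_⟩
  unfold Phi
  refine (abs_norm_sub_norm_le _ _).trans ?_
  have hint : ∀ u : ℝ, Integrable (fun y => e ((b : ℝ) ^ ((K : ℝ) + u) * val y))
      (condDistrib (fut (b := b)) (past (b := b)) P (past ω)) := by
    intro u
    refine Integrable.of_bound (C := 1) ?_ (Eventually.of_forall fun y => (norm_e _).le)
    exact (e_cont.measurable.comp ((val_meas hb).const_mul _)).aestronglyMeasurable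
  rw [← integral_sub (hint u) (hint v)]
  refine (norm_integral_le_of_norm_le_const (C := 2 * Real.pi * C * |u - v|)
    (Eventually.of_forall fun y => ?_)).trans (le_of_eq (by simp))
  refine (norm_e_sub_e_le _ _).trans ?_
  have h1 : |(b : ℝ) ^ ((K : ℝ) + u) * val y - (b : ℝ) ^ ((K : ℝ) + v) * val y| ≤ C * |u - v| := by
    rw [← sub_mul, abs_mul, abs_of_nonneg (val_nonneg y)]
    calc _ ≤ |(b : ℝ) ^ ((K : ℝ) + u) - (b : ℝ) ^ ((K : ℝ) + v)| * 1 :=
          mul_le_mul_of_nonneg_left (val_le_one hb y) (abs_nonneg _)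
      _ ≤ _ := by rw [mul_one]; exact h u hu v hv
  calc _ ≤ 2 * Real.pi * (C * |u - v|) := mul_le_mul_of_nonneg_left h1 Real.two_pi_pos.le
    _ = _ := by ring

end

end Pool.Agent.T3H29.HR
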